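import Pool.Agent.H413.NK.DimCone

set_option autoImplicit false

/-!
Monoids with restriction maps over a compact zero-dimensional space and with simplicial stalks are
positive cones of dimension groups.
-/

namespace Pool.Agent.H413.NK

universe u v

/-- a Boolean algebra of clopen sets -/
structure BAlg (X : Type v) [TopologicalSpace X] (B : Set (Set X)) : Prop where
  clopen : ∀ U ∈ B, IsClopen U
  univ : Set.univ ∈ B
  inter : ∀ U ∈ B, ∀ W ∈ B, U ∩ W ∈ B
  compl : ∀ U ∈ B, Uᶜ ∈ B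

theorem BAlg.empty {X : Type v} [TopologicalSpace X] {B : Set (Set X)} (h : BAlg X B) : ∅ ∈ B := by
  have := h.compl _ h.univ
  rwa [Set.compl_univ] at this

theorem BAlg.union {X : Type v} [TopologicalSpace X] {B : Set (Set X)} (h : BAlg X B) {U W : Set X}
    (hU : U ∈ B) (hW : W ∈ B) : U ∪ W ∈ B := by
  have := h.compl _ (h.inter _ (h.compl _ hU) _ (h.compl _ hW))
  rwa [Set.compl_inter, compl_compl, compl_compl] at this

theorem BAlg.glue {X : Type v} [TopologicalSpace X] [CompactSpace X] {B : Set (Set X)}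
    (h : BAlg X B) (Q : Set X → Prop)
    (hmono : ∀ U ∈ B, ∀ W ∈ B, W ⊆ U → Q U → Q W)
    (hun : ∀ U ∈ B, ∀ W ∈ B, Disjoint U W → Q U → Q W → Q (U ∪ W))
    (h0 : Q ∅) (hloc : ∀ x : X, ∃ U ∈ B, x ∈ U ∧ Q U) : Q Set.univ := by
  have key : ∃ U ∈ B, Set.univ ⊆ U ∧ Q U := by
    refine IsCompact.induction_on (p := fun s => ∃ U ∈ B, s ⊆ U ∧ Q U) isCompact_univ ?_ ?_ ?_ ?_
    · exact ⟨∅, h.empty, subset_rfl, h0⟩
    · rintro s t hst ⟨U, hU, htU, hQ⟩
      exact ⟨U, hU, hst.trans htU, hQ⟩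
    · rintro s t ⟨U, hU, hsU, hQ⟩ ⟨W, hW, htW, hQ'⟩
      refine ⟨U ∪ (W ∩ Uᶜ), h.union hU (h.inter _ hW _ (h.compl _ hU)), ?_, ?_⟩
      · rintro x (hx | hx)
        · exact Or.inl (hsU hx)
        · by_cases hxU : x ∈ U
          · exact Or.inl hxU
          · exact Or.inr ⟨htW hx, hxU⟩
      · apply hun U hU _ (h.inter _ hW _ (h.compl _ hU)) _ hQ
        · exact hmono W hW _ (h.inter _ hW _ (h.compl _ hU)) Set.inter_subset_left hQ'
        · rw [Set.disjoint_left]
          intro x hx hx'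
          exact hx'.2 hx
    · intro x _
      obtain ⟨U, hU, hxU, hQ⟩ := hloc x
      refine ⟨U, ?_, U, hU, subset_rfl, hQ⟩
      rw [nhdsWithin_univ]
      exact (h.clopen U hU).isOpen.mem_nhds hxU
  obtain ⟨U, _, hU, hQ⟩ := key
  have : U = Set.univ := Set.univ_subset_iff.1 hU
  rwa [this] at hQ

/-- A monoid with restrictions and stalks. -/
structure Sheafy (X : Type v) [TopologicalSpace X] (B : Set (Set X)) (M : Type u)
    [AddCommMonoid M] (res : Set X → M →+ M) (ev : X → M →+ ℕ × ℕ) : Prop where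
  balg : BAlg X B
  res_univ : ∀ v, res Set.univ v = v
  res_empty : ∀ v, res ∅ v = 0
  res_res : ∀ U ∈ B, ∀ W ∈ B, ∀ v, res U (res W v) = res (U ∩ W) v
  res_compl : ∀ U ∈ B, ∀ v, res U v + res Uᶜ v = v
  loc : ∀ x v w, ev x v = ev x w → ∃ U ∈ B, x ∈ U ∧ res U v = res U w
  lift : ∀ x v t, t ≤ ev x v → ∃ w, ev x w = t

namespace Sheafy

variable {X : Type v} [TopologicalSpace X] {B : Set (Set X)} {M : Type u}
    [AddCommMonoid M] {res : Set X → M →+ M} {ev : X → M →+ ℕ × ℕ}

theorem res_union (h : Sheafy X B M res ev) {U W : Set X} (hU : U ∈ B) (hW : W ∈ B)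
    (hd : Disjoint U W) (v : M) : res (U ∪ W) v = res U v + res W v := by
  have h1 := h.res_compl U hU (res (U ∪ W) v)
  have hUW := h.balg.union hU hW
  rw [h.res_res U hU _ hUW, h.res_res _ (h.balg.compl U hU) _ hUW] at h1
  have e1 : U ∩ (U ∪ W) = U := Set.inter_eq_left.2 Set.subset_union_left
  have e2 : Uᶜ ∩ (U ∪ W) = W := by
    ext x
    constructor
    · rintro ⟨h2, h3 | h3⟩
      · exact absurd h3 h2
      · exact h3
    · intro hx
      exact ⟨fun hx' => Set.disjoint_left.1 hd hx' hx, Or.inr hx⟩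
  rw [e1, e2] at h1
  exact h1.symm

theorem res_mono (h : Sheafy X B M res ev) {U W : Set X} (hU : U ∈ B) (hW : W ∈ B)
    (hs : W ⊆ U) (v : M) : res W (res U v) = res W v := by
  rw [h.res_res W hW U hU, Set.inter_eq_left.2 hs]

theorem inj [CompactSpace X] (h : Sheafy X B M res ev) {v w : M} (hvw : ∀ x, ev x v = ev x w) :
    v = w := by
  have key := h.balg.glue (fun U => res U v = res U w) (by
      intro U hU W hW hs hQ
      rw [← h.res_mono hU hW hs, hQ, h.res_mono hU hW hs]) (by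
      intro U hU W hW hd h1 h2
      rw [h.res_union hU hW hd, h.res_union hU hW hd, h1, h2]) (by
      rw [h.res_empty, h.res_empty]) (fun x => h.loc x v w (hvw x))
  rwa [h.res_univ, h.res_univ] at key

theorem le [CompactSpace X] (h : Sheafy X B M res ev) {v w : M} (hvw : ∀ x, ev x v ≤ ev x w) :
    LeA v w := by
  have key := h.balg.glue (fun U => ∃ c, res U v + res U c = res U w) (by
      rintro U hU W hW hs ⟨c, hc⟩
      refine ⟨c, ?_⟩
      have := congrArg (res W) hc
      rwa [map_add, h.res_mono hU hW hs, h.res_mono hU hW hs, h.res_mono hU hW hs] at this) (by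
      rintro U hU W hW hd ⟨c, hc⟩ ⟨d, hd'⟩
      refine ⟨res U c + res W d, ?_⟩
      have e1 : res U (res U c + res W d) = res U c := by
        rw [map_add, h.res_mono hU hU subset_rfl, h.res_res U hU W hW,
          Set.disjoint_iff_inter_eq_empty.1 hd, h.res_empty, add_zero]
      have e2 : res W (res U c + res W d) = res W d := by
        rw [map_add, h.res_mono hW hW subset_rfl, h.res_res W hW U hU, Set.inter_comm,
          Set.disjoint_iff_inter_eq_empty.1 hd, h.res_empty, zero_add]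
      rw [h.res_union hU hW hd, h.res_union hU hW hd, h.res_union hU hW hd, e1, e2, ← hc, ← hd']
      abel) ⟨0, by rw [h.res_empty, h.res_empty, h.res_empty, add_zero]⟩ (by
      intro x
      obtain ⟨c, hc⟩ := h.lift x w (ev x w - ev x v) tsub_le_self
      obtain ⟨U, hU, hx, he⟩ := h.loc x (v + c) w (by rw [map_add, hc, add_tsub_cancel_of_le (hvw x)])
      exact ⟨U, hU, hx, c, by rw [← map_add, he]⟩)
  obtain ⟨c, hc⟩ := key
  rw [h.res_univ, h.res_univ, h.res_univ] at hc
  exact ⟨c, hc⟩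

theorem nat_refine (a b c d : ℕ × ℕ) (h : a + b = c + d) : ∃ p q r s : ℕ × ℕ,
    p + q = a ∧ r + s = b ∧ p + r = c ∧ q + s = d := by
  obtain ⟨a1, a2⟩ := a
  obtain ⟨b1, b2⟩ := b
  obtain ⟨c1, c2⟩ := c
  obtain ⟨d1, d2⟩ := d
  simp only [Prod.mk_add_mk, Prod.mk.injEq] at h
  refine ⟨(min a1 c1, min a2 c2), (a1 - min a1 c1, a2 - min a2 c2),
    (c1 - min a1 c1, c2 - min a2 c2), (d1 - (a1 - min a1 c1), d2 - (a2 - min a2 c2)), ?_⟩
  simp only [Prod.mk_add_mk, Prod.mk.injEq]
  omega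

theorem isDimensionCone [CompactSpace X] (h : Sheafy X B M res ev) : IsDimensionCone M := by
  apply isDimensionCone_of
  · intro a b c habc
    apply h.inj
    intro x
    have := congrArg (ev x) habc
    rw [map_add, map_add] at this
    exact add_right_cancel this
  · intro a b hab
    apply h.inj
    intro x
    have := congrArg (ev x) hab
    rw [map_add, map_zero] at this
    rw [map_zero]
    exact (add_eq_zero.1 this).1
  · intro a b c d habcd
    have key := h.balg.glue (fun U => ∃ p q r s : M, p + q = res U a ∧ r + s = res U b ∧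
      p + r = res U c ∧ q + s = res U d) (by
        rintro U hU W hW hs ⟨p, q, r, s, h1, h2, h3, h4⟩
        refine ⟨res W p, res W q, res W r, res W s, ?_, ?_, ?_, ?_⟩
        · rw [← map_add, h1, h.res_mono hU hW hs]
        · rw [← map_add, h2, h.res_mono hU hW hs]
        · rw [← map_add, h3, h.res_mono hU hW hs]
        · rw [← map_add, h4, h.res_mono hU hW hs]) (by
        rintro U hU W hW hd ⟨p, q, r, s, h1, h2, h3, h4⟩ ⟨p', q', r', s', h1', h2', h3', h4'⟩
        refine ⟨p + p', q + q', r + r', s + s', ?_, ?_, ?_, ?_⟩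
        · rw [h.res_union hU hW hd, ← h1, ← h1']; abel
        · rw [h.res_union hU hW hd, ← h2, ← h2']; abel
        · rw [h.res_union hU hW hd, ← h3, ← h3']; abel
        · rw [h.res_union hU hW hd, ← h4, ← h4']; abel)
        ⟨0, 0, 0, 0, by rw [h.res_empty, add_zero], by rw [h.res_empty, add_zero],
          by rw [h.res_empty, add_zero], by rw [h.res_empty, add_zero]⟩ (by
        intro x
        have h1 := congrArg (ev x) habcd
        rw [map_add, map_add] at h1
        obtain ⟨p, q, r, s, hp, hq, hr, hs⟩ := nat_refine _ _ _ _ h1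
        obtain ⟨p', hp'⟩ := h.lift x a p (by rw [← hp]; exact le_self_add)
        obtain ⟨q', hq'⟩ := h.lift x a q (by rw [← hp]; exact le_add_self)
        obtain ⟨r', hr'⟩ := h.lift x b r (by rw [← hq]; exact le_self_add)
        obtain ⟨s', hs'⟩ := h.lift x b s (by rw [← hq]; exact le_add_self)
        obtain ⟨U1, hU1, hx1, e1⟩ := h.loc x (p' + q') a (by rw [map_add, hp', hq', hp])
        obtain ⟨U2, hU2, hx2, e2⟩ := h.loc x (r' + s') b (by rw [map_add, hr', hs', hq])
        obtain ⟨U3, hU3, hx3, e3⟩ := h.loc x (p' + r') c (by rw [map_add, hp', hr', hr])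
        obtain ⟨U4, hU4, hx4, e4⟩ := h.loc x (q' + s') d (by rw [map_add, hq', hs', hs])
        have hU : (U1 ∩ U2) ∩ (U3 ∩ U4) ∈ B :=
          h.balg.inter _ (h.balg.inter _ hU1 _ hU2) _ (h.balg.inter _ hU3 _ hU4)
        have s1 : (U1 ∩ U2) ∩ (U3 ∩ U4) ⊆ U1 := fun y hy => hy.1.1
        have s2 : (U1 ∩ U2) ∩ (U3 ∩ U4) ⊆ U2 := fun y hy => hy.1.2
        have s3 : (U1 ∩ U2) ∩ (U3 ∩ U4) ⊆ U3 := fun y hy => hy.2.1
        have s4 : (U1 ∩ U2) ∩ (U3 ∩ U4) ⊆ U4 := fun y hy => hy.2.2
        refine ⟨(U1 ∩ U2) ∩ (U3 ∩ U4), hU, ⟨⟨hx1, hx2⟩, ⟨hx3, hx4⟩⟩,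
          res ((U1 ∩ U2) ∩ (U3 ∩ U4)) p', res ((U1 ∩ U2) ∩ (U3 ∩ U4)) q',
          res ((U1 ∩ U2) ∩ (U3 ∩ U4)) r', res ((U1 ∩ U2) ∩ (U3 ∩ U4)) s',
          ?_, ?_, ?_, ?_⟩
        · rw [← map_add, ← h.res_mono hU1 hU s1, e1, h.res_mono hU1 hU s1]
        · rw [← map_add, ← h.res_mono hU2 hU s2, e2, h.res_mono hU2 hU s2]
        · rw [← map_add, ← h.res_mono hU3 hU s3, e3, h.res_mono hU3 hU s3]
        · rw [← map_add, ← h.res_mono hU4 hU s4, e4, h.res_mono hU4 hU s4])
    obtain ⟨p, q, r, s, h1, h2, h3, h4⟩ := key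
    rw [h.res_univ] at h1 h2 h3 h4
    exact ⟨p, q, r, s, h1, h2, h3, h4⟩
  · intro n a b hn hab
    obtain ⟨c, hc⟩ := hab
    apply h.le
    intro x
    have h1 := congrArg (ev x) hc
    rw [map_add, map_nsmul, map_nsmul] at h1
    have h2 : n • ev x a ≤ n • ev x b := by
      rw [← h1]
      exact le_self_add
    constructor
    · have := h2.1
      simp only [Prod.smul_fst, smul_eq_mul] at this
      exact Nat.le_of_mul_le_mul_left this hn
    · have := h2.2
      simp only [Prod.smul_snd, smul_eq_mul] at this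
      exact Nat.le_of_mul_le_mul_left this hn

end Sheafy

end Pool.Agent.H413.NK
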