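import Pool.Agent.H413.NK.Norm
import Pool.Agent.H413.G.R_seed8.H494R3.NK.Stmts

set_option autoImplicit false

/-!
Functoriality of the monoid `V`, and cutting by central idempotents.
-/

namespace Pool.Agent.H413.NK

open Pool.Agent.Y78.NK Pool.Agent.H494R3.NK

universe u v

section functor
variable {A : Type u} {B : Type v} [NonUnitalRing A] [NonUnitalRing B]

theorem map_idem (φ : A →ₙ+* B) {ι : Type} [Fintype ι] {e : Matrix ι ι A} (h : e * e = e) :
    e.map φ * e.map φ = e.map φ := by rw [← Matrix.map_mul, h]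

/-- image of an idempotent matrix -/
def imap (φ : A →ₙ+* B) (e : Idem A) : Idem B := ⟨e.size, e.mat.map φ, map_idem φ e.idem⟩

theorem blk_map (φ : A →ₙ+* B) {m n : ℕ} (e : Matrix (Fin m) (Fin m) A)
    (f : Matrix (Fin n) (Fin n) A) : (blk e f).map φ = blk (e.map φ) (f.map φ) := by
  unfold blk
  rw [← Matrix.submatrix_map, Matrix.fromBlocks_map]
  have h1 : (0 : Matrix (Fin m) (Fin n) A).map φ = 0 := by
    ext i j; exact map_zero φ
  have h2 : (0 : Matrix (Fin n) (Fin m) A).map φ = 0 := by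
    ext i j; exact map_zero φ
  rw [h1, h2]

theorem cm_congr {R : Type u} [NonUnitalRing R] {n : ℕ} {e f : Matrix (Fin n) (Fin n) R}
    (he : e * e = e) (hf : f * f = f) (h : e = f) : cm he = cm hf := by
  subst h; rfl

theorem cm_eq {R : Type u} [NonUnitalRing R] {m n : ℕ} {e : Matrix (Fin m) (Fin m) R}
    {f : Matrix (Fin n) (Fin n) R} (he : e * e = e) (hf : f * f = f) :
    cm he = cm hf ↔ Eqv e f := VV.mk_eq

theorem exists_cm {R : Type u} [NonUnitalRing R] (v : VV R) :
    ∃ (n : ℕ) (e : Matrix (Fin n) (Fin n) R) (he : e * e = e), v = cm he := by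
  obtain ⟨⟨n, e, he⟩, h⟩ := Quotient.exists_rep v
  exact ⟨n, e, he, h.symm⟩

theorem cm_add {R : Type u} [NonUnitalRing R] {m n : ℕ} {e : Matrix (Fin m) (Fin m) R}
    {f : Matrix (Fin n) (Fin n) R} (he : e * e = e) (hf : f * f = f) :
    cm he + cm hf = cm (blk_idem he hf) := rfl

theorem cm_zero {R : Type u} [NonUnitalRing R] {n : ℕ} (h : (0 : Matrix (Fin n) (Fin n) R) * 0 = 0) :
    cm h = 0 := VV.mk_eq.2 Eqv.zero

/-- the homomorphism of monoids induced by a homomorphism of rings -/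
def VVmap (φ : A →ₙ+* B) : VV A →+ VV B where
  toFun := Quotient.map' (s₁ := Idem.setoid A) (s₂ := Idem.setoid B) (imap φ) (by
    intro e f h
    obtain ⟨x, y, h1, h2⟩ := (Idem.equiv_iff e f).1 h
    refine (Idem.equiv_iff _ _).2 ⟨x.map φ, y.map φ, ?_, ?_⟩
    · show x.map φ * y.map φ = e.mat.map φ
      rw [← Matrix.map_mul, h1]
    · show y.map φ * x.map φ = f.mat.map φ
      rw [← Matrix.map_mul, h2])
  map_zero' := by
    show VV.mk (imap φ (Idem.zero A)) = VV.mk (Idem.zero B)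
    refine VV.mk_eq.2 ?_
    have h1 : (imap φ (Idem.zero A)).mat = 0 := by
      ext i j
      exact Fin.elim0 i
    have h2 : (Idem.zero B).mat = 0 := by
      ext i j
      exact Fin.elim0 i
    rw [h1, h2]
    exact Eqv.zero
  map_add' := by
    rintro ⟨e⟩ ⟨f⟩
    show VV.mk (imap φ (e.add f)) = VV.mk ((imap φ e).add (imap φ f))
    refine VV.mk_eq.2 ?_
    have h1 : (imap φ (e.add f)).mat = ((imap φ e).add (imap φ f)).mat := blk_map φ e.mat f.mat
    rw [h1]
    exact Eqv.refl ((imap φ e).add (imap φ f)).idem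

theorem VVmap_cm (φ : A →ₙ+* B) {n : ℕ} {e : Matrix (Fin n) (Fin n) A} (he : e * e = e) :
    VVmap φ (cm he) = cm (map_idem φ he) := rfl

end functor

section orth
variable {R : Type u} [NonUnitalRing R]

theorem eqv_orth {ι : Type} [Fintype ι] {e f : Matrix ι ι R} (he : e * e = e) (hf : f * f = f)
    (h1 : e * f = 0) (h2 : f * e = 0) : Eqv (e + f) (Matrix.fromBlocks e 0 0 f) := by
  refine ⟨Matrix.fromCols e f, Matrix.fromRows e f, ?_, ?_⟩
  · rw [colrow, he, hf]
  · rw [rowcol, he, hf, h1, h2]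

theorem orth_idem {ι : Type} [Fintype ι] {e f : Matrix ι ι R} (he : e * e = e) (hf : f * f = f)
    (h1 : e * f = 0) (h2 : f * e = 0) : (e + f) * (e + f) = e + f := by
  rw [add_mul, mul_add, mul_add, he, hf, h1, h2, add_zero, zero_add]

theorem cm_orth {n : ℕ} {e f : Matrix (Fin n) (Fin n) R} (he : e * e = e) (hf : f * f = f)
    (h1 : e * f = 0) (h2 : f * e = 0) : cm he + cm hf = cm (orth_idem he hf h1 h2) := by
  rw [cm_add]
  refine ((cm_eq _ _).2 ?_).symm
  exact Eqv.trans (orth_idem he hf h1 h2) (blk_idem he hf) (eqv_orth he hf h1 h2)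
    (Eqv.blk he hf)

end orth

section rank
variable {A : Type u} [NonUnitalRing A]

/-- the rank as a homomorphism of monoids -/
noncomputable def rkH (φ : A →ₙ+* M2) : VV A →+ ℕ where
  toFun := rk φ
  map_zero' := by
    have := rk_add φ 0 0
    rw [add_zero] at this
    omega
  map_add' := rk_add φ

theorem rkH_cm (φ : A →ₙ+* M2) {n : ℕ} {e : Matrix (Fin n) (Fin n) A} (he : e * e = e) :
    ((rkH φ (cm he) : ℕ) : ℂ) = ∑ i, (φ (e i i)).trace := rk_cast φ (cm he)

end rank

/-! ### normal forms cut by a central idempotent -/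

/-- data describing a block of a subring of the two by two matrices -/
structure Cut (B : Subring M2) (K : Subfield ℂ) (c p q : M2) : Prop where
  cB : c ∈ B
  cc : c * c = c
  cen : ∀ a ∈ B, c * a = a * c
  pB : p ∈ B
  pp : p * p = p
  p0 : p ≠ 0
  hK : ∀ r ∈ K, r • p ∈ B
  hpK : ∀ a ∈ B, ∃ r ∈ K, p * a * p = r • p
  qc : ∀ a ∈ B, q * a = a * q
  tr : (p * q).trace = 1
  qcc : c * q = q
  full : ∃ u₁ ∈ B, ∃ v₁ ∈ B, ∃ u₂ ∈ B, ∃ v₂ ∈ B, c = u₁ * p * v₁ + u₂ * p * v₂

/-- equivalence of idempotent matrices over a subring -/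
def EqvB (B : Subring M2) {ι κ : Type} [Fintype ι] [Fintype κ] (e : Matrix ι ι M2)
    (f : Matrix κ κ M2) : Prop :=
  ∃ (X : Matrix ι κ M2) (Y : Matrix κ ι M2), InB B X ∧ InB B Y ∧ X * Y = e ∧ Y * X = f

theorem diag_mul_comm {B : Subring M2} {c : M2} (hc : ∀ a ∈ B, c * a = a * c) {ι κ : Type}
    [Fintype ι] [Fintype κ] [DecidableEq ι] [DecidableEq κ] {X : Matrix ι κ M2} (hX : InB B X) :
    Matrix.diagonal (fun _ : ι => c) * X = X * Matrix.diagonal (fun _ : κ => c) := by
  ext1 i j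
  rw [Matrix.diagonal_mul, Matrix.mul_diagonal]
  exact hc _ (hX i j)

theorem cut_nf {B : Subring M2} {K : Subfield ℂ} {c p q : M2} (h : Cut B K c p q) {ι : Type}
    [Fintype ι] [DecidableEq ι] {e : Matrix ι ι M2} (heB : InB B e) (hee : e * e = e) :
    ∃ (m : ℕ) (U : Matrix ι (Fin m) M2) (V : Matrix (Fin m) ι M2), InB B U ∧ InB B V ∧
      U * V = Matrix.diagonal (fun _ => c) * e ∧ V * U = Matrix.diagonal (fun _ => p) ∧
      (m : ℂ) = ∑ i, (e i i * q).trace := by
  obtain ⟨C, hC⟩ : ∃ C : Matrix ι ι M2, C = Matrix.diagonal (fun _ => c) := ⟨_, rfl⟩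
  have hCC : C * C = C := by rw [hC, Matrix.diagonal_mul_diagonal]; simp [h.cc]
  have hCB : InB B C := hC ▸ InB.diag h.cB
  have hCe : C * e = e * C := by rw [hC]; exact diag_mul_comm h.cen heB
  have he' : C * e * (C * e) = C * e := by
    calc C * e * (C * e) = C * (e * C) * e := by simp only [Matrix.mul_assoc]
      _ = (C * C) * (e * e) := by rw [← hCe]; simp only [Matrix.mul_assoc]
      _ = C * e := by rw [hCC, hee]
  obtain ⟨u₁, hu₁, v₁, hv₁, u₂, hu₂, v₂, hv₂, hc⟩ := h.full
  obtain ⟨D, hD⟩ : ∃ D : M2 → Matrix ι ι M2, ∀ a, D a = Matrix.diagonal (fun _ => a) :=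
    ⟨fun a => Matrix.diagonal (fun _ => a), fun _ => rfl⟩
  have hDm : ∀ a b, D a * D b = D (a * b) := by
    intro a b
    rw [hD, hD, hD, Matrix.diagonal_mul_diagonal]
  have hDa : ∀ a b, D a + D b = D (a + b) := by
    intro a b
    rw [hD, hD, hD, Matrix.diagonal_add]
  obtain ⟨P, hP⟩ : ∃ P : Matrix (ι ⊕ ι) (ι ⊕ ι) M2, P = Matrix.diagonal (fun _ => p) := ⟨_, rfl⟩
  have hP' : P = Matrix.fromBlocks (D p) 0 0 (D p) := by
    rw [hP, hD, Matrix.fromBlocks_diagonal]
    congr 1
    funext i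
    cases i <;> rfl
  have hDB : ∀ a ∈ B, InB B (D a) := by
    intro a ha
    rw [hD]
    exact InB.diag ha
  have hX : InB B (Matrix.fromCols (C * e * D u₁) (C * e * D u₂)) := by
    rintro i (j | j)
    · exact ((hCB.mul heB).mul (hDB _ hu₁)) i j
    · exact ((hCB.mul heB).mul (hDB _ hu₂)) i j
  have hY : InB B (Matrix.fromRows (D v₁) (D v₂)) := by
    rintro (i | i) j
    · exact hDB _ hv₁ i j
    · exact hDB _ hv₂ i j
  have hXPY : C * e = Matrix.fromCols (C * e * D u₁) (C * e * D u₂) * P *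
      Matrix.fromRows (D v₁) (D v₂) := by
    rw [hP', Matrix.mul_assoc, Matrix.fromBlocks_mul_fromRows, Matrix.fromCols_mul_fromRows]
    simp only [Matrix.zero_mul, add_zero, zero_add]
    calc C * e = (C * e) * C := by
          rw [Matrix.mul_assoc, ← hCe, ← Matrix.mul_assoc, hCC]
      _ = (C * e) * (D u₁ * (D p * D v₁) + D u₂ * (D p * D v₂)) := by
          rw [hDm, hDm, hDm, hDm, hDa, hC, hc, hD]
          simp only [mul_assoc]
      _ = _ := by rw [Matrix.mul_add]; simp only [Matrix.mul_assoc]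
  obtain ⟨m, U, V, hU, hV, hUV, hVU⟩ := nf B K p h.pB h.pp h.p0 h.hK h.hpK (C * e)
    (hCB.mul heB) he' _ _ hX hY P hP hXPY
  refine ⟨m, U, V, hU, hV, by rw [hUV, hC], hVU, ?_⟩
  have h1 : ∑ i, (e i i * q).trace = ∑ i, ((C * e) i i * q).trace := by
    refine Finset.sum_congr rfl fun i _ => ?_
    rw [hC, Matrix.diagonal_mul, h.cen _ (heB i i), mul_assoc, h.qcc]
  have h2 : ∑ i, ((C * e) i i * q).trace = ∑ i, ∑ k, (V k i * U i k * q).trace := by
    refine Finset.sum_congr rfl fun i _ => ?_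
    rw [← hUV, Matrix.mul_apply, Finset.sum_mul, Matrix.trace_sum]
    refine Finset.sum_congr rfl fun k _ => ?_
    rw [mul_assoc, ← h.qc _ (hV k i), ← mul_assoc, Matrix.trace_mul_comm, mul_assoc]
  rw [h1, h2, Finset.sum_comm]
  have h3 : ∀ k : Fin m, ∑ i, (V k i * U i k * q).trace = 1 := by
    intro k
    rw [← Matrix.trace_sum, ← Finset.sum_mul, ← Matrix.mul_apply, hVU, Matrix.diagonal_apply_eq,
      h.tr]
  rw [Finset.sum_congr rfl fun k _ => h3 k]
  simp

theorem EqvB.of_cut {B : Subring M2} {K : Subfield ℂ} {c p q : M2} (h : Cut B K c p q) {ι κ : Type}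
    [Fintype ι] [DecidableEq ι] [Fintype κ] [DecidableEq κ] {e : Matrix ι ι M2}
    {f : Matrix κ κ M2} (heB : InB B e) (hee : e * e = e) (hfB : InB B f) (hff : f * f = f)
    (htr : ∑ i, (e i i * q).trace = ∑ i, (f i i * q).trace) :
    EqvB B (Matrix.diagonal (fun _ => c) * e) (Matrix.diagonal (fun _ => c) * f) := by
  obtain ⟨m, U, V, hU, hV, hUV, hVU, hm⟩ := cut_nf h heB hee
  obtain ⟨n, U', V', hU', hV', hUV', hVU', hn⟩ := cut_nf h hfB hff
  have hmn : m = n := by
    have : (m : ℂ) = n := by rw [hm, hn, htr]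
    exact_mod_cast this
  subst hmn
  have hi : ∀ {ι : Type} [Fintype ι] [DecidableEq ι] {e : Matrix ι ι M2}, InB B e → e * e = e →
      (Matrix.diagonal (fun _ => c) * e) * (Matrix.diagonal (fun _ => c) * e) =
        Matrix.diagonal (fun _ => c) * e := by
    intro ι _ _ e heB hee
    have hCe := diag_mul_comm h.cen heB
    calc (Matrix.diagonal (fun _ => c) * e) * (Matrix.diagonal (fun _ => c) * e) =
        Matrix.diagonal (fun _ => c) * (e * Matrix.diagonal (fun _ => c)) * e := by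
          simp only [Matrix.mul_assoc]
      _ = (Matrix.diagonal (fun _ => c) * Matrix.diagonal (fun _ => c)) * (e * e) := by
          rw [← hCe]; simp only [Matrix.mul_assoc]
      _ = _ := by
          rw [hee, Matrix.diagonal_mul_diagonal]
          simp only [h.cc]
  refine ⟨U * V', U' * V, hU.mul hV', hU'.mul hV, ?_, ?_⟩
  · calc U * V' * (U' * V) = U * (V' * U') * V := by simp only [Matrix.mul_assoc]
      _ = (U * V) * (U * V) := by rw [hVU', ← hVU]; simp only [Matrix.mul_assoc]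
      _ = _ := by rw [hUV]; exact hi heB hee
  · calc U' * V * (U * V') = U' * (V * U) * V' := by simp only [Matrix.mul_assoc]
      _ = (U' * V') * (U' * V') := by rw [hVU, ← hVU']; simp only [Matrix.mul_assoc]
      _ = _ := by rw [hUV']; exact hi hfB hff

theorem EqvB.join {B : Subring M2} {c d : M2} (hcB : c ∈ B) (hdB : d ∈ B) (hcd : c + d = 1)
    (hcd0 : c * d = 0) (hdc0 : d * c = 0)
    (hcen : ∀ a ∈ B, c * a = a * c) (hden : ∀ a ∈ B, d * a = a * d) {ι κ : Type}
    [Fintype ι] [DecidableEq ι] [Fintype κ] [DecidableEq κ] {e : Matrix ι ι M2}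
    {f : Matrix κ κ M2} (h1 : EqvB B (Matrix.diagonal (fun _ => c) * e)
      (Matrix.diagonal (fun _ => c) * f))
    (h2 : EqvB B (Matrix.diagonal (fun _ => d) * e) (Matrix.diagonal (fun _ => d) * f)) :
    EqvB B e f := by
  obtain ⟨X, Y, hX, hY, hXY, hYX⟩ := h1
  obtain ⟨X', Y', hX', hY', hXY', hYX'⟩ := h2
  obtain ⟨Ce, hCe⟩ : ∃ C : Matrix ι ι M2, C = Matrix.diagonal (fun _ => c) := ⟨_, rfl⟩
  obtain ⟨Cf, hCf⟩ : ∃ C : Matrix κ κ M2, C = Matrix.diagonal (fun _ => c) := ⟨_, rfl⟩
  obtain ⟨De, hDe⟩ : ∃ C : Matrix ι ι M2, C = Matrix.diagonal (fun _ => d) := ⟨_, rfl⟩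
  obtain ⟨Df, hDf⟩ : ∃ C : Matrix κ κ M2, C = Matrix.diagonal (fun _ => d) := ⟨_, rfl⟩
  have cc : c * c = c := by
    have : c * (c + d) = c := by rw [hcd, mul_one]
    rwa [mul_add, hcd0, add_zero] at this
  have dd : d * d = d := by
    have : d * (c + d) = d := by rw [hcd, mul_one]
    rwa [mul_add, hdc0, zero_add] at this
  have e1 : Ce * Ce = Ce := by rw [hCe, Matrix.diagonal_mul_diagonal]; simp only [cc]
  have e2 : De * De = De := by rw [hDe, Matrix.diagonal_mul_diagonal]; simp only [dd]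
  have e3 : Ce * De = 0 := by rw [hCe, hDe, Matrix.diagonal_mul_diagonal]; simp [hcd0]
  have e3' : De * Ce = 0 := by rw [hCe, hDe, Matrix.diagonal_mul_diagonal]; simp [hdc0]
  have e4 : Ce + De = 1 := by rw [hCe, hDe, Matrix.diagonal_add]; simp [hcd]
  have f1 : Cf * Cf = Cf := by rw [hCf, Matrix.diagonal_mul_diagonal]; simp only [cc]
  have f2 : Df * Df = Df := by rw [hDf, Matrix.diagonal_mul_diagonal]; simp only [dd]
  have f3 : Cf * Df = 0 := by rw [hCf, hDf, Matrix.diagonal_mul_diagonal]; simp [hcd0]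
  have f3' : Df * Cf = 0 := by rw [hCf, hDf, Matrix.diagonal_mul_diagonal]; simp [hdc0]
  have f4 : Cf + Df = 1 := by rw [hCf, hDf, Matrix.diagonal_add]; simp [hcd]
  have g1 : Ce * X = X * Cf := by rw [hCe, hCf]; exact diag_mul_comm hcen hX
  have g2 : Cf * Y = Y * Ce := by rw [hCe, hCf]; exact diag_mul_comm hcen hY
  have g3 : De * X' = X' * Df := by rw [hDe, hDf]; exact diag_mul_comm hden hX'
  have g4 : Df * Y' = Y' * De := by rw [hDe, hDf]; exact diag_mul_comm hden hY'
  have g5 : De * X = X * Df := by rw [hDe, hDf]; exact diag_mul_comm hden hX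
  have g6 : Df * Y = Y * De := by rw [hDe, hDf]; exact diag_mul_comm hden hY
  have iCe : InB B Ce := hCe ▸ InB.diag hcB
  have iCf : InB B Cf := hCf ▸ InB.diag hcB
  have iDe : InB B De := hDe ▸ InB.diag hdB
  have iDf : InB B Df := hDf ▸ InB.diag hdB
  rw [← hCe] at hXY
  rw [← hCf] at hYX
  rw [← hDe] at hXY'
  rw [← hDf] at hYX'
  refine ⟨Ce * X + De * X', Cf * Y + Df * Y', ?_, ?_, ?_, ?_⟩
  · intro i j
    exact B.add_mem ((iCe.mul hX) i j) ((iDe.mul hX') i j)
  · intro i j
    exact B.add_mem ((iCf.mul hY) i j) ((iDf.mul hY') i j)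
  · calc (Ce * X + De * X') * (Cf * Y + Df * Y') =
        Ce * (X * Cf) * Y + Ce * X * (Df * Y') + De * X' * (Cf * Y) + De * (X' * Df) * Y' := by
          simp only [Matrix.mul_add, Matrix.add_mul, Matrix.mul_assoc]; abel
      _ = e := by
          rw [← g1, ← g3]
          have k1 : Ce * X * (Df * Y') = 0 := by
            calc Ce * X * (Df * Y') = Ce * (X * Df) * Y' := by simp only [Matrix.mul_assoc]
              _ = (Ce * De) * (X * Y') := by rw [← g5]; simp only [Matrix.mul_assoc]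
              _ = 0 := by rw [e3, Matrix.zero_mul]
          have k2 : De * X' * (Cf * Y) = 0 := by
            calc De * X' * (Cf * Y) = (X' * (Df * Cf)) * Y := by
                  rw [g3]; simp only [Matrix.mul_assoc]
              _ = 0 := by rw [f3', Matrix.mul_zero, Matrix.zero_mul]
          have k3 : Ce * (Ce * X) * Y = Ce * e := by
            rw [← Matrix.mul_assoc, e1, Matrix.mul_assoc, hXY, ← Matrix.mul_assoc, e1]
          have k4 : De * (De * X') * Y' = De * e := by
            rw [← Matrix.mul_assoc, e2, Matrix.mul_assoc, hXY', ← Matrix.mul_assoc, e2]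
          rw [k1, k2, k3, k4, add_zero, add_zero, ← Matrix.add_mul, e4, Matrix.one_mul]
  · calc (Cf * Y + Df * Y') * (Ce * X + De * X') =
        Cf * (Y * Ce) * X + Cf * Y * (De * X') + Df * Y' * (Ce * X) + Df * (Y' * De) * X' := by
          simp only [Matrix.mul_add, Matrix.add_mul, Matrix.mul_assoc]; abel
      _ = f := by
          rw [← g2, ← g4]
          have k1 : Cf * Y * (De * X') = 0 := by
            calc Cf * Y * (De * X') = Cf * (Y * De) * X' := by simp only [Matrix.mul_assoc]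
              _ = (Cf * Df) * (Y * X') := by rw [← g6]; simp only [Matrix.mul_assoc]
              _ = 0 := by rw [f3, Matrix.zero_mul]
          have k2 : Df * Y' * (Ce * X) = 0 := by
            calc Df * Y' * (Ce * X) = (Y' * (De * Ce)) * X := by
                  rw [g4]; simp only [Matrix.mul_assoc]
              _ = 0 := by rw [e3', Matrix.mul_zero, Matrix.zero_mul]
          have k3 : Cf * (Cf * Y) * X = Cf * f := by
            rw [← Matrix.mul_assoc, f1, Matrix.mul_assoc, hYX, ← Matrix.mul_assoc, f1]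
          have k4 : Df * (Df * Y') * X' = Df * f := by
            rw [← Matrix.mul_assoc, f2, Matrix.mul_assoc, hYX', ← Matrix.mul_assoc, f2]
          rw [k1, k2, k3, k4, add_zero, add_zero, ← Matrix.add_mul, f4, Matrix.one_mul]

end Pool.Agent.H413.NK
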