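import Pool.Agent.H413.NK.Cliff
import Pool.Agent.H413.NK.Vmap
import Pool.Agent.H413.NK.Stalk
import Pool.Agent.H413.G.R_seed8.Y78.NK.Main
import Pool.Agent.H413.G.R_seed8.H494R3.NK.MatZ

set_option autoImplicit false

/-!
The monoid `V` of the C*-algebra of continuous functions commuting with everything that commutes
with the given projections.
-/

namespace Pool.Agent.H413.NK

open Pool.Agent.Y78.NK Pool.Agent.H494R3.NK
open scoped Matrix.Norms.L2Operator

universe u

theorem eqv_of_units {R : Type u} [Ring R] {m n : ℕ} {e : Matrix (Fin m) (Fin m) R}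
    {f : Matrix (Fin n) (Fin n) R} (he : e * e = e) (X : Matrix (Fin m) (Fin n) R)
    (Y : Matrix (Fin n) (Fin m) R) (hXf : X * f = X) (hYe : Y * e = Y)
    (v : Matrix (Fin m) (Fin m) R) (w : Matrix (Fin n) (Fin n) R) (hv : IsUnit v) (hw : IsUnit w)
    (hXY : X * Y = e * v) (hev : e * v = v * e) (hYX : Y * X = f * w) : Eqv e f := by
  obtain ⟨v', hv1, hv2⟩ : ∃ v', v * v' = 1 ∧ v' * v = 1 := by
    obtain ⟨u, rfl⟩ := hv
    exact ⟨_, Units.mul_inv u, Units.inv_mul u⟩
  obtain ⟨w', hw1, -⟩ : ∃ w', w * w' = 1 ∧ w' * w = 1 := by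
    obtain ⟨u, rfl⟩ := hw
    exact ⟨_, Units.mul_inv u, Units.inv_mul u⟩
  refine ⟨X, Y * v' * e, ?_, ?_⟩
  · calc X * (Y * v' * e) = (X * Y) * v' * e := by simp only [Matrix.mul_assoc]
      _ = e * (v * v') * e := by rw [hXY]; simp only [Matrix.mul_assoc]
      _ = e := by rw [hv1, Matrix.mul_one, he]
  · obtain ⟨g, hg⟩ : ∃ g, g = Y * v' * e * X := ⟨_, rfl⟩
    have h1 : g * (f * w) = f * w := by
      rw [hg, ← hYX]
      calc Y * v' * e * X * (Y * X) = Y * v' * e * (X * Y) * X := by simp only [Matrix.mul_assoc]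
        _ = Y * v' * ((e * e) * v) * X := by rw [hXY]; simp only [Matrix.mul_assoc]
        _ = Y * (v' * v) * e * X := by rw [he, hev]; simp only [Matrix.mul_assoc]
        _ = Y * X := by rw [hv2, Matrix.mul_one, hYe]
    have h2 : g * f = f := by
      have := congrArg (fun z => z * w') h1
      simp only [Matrix.mul_assoc] at this
      rwa [hw1, Matrix.mul_one] at this
    have h3 : g * f = g := by
      rw [hg, Matrix.mul_assoc, hXf]
    rw [← hg, ← h3, h2]

section
variable (F : Fam) (I : Type)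

/-- the possible values at a point -/
def Bt (t : I → T) : Subring M2 where
  carrier := {x | Good F I t x}
  mul_mem' := by
    intro f g hf hg y hy
    rw [← mul_assoc, hf y hy, mul_assoc, hg y hy, mul_assoc]
  one_mem' := by
    intro y _
    rw [mul_one, one_mul]
  add_mem' := by
    intro f g hf hg y hy
    rw [mul_add, add_mul, hf y hy, hg y hy]
  zero_mem' := by
    intro y _
    rw [mul_zero, zero_mul]
  neg_mem' := by
    intro f hf y hy
    rw [mul_neg, neg_mul, hf y hy]

theorem mem_Bt {t : I → T} {x : M2} : x ∈ Bt F I t ↔ Good F I t x := Iff.rfl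

theorem smul_mem_Bt {t : I → T} {x : M2} (h : x ∈ Bt F I t) (c : ℂ) : c • x ∈ Bt F I t := by
  intro y hy
  rw [mul_smul_comm, smul_mul_assoc, h y hy]

/-- admissible idempotents -/
def AdA (t : I → T) (q : M2) : Prop := q * q = q ∧ ∀ i, q * F.P (t i) = F.P (t i) * q

/-- the rank cut by an idempotent -/
noncomputable def rkA (t : I → T) (q : M2) : VV (Alg F I) →+ ℕ :=
  open Classical in if h : AdA F I t q then rkH (evq F I t q h.1 h.2) else 0

theorem rkA_cm {t : I → T} {q : M2} (h : AdA F I t q) {n : ℕ}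
    {e : Matrix (Fin n) (Fin n) (Alg F I)} (he : e * e = e) :
    ((rkA F I t q (cm he) : ℕ) : ℂ) = ∑ i, ((e i i).1 t * q).trace := by
  unfold rkA
  rw [dif_pos h, rkH_cm]
  rfl

theorem rkA_zero (t : I → T) (w : VV (Alg F I)) : rkA F I t 0 w = 0 := by
  obtain ⟨n, e, he, rfl⟩ := exists_cm w
  have h1 := rkA_cm F I (t := t) (q := 0) ⟨zero_mul 0, fun i => by rw [zero_mul, mul_zero]⟩ he
  simp only [mul_zero, Matrix.trace_zero, Finset.sum_const_zero] at h1
  exact_mod_cast h1

/-- two of the projections do not commute -/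
def Nc (t : I → T) : Prop := ∃ i j, F.P (t i) * F.P (t j) ≠ F.P (t j) * F.P (t i)

/-- some of the projections is nonzero -/
def Nz (t : I → T) : Prop := ∃ i, F.P (t i) ≠ 0

/-- a nonzero projection -/
noncomputable def pz (t : I → T) : M2 :=
  open Classical in if h : Nz F I t then F.P (t h.choose) else 0

theorem pz_spec {t : I → T} (h : Nz F I t) : ∃ i, pz F I t = F.P (t i) ∧ (F.P (t i)).trace = 1 := by
  refine ⟨h.choose, ?_, ?_⟩
  · unfold pz; rw [dif_pos h]
  · exact (F.rk _).resolve_left h.choose_spec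

/-- the first cutting idempotent -/
noncomputable def ua (t : I → T) : M2 := open Classical in if Nc F I t then 1 else
  if Nz F I t then pz F I t else pp 0

/-- the second cutting idempotent -/
noncomputable def ub (t : I → T) : M2 := open Classical in if Nc F I t then 0 else
  if Nz F I t then 1 - pz F I t else 0

theorem ad_one (t : I → T) : AdA F I t 1 := ⟨one_mul 1, fun i => by rw [one_mul, mul_one]⟩

theorem ad_zero (t : I → T) : AdA F I t 0 := ⟨zero_mul 0, fun i => by rw [zero_mul, mul_zero]⟩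

theorem ad_pz {t : I → T} (h : ¬ Nc F I t) (h' : Nz F I t) : AdA F I t (pz F I t) := by
  obtain ⟨i, hi, -⟩ := pz_spec F I h'
  rw [hi]
  refine ⟨F.idem _, fun j => ?_⟩
  by_contra hcon
  exact h ⟨i, j, hcon⟩

theorem ad_compl {t : I → T} {q : M2} (h : AdA F I t q) : AdA F I t (1 - q) :=
  ⟨compl_idem h.1, fun i => compl_comm (h.2 i)⟩

theorem ad_pp {t : I → T} (h : ¬ Nz F I t) : AdA F I t (pp 0) := by
  refine ⟨pp_idem 0, fun i => ?_⟩
  have : F.P (t i) = 0 := by
    by_contra hcon
    exact h ⟨i, hcon⟩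
  rw [this, mul_zero, zero_mul]

theorem ad_ua (t : I → T) : AdA F I t (ua F I t) := by
  unfold ua
  split_ifs with h h'
  · exact ad_one F I t
  · exact ad_pz F I h h'
  · exact ad_pp F I h'

theorem ad_ub (t : I → T) : AdA F I t (ub F I t) := by
  unfold ub
  split_ifs with h h'
  · exact ad_zero F I t
  · exact ad_compl F I (ad_pz F I h h')
  · exact ad_zero F I t

theorem one_split : (1 : M2) = 1 * pp 0 * 1 + sig 1 * pp 0 * sig 1 := by
  rw [sig_pp (show (0 : Fin 3) ≠ 1 by decide), one_mul, mul_one, pm_eq]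
  abel

theorem cutA_nc {t : I → T} (h : Nc F I t) : Cut (Bt F I t) ⊤ 1 (pp 0) 1 := by
  obtain ⟨i, j, hij⟩ := h
  have hall : ∀ x : M2, x ∈ Bt F I t := fun x => good_noncomm F I t i j hij x
  exact
  { cB := hall _
    cc := one_mul 1
    cen := fun a _ => by rw [one_mul, mul_one]
    pB := hall _
    pp := pp_idem 0
    p0 := pp_ne 0
    hK := fun r _ => hall _
    hpK := fun a _ => ⟨(a * pp 0).trace, trivial, pp_corner 0 a⟩
    qc := fun a _ => by rw [one_mul, mul_one]
    tr := by rw [mul_one, pp_trace]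
    qcc := one_mul 1
    full := ⟨1, hall _, 1, hall _, sig 1, hall _, sig 1, hall _, one_split⟩ }

theorem cut_rank_one {B : Subring M2} {p : M2} (hp : p * p = p) (ht : p.trace = 1) (hpB : p ∈ B)
    (hs : ∀ c : ℂ, c • p ∈ B) (hc : ∀ a ∈ B, p * a = a * p) : Cut B ⊤ p p p where
  cB := hpB
  cc := hp
  cen := hc
  pB := hpB
  pp := hp
  p0 := by
    intro h
    rw [h, Matrix.trace_zero] at ht
    exact zero_ne_one ht
  hK := fun r _ => hs r
  hpK := fun a _ => ⟨(a * p).trace, trivial, corner_rank p a (det_of_idem p hp ht)⟩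
  qc := hc
  tr := by rw [hp, ht]
  qcc := hp
  full := ⟨1, B.one_mem, 1, B.one_mem, 0, B.zero_mem, 0, B.zero_mem, by
    rw [one_mul, mul_one, mul_zero, add_zero]⟩

theorem pz_mem {t : I → T} (h' : Nz F I t) : pz F I t ∈ Bt F I t := by
  obtain ⟨i, hi, -⟩ := pz_spec F I h'
  rw [hi]
  intro y hy
  exact hy i

theorem pz_cen {t : I → T} (h : ¬ Nc F I t) (h' : Nz F I t) (a : M2) (ha : a ∈ Bt F I t) :
    pz F I t * a = a * pz F I t := ha _ (ad_pz F I h h').2

theorem tr_compl {p : M2} (ht : p.trace = 1) : (1 - p).trace = 1 := by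
  rw [Matrix.trace_sub, ht, Matrix.trace_fin_two]
  simp

theorem cutA_z {t : I → T} (h : ¬ Nz F I t) : Cut (Bt F I t) ⊤ 1 1 (pp 0) := by
  have hall : ∀ y : M2, ∀ i, y * F.P (t i) = F.P (t i) * y := by
    intro y i
    have : F.P (t i) = 0 := by
      by_contra hcon
      exact h ⟨i, hcon⟩
    rw [this, mul_zero, zero_mul]
  exact
  { cB := (Bt F I t).one_mem
    cc := one_mul 1
    cen := fun a _ => by rw [one_mul, mul_one]
    pB := (Bt F I t).one_mem
    pp := one_mul 1
    p0 := one_ne_zero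
    hK := fun r _ => smul_mem_Bt F I (Bt F I t).one_mem r
    hpK := fun a ha => by
      obtain ⟨c, hc⟩ := scalar_of_comm a fun y => ha y (hall y)
      refine ⟨c, trivial, ?_⟩
      rw [one_mul, mul_one, hc, Algebra.algebraMap_eq_smul_one]
    qc := fun a ha => ha _ (hall _)
    tr := by rw [one_mul, pp_trace]
    qcc := one_mul _
    full := ⟨1, (Bt F I t).one_mem, 1, (Bt F I t).one_mem, 0, (Bt F I t).zero_mem, 0,
      (Bt F I t).zero_mem, by rw [one_mul, mul_one, mul_zero, add_zero]⟩ }

theorem eqvB_of_rkA (t : I → T) {m n : ℕ} {e : Matrix (Fin m) (Fin m) M2}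
    {f : Matrix (Fin n) (Fin n) M2} (heB : InB (Bt F I t) e) (hee : e * e = e)
    (hfB : InB (Bt F I t) f) (hff : f * f = f)
    (h1 : ∑ i, (e i i * ua F I t).trace = ∑ i, (f i i * ua F I t).trace)
    (h2 : ∑ i, (e i i * ub F I t).trace = ∑ i, (f i i * ub F I t).trace) :
    EqvB (Bt F I t) e f := by
  by_cases h : Nc F I t
  · have hq : ua F I t = 1 := by unfold ua; rw [if_pos h]
    rw [hq] at h1
    have := EqvB.of_cut (cutA_nc F I h) heB hee hfB hff h1
    rwa [Matrix.diagonal_one, Matrix.one_mul, Matrix.diagonal_one, Matrix.one_mul] at this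
  · by_cases h' : Nz F I t
    · have hq : ua F I t = pz F I t := by unfold ua; rw [if_neg h, if_pos h']
      have hq' : ub F I t = 1 - pz F I t := by unfold ub; rw [if_neg h, if_pos h']
      rw [hq] at h1
      rw [hq'] at h2
      obtain ⟨hpp, -⟩ := ad_pz F I h h'
      have ht : (pz F I t).trace = 1 := by
        obtain ⟨i, hi, ht⟩ := pz_spec F I h'
        rw [hi, ht]
      have hm := pz_mem F I h'
      have hm' := (Bt F I t).sub_mem (Bt F I t).one_mem hm
      have hc := pz_cen F I h h'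
      have hc' : ∀ a ∈ Bt F I t, (1 - pz F I t) * a = a * (1 - pz F I t) := by
        intro a ha
        rw [sub_mul, mul_sub, hc a ha, one_mul, mul_one]
      exact EqvB.join hm hm' (by abel) (by rw [mul_sub, mul_one, hpp, sub_self])
        (by rw [sub_mul, one_mul, hpp, sub_self]) hc hc'
        (EqvB.of_cut (cut_rank_one hpp ht hm (smul_mem_Bt F I hm) hc) heB hee hfB hff h1)
        (EqvB.of_cut (cut_rank_one (compl_idem hpp) (tr_compl ht) hm' (smul_mem_Bt F I hm') hc')
          heB hee hfB hff h2)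
    · have hq : ua F I t = pp 0 := by unfold ua; rw [if_neg h, if_neg h']
      rw [hq] at h1
      have := EqvB.of_cut (cutA_z F I h') heB hee hfB hff h1
      rwa [Matrix.diagonal_one, Matrix.one_mul, Matrix.diagonal_one, Matrix.one_mul] at this

/-! ### sections -/

/-- a constant on a clopen set on which it is allowed, and zero elsewhere -/
noncomputable def csec (V : Set (I → T)) (hV : IsClopen V) (x : M2)
    (hx : ∀ t ∈ V, Good F I t x) : Alg F I :=
  ⟨⟨fun t => open Classical in if t ∈ V then x else 0, by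
    classical
    have h : IsLocallyConstant (fun t => t ∈ V) := by
      rw [IsLocallyConstant.iff_eventually_eq]
      intro t
      by_cases ht : t ∈ V
      · filter_upwards [hV.isOpen.mem_nhds ht] with y hy
        exact propext ⟨fun _ => ht, fun _ => hy⟩
      · filter_upwards [hV.compl.isOpen.mem_nhds ht] with y hy
        exact propext ⟨fun h => absurd h hy, fun h => absurd h ht⟩
    exact (h.comp (fun P : Prop => if P then x else 0)).continuous⟩, by
    intro t
    classical
    show Good F I t (if t ∈ V then x else 0)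
    by_cases ht : t ∈ V
    · rw [if_pos ht]
      exact hx t ht
    · rw [if_neg ht]
      intro y _
      rw [mul_zero, zero_mul]⟩

theorem csec_pos {V : Set (I → T)} (hV : IsClopen V) {x : M2} (hx : ∀ t ∈ V, Good F I t x)
    {t : I → T} (ht : t ∈ V) : (csec F I V hV x hx).1 t = x := if_pos ht

theorem csec_neg {V : Set (I → T)} (hV : IsClopen V) {x : M2} (hx : ∀ t ∈ V, Good F I t x)
    {t : I → T} (ht : t ∉ V) : (csec F I V hV x hx).1 t = 0 := if_neg ht

theorem good_one (t : I → T) : Good F I t 1 := fun y _ => by rw [mul_one, one_mul]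

theorem exists_clopen {O : Set (I → T)} (hO : IsOpen O) {t : I → T} (ht : t ∈ O) :
    ∃ V : Set (I → T), IsClopen V ∧ t ∈ V ∧ V ⊆ O := by
  obtain ⟨V, hV, htV, hVO⟩ := compact_exists_isClopen_in_isOpen hO ht
  exact ⟨V, hV, htV, hVO⟩

theorem nc_open {t : I → T} (h : Nc F I t) : ∃ V : Set (I → T), IsClopen V ∧ t ∈ V ∧
    ∀ t' ∈ V, ∀ x, Good F I t' x := by
  obtain ⟨i, j, hij⟩ := h
  have hP := F.cont
  have hO : IsOpen {t : I → T | F.P (t i) * F.P (t j) ≠ F.P (t j) * F.P (t i)} := by
    apply isOpen_ne_fun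
    · exact (hP.comp (continuous_apply i)).mul (hP.comp (continuous_apply j))
    · exact (hP.comp (continuous_apply j)).mul (hP.comp (continuous_apply i))
  obtain ⟨V, hV, htV, hVO⟩ := exists_clopen I hO (t := t) hij
  exact ⟨V, hV, htV, fun t' ht' x => good_noncomm F I t' i j (hVO ht') x⟩

theorem liftA (t : I → T) (a : M2) (ha : a ∈ Bt F I t) : ∃ f : Alg F I, f.1 t = a := by
  by_cases h : Nc F I t
  · obtain ⟨V, hV, htV, hg⟩ := nc_open F I h
    exact ⟨csec F I V hV a (fun t' ht' => hg t' ht' a), csec_pos F I hV _ htV⟩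
  · by_cases h' : Nz F I t
    · obtain ⟨i, hi, ht⟩ := pz_spec F I h'
      have hcom : F.P (t i) * a = a * F.P (t i) := by
        have := pz_cen F I h h' a ha
        rwa [hi] at this
      obtain ⟨α, β, hab⟩ := comm_span (F.P (t i)) a (fun c => F.not_scalar (t i) ht c) hcom
      refine ⟨algebraMap ℂ (Alg F I) α + β • pr F I i, ?_⟩
      rw [hab]
      rfl
    · have hall : ∀ y : M2, ∀ i, y * F.P (t i) = F.P (t i) * y := by
        intro y i
        have : F.P (t i) = 0 := by
          by_contra hcon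
          exact h' ⟨i, hcon⟩
        rw [this, mul_zero, zero_mul]
      obtain ⟨c, hc⟩ := scalar_of_comm a fun y => ha y (hall y)
      refine ⟨algebraMap ℂ (Alg F I) c, ?_⟩
      rw [hc]
      rfl

/-- multiplication by an indicator function -/
noncomputable def cutF (U : Set (I → T)) (hU : IsClopen U) : Alg F I →ₙ+* Alg F I where
  toFun f := csec F I U hU 1 (fun t _ => good_one F I t) * f
  map_mul' f g := by
    apply Subtype.ext
    ext1 t
    show (csec F I U hU 1 (fun t _ => good_one F I t)).1 t * (f.1 t * g.1 t) =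
      (csec F I U hU 1 (fun t _ => good_one F I t)).1 t * f.1 t *
        ((csec F I U hU 1 (fun t _ => good_one F I t)).1 t * g.1 t)
    by_cases ht : t ∈ U
    · rw [csec_pos F I hU _ ht, one_mul, one_mul, one_mul]
    · rw [csec_neg F I hU _ ht, zero_mul, zero_mul, zero_mul]
  map_zero' := mul_zero _
  map_add' f g := mul_add _ _ _

theorem cutF_pos {U : Set (I → T)} (hU : IsClopen U) (f : Alg F I) {t : I → T} (ht : t ∈ U) :
    (cutF F I U hU f).1 t = f.1 t := by
  show (csec F I U hU 1 (fun t _ => good_one F I t)).1 t * f.1 t = f.1 t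
  rw [csec_pos F I hU _ ht, one_mul]

theorem cutF_neg {U : Set (I → T)} (hU : IsClopen U) (f : Alg F I) {t : I → T} (ht : t ∉ U) :
    (cutF F I U hU f).1 t = 0 := by
  show (csec F I U hU 1 (fun t _ => good_one F I t)).1 t * f.1 t = 0
  rw [csec_neg F I hU _ ht, zero_mul]

/-- the restriction map -/
noncomputable def resF (U : Set (I → T)) : VV (Alg F I) →+ VV (Alg F I) :=
  open Classical in if hU : IsClopen U then VVmap (cutF F I U hU) else 0

theorem resF_cm {U : Set (I → T)} (hU : IsClopen U) {n : ℕ}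
    {e : Matrix (Fin n) (Fin n) (Alg F I)} (he : e * e = e) :
    resF F I U (cm he) = cm (map_idem (cutF F I U hU) he) := by
  unfold resF
  rw [dif_pos hU]
  rfl

/-- the evaluation in the simplicial monoid -/
noncomputable def evF (t : I → T) : VV (Alg F I) →+ ℕ × ℕ :=
  (rkA F I t (ua F I t)).prod (rkA F I t (ub F I t))

theorem balgF : BAlg (I → T) {U | IsClopen U} where
  clopen _ hU := hU
  univ := isClopen_univ
  inter _ hU _ hW := IsClopen.inter hU hW
  compl _ hU := IsClopen.compl hU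

theorem small_pt {n : ℕ} (Z : Matrix (Fin n) (Fin n) (Alg F I)) (t : I → T)
    (hZ : ∀ i j, (Z i j).1 t = 0) (δ : ℝ) (hδ : 0 < δ) : ∃ O : Set (I → T), IsOpen O ∧ t ∈ O ∧
      ∀ (U : Set (I → T)) (hU : IsClopen U), U ⊆ O → ∀ i j, ‖cutF F I U hU (Z i j)‖ ≤ δ := by
  refine ⟨⋂ i, ⋂ j, {t' | ‖(Z i j).1 t'‖ < δ}, ?_, ?_, ?_⟩
  · refine isOpen_iInter_of_finite fun i => isOpen_iInter_of_finite fun j => ?_
    exact isOpen_lt ((Z i j).1.continuous.norm) continuous_const
  · simp only [Set.mem_iInter]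
    intro i j
    show ‖(Z i j).1 t‖ < δ
    rw [hZ, norm_zero]
    exact hδ
  · intro U hU hUO i j
    show ‖((cutF F I U hU (Z i j) : Alg F I) : C(I → T, M2))‖ ≤ _
    rw [ContinuousMap.norm_le _ hδ.le]
    intro t'
    by_cases ht' : t' ∈ U
    · have h2 := hUO ht'
      simp only [Set.mem_iInter] at h2
      have h3 : (cutF F I U hU (Z i j)).1 t' = (Z i j).1 t' := cutF_pos F I hU _ ht'
      have h4 : ‖(Z i j).1 t'‖ < δ := h2 i j
      rw [h3]
      exact h4.le
    · have h3 : (cutF F I U hU (Z i j)).1 t' = 0 := cutF_neg F I hU _ ht'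
      rw [h3, norm_zero]
      exact hδ.le

end

section
attribute [local instance] Matrix.linftyOpNormedRing

theorem small_unit {B : Type} [CStarAlgebra B] {n : ℕ} (D : Matrix (Fin n) (Fin n) B)
    (h : ∀ i j, ‖D i j‖ ≤ 1 / (n + 1)) : IsUnit (1 + D) := by
  have hδ : (0 : ℝ) < 1 / (n + 1) := by positivity
  have h1 : ∀ i j, ‖(-D) i j‖ ≤ 1 / (n + 1) := by
    intro i j
    rw [Matrix.neg_apply, norm_neg]
    exact h i j
  have h2 := mat_norm (-D) (1 / (n + 1)) hδ.le h1
  have h3 : ‖-D‖ < 1 := by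
    refine lt_of_le_of_lt h2 ?_
    rw [mul_one_div, div_lt_one (by positivity)]
    linarith
  have h4 := mat_unit _ h3
  rwa [sub_neg_eq_add] at h4

end

section
variable (F : Fam) (I : Type)

/-- evaluation as a homomorphism -/
noncomputable def evA0 (t : I → T) : Alg F I →ₙ+* M2 where
  toFun f := f.1 t
  map_mul' _ _ := rfl
  map_zero' := rfl
  map_add' _ _ := rfl

theorem cutF_comm {U : Set (I → T)} (hU : IsClopen U) (f g : Alg F I) :
    cutF F I U hU f * g = f * cutF F I U hU g := by
  apply Subtype.ext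
  ext1 t
  show (cutF F I U hU f).1 t * g.1 t = f.1 t * (cutF F I U hU g).1 t
  by_cases ht : t ∈ U
  · rw [cutF_pos F I hU _ ht, cutF_pos F I hU _ ht]
  · rw [cutF_neg F I hU _ ht, cutF_neg F I hU _ ht, zero_mul, mul_zero]

theorem cutF_cut {U : Set (I → T)} (hU : IsClopen U) (f : Alg F I) :
    cutF F I U hU (cutF F I U hU f) = cutF F I U hU f := by
  apply Subtype.ext
  ext1 t
  show (cutF F I U hU (cutF F I U hU f)).1 t = (cutF F I U hU f).1 t
  by_cases ht : t ∈ U
  · rw [cutF_pos F I hU _ ht]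
  · rw [cutF_neg F I hU _ ht, cutF_neg F I hU _ ht]

theorem loc_eqv (t : I → T) {m n : ℕ} {e : Matrix (Fin m) (Fin m) (Alg F I)}
    {f : Matrix (Fin n) (Fin n) (Alg F I)} (he : e * e = e) (hf : f * f = f)
    (h : EqvB (Bt F I t) (e.map (evA0 F I t)) (f.map (evA0 F I t))) :
    ∃ (U : Set (I → T)) (hU : IsClopen U), t ∈ U ∧
      Eqv (e.map (cutF F I U hU)) (f.map (cutF F I U hU)) := by
  obtain ⟨X, Y, hX, hY, hXY, hYX⟩ := h
  choose Xl hXl using fun i j => liftA F I t (X i j) (hX i j)
  choose Yl hYl using fun i j => liftA F I t (Y i j) (hY i j)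
  have hmap : (Matrix.of Xl).map (evA0 F I t) = X := by
    ext1 i j; exact hXl i j
  have hmap' : (Matrix.of Yl).map (evA0 F I t) = Y := by
    ext1 i j; exact hYl i j
  obtain ⟨X1, hX1⟩ : ∃ X1, X1 = e * Matrix.of Xl * f := ⟨_, rfl⟩
  obtain ⟨Y1, hY1⟩ : ∃ Y1, Y1 = f * Matrix.of Yl * e := ⟨_, rfl⟩
  have eX : e * X1 = X1 := by rw [hX1, ← Matrix.mul_assoc, ← Matrix.mul_assoc, he]
  have Xf : X1 * f = X1 := by rw [hX1, Matrix.mul_assoc, hf]
  have fY : f * Y1 = Y1 := by rw [hY1, ← Matrix.mul_assoc, ← Matrix.mul_assoc, hf]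
  have Ye : Y1 * e = Y1 := by rw [hY1, Matrix.mul_assoc, he]
  have hXe : X = e.map (evA0 F I t) * X * f.map (evA0 F I t) ∨ True := Or.inr trivial
  obtain ⟨Z, hZ⟩ : ∃ Z, Z = X1 * Y1 - e := ⟨_, rfl⟩
  obtain ⟨W, hW⟩ : ∃ W, W = Y1 * X1 - f := ⟨_, rfl⟩
  have het := map_idem (evA0 F I t) he
  have hft := map_idem (evA0 F I t) hf
  have hX1t : X1.map (evA0 F I t) = X * Y * X * Y * X := by
    rw [hX1, Matrix.map_mul, Matrix.map_mul, hmap, ← hXY, ← hYX]
    simp only [Matrix.mul_assoc]
  have hY1t : Y1.map (evA0 F I t) = Y * X * Y * X * Y := by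
    rw [hY1, Matrix.map_mul, Matrix.map_mul, hmap', ← hXY, ← hYX]
    simp only [Matrix.mul_assoc]
  have hXYXY : X * Y * (X * Y) = X * Y := by rw [hXY, het]
  have hYXYX : Y * X * (Y * X) = Y * X := by rw [hYX, hft]
  have hZt : ∀ i j, (Z i j).1 t = 0 := by
    intro i j
    have h1 : (X1 * Y1).map (evA0 F I t) = e.map (evA0 F I t) := by
      rw [Matrix.map_mul, hX1t, hY1t, ← hXY]
      calc X * Y * X * Y * X * (Y * X * Y * X * Y) =
          (X * Y * (X * Y)) * (X * Y * (X * Y)) * (X * Y) := by simp only [Matrix.mul_assoc]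
        _ = X * Y := by rw [hXYXY, hXYXY, hXYXY]
    have h2 := congrFun (congrFun h1 i) j
    have h3 : ((X1 * Y1) i j).1 t = (e i j).1 t := h2
    rw [hZ]
    show ((X1 * Y1) i j).1 t - (e i j).1 t = 0
    rw [h3, sub_self]
  have hWt : ∀ i j, (W i j).1 t = 0 := by
    intro i j
    have h1 : (Y1 * X1).map (evA0 F I t) = f.map (evA0 F I t) := by
      rw [Matrix.map_mul, hX1t, hY1t, ← hYX]
      calc Y * X * Y * X * Y * (X * Y * X * Y * X) =
          (Y * X * (Y * X)) * (Y * X * (Y * X)) * (Y * X) := by simp only [Matrix.mul_assoc]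
        _ = Y * X := by rw [hYXYX, hYXYX, hYXYX]
    have h2 := congrFun (congrFun h1 i) j
    have h3 : ((Y1 * X1) i j).1 t = (f i j).1 t := h2
    rw [hW]
    show ((Y1 * X1) i j).1 t - (f i j).1 t = 0
    rw [h3, sub_self]
  obtain ⟨O1, hO1, ht1, hs1⟩ := small_pt F I Z t hZt (1 / (m + 1)) (by positivity)
  obtain ⟨O2, hO2, ht2, hs2⟩ := small_pt F I W t hWt (1 / (n + 1)) (by positivity)
  obtain ⟨U, hU, htU, hUO⟩ := exists_clopen I (hO1.inter hO2) (t := t) ⟨ht1, ht2⟩
  refine ⟨U, hU, htU, ?_⟩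
  have hv := small_unit (Z.map (cutF F I U hU)) (hs1 U hU fun x hx => (hUO hx).1)
  have hw := small_unit (W.map (cutF F I U hU)) (hs2 U hU fun x hx => (hUO hx).2)
  have hcc : ∀ {a b c : ℕ} (M : Matrix (Fin a) (Fin b) (Alg F I))
      (N : Matrix (Fin b) (Fin c) (Alg F I)),
      M.map (cutF F I U hU) * N = (M * N).map (cutF F I U hU) := by
    intro a b c M N
    ext1 i j
    rw [Matrix.mul_apply, Matrix.map_apply, Matrix.mul_apply, map_sum]
    refine Finset.sum_congr rfl fun k _ => ?_
    show csec F I U hU 1 _ * M i k * N k j = csec F I U hU 1 _ * (M i k * N k j)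
    rw [mul_assoc]
  have hmm : ∀ {a b c : ℕ} (M : Matrix (Fin a) (Fin b) (Alg F I))
      (N : Matrix (Fin b) (Fin c) (Alg F I)),
      M.map (cutF F I U hU) * N.map (cutF F I U hU) = (M * N).map (cutF F I U hU) := by
    intro a b c M N
    rw [Matrix.map_mul]
  have hsub : ∀ {a b : ℕ} (M N : Matrix (Fin a) (Fin b) (Alg F I)),
      (M - N).map (cutF F I U hU) = M.map (cutF F I U hU) - N.map (cutF F I U hU) := by
    intro a b M N
    ext1 i j
    exact map_sub (cutF F I U hU) _ _
  have eZ : e * Z = Z := by rw [hZ, Matrix.mul_sub, ← Matrix.mul_assoc, eX, he]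
  have Ze : Z * e = Z := by rw [hZ, Matrix.sub_mul, Matrix.mul_assoc, Ye, he]
  have fW : f * W = W := by rw [hW, Matrix.mul_sub, ← Matrix.mul_assoc, fY, hf]
  refine eqv_of_units (map_idem _ he) (X1.map (cutF F I U hU)) (Y1.map (cutF F I U hU))
    (by rw [hmm, Xf]) (by rw [hmm, Ye]) _ _ hv hw ?_ ?_ ?_
  · rw [Matrix.mul_add, Matrix.mul_one, hmm, hmm, eZ, hZ, hsub]
    abel
  · rw [Matrix.mul_add, Matrix.add_mul, Matrix.mul_one, Matrix.one_mul, hmm, hmm, eZ, Ze]
  · rw [Matrix.mul_add, Matrix.mul_one, hmm, hmm, fW, hW, hsub]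
    abel

theorem lift_of {t : I → T} {q : M2} {f : Alg F I} (hf : f * f = f) (hq : AdA F I t q) :
    ((rkA F I t q (cm (s1_idem hf)) : ℕ) : ℂ) = (f.1 t * q).trace := by
  rw [rkA_cm F I hq]
  simp [s1]

theorem sheafyF : Sheafy (I → T) {U | IsClopen U} (VV (Alg F I)) (resF F I) (evF F I) where
  balg := balgF I
  res_univ := by
    intro v
    obtain ⟨n, e, he, rfl⟩ := exists_cm v
    have hU : IsClopen (Set.univ : Set (I → T)) := isClopen_univ
    rw [resF_cm F I hU]
    apply cm_congr
    ext1 i j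
    apply Subtype.ext
    ext1 x
    exact cutF_pos F I hU _ (Set.mem_univ x)
  res_empty := by
    intro v
    obtain ⟨n, e, he, rfl⟩ := exists_cm v
    have hU : IsClopen (∅ : Set (I → T)) := isClopen_empty
    rw [resF_cm F I hU]
    have h0 : e.map (cutF F I ∅ hU) = 0 := by
      ext1 i j
      apply Subtype.ext
      ext1 x
      exact cutF_neg F I hU _ (Set.notMem_empty x)
    have h1 : (0 : Matrix (Fin n) (Fin n) (Alg F I)) * 0 = 0 := by rw [Matrix.zero_mul]
    rw [← cm_zero h1]
    exact cm_congr _ _ h0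
  res_res := by
    intro U hU W hW v
    obtain ⟨n, e, he, rfl⟩ := exists_cm v
    have hU : IsClopen U := hU
    have hW : IsClopen W := hW
    have hUW : IsClopen (U ∩ W) := hU.inter hW
    rw [resF_cm F I hW, resF_cm F I hU, resF_cm F I hUW]
    apply cm_congr
    ext1 i j
    apply Subtype.ext
    ext1 x
    show (cutF F I U hU (cutF F I W hW (e i j))).1 x = (cutF F I (U ∩ W) hUW (e i j)).1 x
    by_cases h1 : x ∈ U
    · rw [cutF_pos F I hU _ h1]
      by_cases h2 : x ∈ W
      · rw [cutF_pos F I hW _ h2, cutF_pos F I hUW _ ⟨h1, h2⟩]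
      · rw [cutF_neg F I hW _ h2, cutF_neg F I hUW _ fun h => h2 h.2]
    · rw [cutF_neg F I hU _ h1, cutF_neg F I hUW _ fun h => h1 h.1]
  res_compl := by
    intro U hU v
    obtain ⟨n, e, he, rfl⟩ := exists_cm v
    have hU : IsClopen U := hU
    have hU' := hU.compl
    rw [resF_cm F I hU, resF_cm F I hU']
    have hz : ∀ a b : Alg F I, cutF F I U hU a * cutF F I Uᶜ hU' b = 0 := by
      intro a b
      apply Subtype.ext
      ext1 x
      show (cutF F I U hU a).1 x * (cutF F I Uᶜ hU' b).1 x = 0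
      by_cases hx : x ∈ U
      · rw [cutF_neg F I hU' b (fun h => h hx), mul_zero]
      · rw [cutF_neg F I hU a hx, zero_mul]
    have hz' : ∀ a b : Alg F I, cutF F I Uᶜ hU' a * cutF F I U hU b = 0 := by
      intro a b
      apply Subtype.ext
      ext1 x
      show (cutF F I Uᶜ hU' a).1 x * (cutF F I U hU b).1 x = 0
      by_cases hx : x ∈ U
      · rw [cutF_neg F I hU' a (fun h => h hx), zero_mul]
      · rw [cutF_neg F I hU b hx, mul_zero]
    have h1 : e.map (cutF F I U hU) * e.map (cutF F I Uᶜ hU') = 0 := by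
      ext1 i j
      rw [Matrix.mul_apply]
      exact Finset.sum_eq_zero fun k _ => hz _ _
    have h2 : e.map (cutF F I Uᶜ hU') * e.map (cutF F I U hU) = 0 := by
      ext1 i j
      rw [Matrix.mul_apply]
      exact Finset.sum_eq_zero fun k _ => hz' _ _
    rw [cm_orth (map_idem _ he) (map_idem _ he) h1 h2]
    apply cm_congr
    ext1 i j
    apply Subtype.ext
    ext1 x
    show (cutF F I U hU (e i j)).1 x + (cutF F I Uᶜ hU' (e i j)).1 x = (e i j).1 x
    by_cases hx : x ∈ U
    · rw [cutF_pos F I hU _ hx, cutF_neg F I hU' _ (fun h => h hx), add_zero]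
    · rw [cutF_neg F I hU _ hx, cutF_pos F I hU' _ hx, zero_add]
  loc := by
    intro x v w h
    obtain ⟨m, e, he, rfl⟩ := exists_cm v
    obtain ⟨n, f, hf, rfl⟩ := exists_cm w
    have ha : rkA F I x (ua F I x) (cm he) = rkA F I x (ua F I x) (cm hf) := congrArg Prod.fst h
    have hb : rkA F I x (ub F I x) (cm he) = rkA F I x (ub F I x) (cm hf) := congrArg Prod.snd h
    have ha' : ((rkA F I x (ua F I x) (cm he) : ℕ) : ℂ) =
        ((rkA F I x (ua F I x) (cm hf) : ℕ) : ℂ) := by rw [ha]
    have hb' : ((rkA F I x (ub F I x) (cm he) : ℕ) : ℂ) =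
        ((rkA F I x (ub F I x) (cm hf) : ℕ) : ℂ) := by rw [hb]
    rw [rkA_cm F I (ad_ua F I x), rkA_cm F I (ad_ua F I x)] at ha'
    rw [rkA_cm F I (ad_ub F I x), rkA_cm F I (ad_ub F I x)] at hb'
    obtain ⟨U, hU, hxU, hE⟩ := loc_eqv F I x he hf
      (eqvB_of_rkA F I x (fun i j => (e i j).2 x) (map_idem _ he) (fun i j => (f i j).2 x)
        (map_idem _ hf) ha' hb')
    refine ⟨U, hU, hxU, ?_⟩
    rw [resF_cm F I hU, resF_cm F I hU, cm_eq]
    exact hE
  lift := by
    intro x v t ht
    have key : (∃ w, evF F I x w = (1, 0)) ∧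
        ((∀ v, (evF F I x v).2 = 0) ∨ ∃ w, evF F I x w = (0, 1)) := by
      by_cases h : Nc F I x
      · have hq : ua F I x = 1 := by unfold ua; rw [if_pos h]
        have hq' : ub F I x = 0 := by unfold ub; rw [if_pos h]
        obtain ⟨V, hV, hxV, hg⟩ := nc_open F I h
        have hi : csec F I V hV (pp 0) (fun t' ht' => hg t' ht' _) *
            csec F I V hV (pp 0) (fun t' ht' => hg t' ht' _) =
            csec F I V hV (pp 0) (fun t' ht' => hg t' ht' _) := by
          apply Subtype.ext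
          ext1 y
          show (csec F I V hV (pp 0) _).1 y * (csec F I V hV (pp 0) _).1 y =
            (csec F I V hV (pp 0) _).1 y
          by_cases hy : y ∈ V
          · rw [csec_pos F I hV _ hy, pp_idem]
          · rw [csec_neg F I hV _ hy, mul_zero]
        have h1 := lift_of F I hi (ad_one F I x)
        rw [mul_one, csec_pos F I hV _ hxV, pp_trace] at h1
        have h2 : rkA F I x 1 (cm (s1_idem hi)) = 1 := by exact_mod_cast h1
        refine ⟨⟨cm (s1_idem hi), ?_⟩, Or.inl fun v => ?_⟩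
        · show (rkA F I x (ua F I x) _, rkA F I x (ub F I x) _) = (1, 0)
          rw [hq, hq', h2, rkA_zero]
        · show rkA F I x (ub F I x) v = 0
          rw [hq', rkA_zero]
      · by_cases h' : Nz F I x
        · have hq : ua F I x = pz F I x := by unfold ua; rw [if_neg h, if_pos h']
          have hq' : ub F I x = 1 - pz F I x := by unfold ub; rw [if_neg h, if_pos h']
          have hap := ad_pz F I h h'
          obtain ⟨i, hi, htr⟩ := pz_spec F I h'
          have h1 := lift_of F I (pr_idem F I i) hap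
          have h2 := lift_of F I (pr_idem F I i) (ad_compl F I hap)
          have h3 := lift_of F I (one_sub_idem (pr_idem F I i)) hap
          have h4 := lift_of F I (one_sub_idem (pr_idem F I i)) (ad_compl F I hap)
          have e1 : (pr F I i).1 x = pz F I x := hi.symm
          have e2 : (1 - pr F I i).1 x = 1 - pz F I x := by rw [hi]; rfl
          have htr' : (pz F I x).trace = 1 := by rw [hi, htr]
          rw [e1, hap.1, htr'] at h1
          rw [e1, mul_sub, mul_one, hap.1, sub_self, Matrix.trace_zero] at h2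
          rw [e2, sub_mul, one_mul, hap.1, sub_self, Matrix.trace_zero] at h3
          rw [e2, (ad_compl F I hap).1, tr_compl htr'] at h4
          have k1 : rkA F I x (pz F I x) (cm (s1_idem (pr_idem F I i))) = 1 := by
            exact_mod_cast h1
          have k2 : rkA F I x (1 - pz F I x) (cm (s1_idem (pr_idem F I i))) = 0 := by
            exact_mod_cast h2
          have k3 : rkA F I x (pz F I x) (cm (s1_idem (one_sub_idem (pr_idem F I i)))) = 0 := by
            exact_mod_cast h3
          have k4 : rkA F I x (1 - pz F I x)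
              (cm (s1_idem (one_sub_idem (pr_idem F I i)))) = 1 := by
            exact_mod_cast h4
          refine ⟨⟨cm (s1_idem (pr_idem F I i)), ?_⟩,
            Or.inr ⟨cm (s1_idem (one_sub_idem (pr_idem F I i))), ?_⟩⟩
          · show (rkA F I x (ua F I x) _, rkA F I x (ub F I x) _) = (1, 0)
            rw [hq, hq', k1, k2]
          · show (rkA F I x (ua F I x) _, rkA F I x (ub F I x) _) = (0, 1)
            rw [hq, hq', k3, k4]
        · have hq : ua F I x = pp 0 := by unfold ua; rw [if_neg h, if_neg h']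
          have hq' : ub F I x = 0 := by unfold ub; rw [if_neg h, if_neg h']
          have h1 := lift_of F I (f := (1 : Alg F I)) (one_mul 1) (ad_pp F I h')
          have e1 : (1 : Alg F I).1 x = 1 := rfl
          rw [e1, one_mul, pp_trace] at h1
          have h2 : rkA F I x (pp 0) (cm (s1_idem (one_mul (1 : Alg F I)))) = 1 := by
            exact_mod_cast h1
          refine ⟨⟨cm (s1_idem (one_mul (1 : Alg F I))), ?_⟩, Or.inl fun v => ?_⟩
          · show (rkA F I x (ua F I x) _, rkA F I x (ub F I x) _) = (1, 0)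
            rw [hq, hq', h2, rkA_zero]
          · show rkA F I x (ub F I x) v = 0
            rw [hq', rkA_zero]
    obtain ⟨⟨w, hw⟩, h2⟩ := key
    rcases h2 with h2 | ⟨w', hw'⟩
    · refine ⟨t.1 • w, ?_⟩
      rw [map_nsmul, hw]
      have : t.2 = 0 := by
        have := ht.2
        rw [h2 v] at this
        exact Nat.le_zero.1 this
      apply Prod.ext
      · simp
      · simp [this]
    · refine ⟨t.1 • w + t.2 • w', ?_⟩
      rw [map_add, map_nsmul, map_nsmul, hw, hw']
      apply Prod.ext <;> simp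

end

end Pool.Agent.H413.NK
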