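import Pool.Agent.H413.NK.Fr

set_option autoImplicit false

/-!
Closeness of the symmetries and scalar values.
-/

namespace Pool.Agent.H413.NK

open Pool.Agent.Y78.NK Pool.Agent.H494R3.NK

universe u

variable {I : Type} {A : Type u} [NonUnitalCStarAlgebra A] {P : Pat I (VV A)}

theorem pair_small (hA : RealRankZero A) (L : Loc P) {e f : A} (he : e * e = e) (hf : f * f = f)
    (hem : L.mem e) (hfm : L.mem f) {W : Set (Xs I)} (hW : W ∈ BB I) (k : Fin 3)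
    (h : ∀ x, Tsub x k → x ∈ W → P.a k x (kl e) = 0 ∨ P.a k x (kl f) = 0) (ε : ℝ) (hε : 0 < ε) :
    ∃ K : Finset (Fin 3 × I), (∀ p ∈ K, p.1 ≠ k) ∧ ∀ V ∈ BB I, V ⊆ W →
      (∀ x ∈ V, ∀ p ∈ K, x p = 0) → ‖e * f * L.c V‖ ≤ ε := by
  classical
  obtain ⟨g, y, hgg, hgs, hgy, hgn⟩ := hp hA (e * f * L.c W) ε hε
  have hz : L.mem (e * f * L.c W) := L.mem_mul (L.mem_mul hem hfm) (L.mem_c hW)
  have hgm : L.mem g := by
    have h1 : L.E * g = g := by rw [hgy, ← mul_assoc, hz.1]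
    refine ⟨h1, ?_⟩
    have := congrArg star h1
    rwa [star_mul, hgs, L.Es] at this
  have h1 : LeA (kl g) (kl e) := kl_sub hgg he (by
    rw [hgy, ← mul_assoc, ← mul_assoc, ← mul_assoc, he])
  have h2 : LeA (kl g) (kl f) := kl_dom hgg hf (y := e) (z := L.c W * y) (by
    rw [hgy]; simp only [mul_assoc])
  have h3 : LeA (kl g) (kl (L.c W)) := kl_sub hgg (L.cc W hW) (by
    rw [hgy, ← mul_assoc, L.cen hA hW hz, mul_assoc (e * f), L.cc W hW])
  have ha : ∀ x, Tsub x k → P.a k x (kl g) = 0 := by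
    intro x hx
    by_cases hxW : x ∈ W
    · have k1 := P.a_mono h1 k x
      have k2 := P.a_mono h2 k x
      rcases h x hx hxW with h | h <;> omega
    · have k1 := P.a_le hx (kl g)
      have k2 := P.r_mono h3 x
      have k3 : P.r x (kl (L.c W)) = 0 := L.rr_c' hW hxW
      omega
  have hr : ∀ x, Tsub x k → P.r x (kl g) = 0 := by
    intro x hx
    have hx' : Tsub (flp k x) k := fun l hl i => by rw [flp_ne hl]; exact hx l hl i
    rw [P.split k x _ hx, ha x hx, ha _ hx']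
  obtain ⟨F, hF⟩ := P.dep (kl g)
  refine ⟨F.filter (fun p => p.1 ≠ k), fun p hp => (Finset.mem_filter.1 hp).2, ?_⟩
  intro V hV hVW hVK
  have hi := L.c_mul_idem hA hV hgg hgm
  have h0 : g * L.c V = 0 := by
    apply rr_zero_imp P hi
    intro x
    by_cases hx : x ∈ V
    · rw [L.rr_cut hA hV hgg hgm hx]
      show P.r x (kl g) = 0
      rw [hF x (fun p => if p.1 = k then x p else 0) (by
        intro p hp
        by_cases hpk : p.1 = k
        · simp only [if_pos hpk]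
        · simp only [if_neg hpk]
          exact hVK x hx p (Finset.mem_filter.2 ⟨hp, hpk⟩))]
      apply hr
      intro l hl i
      simp only [if_neg hl]
    · exact L.rr_cut' hV hi hx
  have hWV : L.c W * L.c V = L.c V := by
    rw [L.c_inter hA hW hV, Set.inter_eq_right.2 hVW]
  have h4 : e * f * L.c V = (e * f * L.c W - g * (e * f * L.c W)) * L.c V := by
    have e1 : g * (e * f * L.c W) * L.c V = 0 := by
      rw [mul_assoc, ← L.cen hA hV hz, ← mul_assoc, h0, zero_mul]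
    rw [sub_mul, e1, sub_zero, mul_assoc (e * f), hWV]
  rw [h4]
  exact (L.norm_mul_c hV _).trans hgn

theorem two_mem (k : Fin 3) (i j : I) (R : SignType → SignType → Prop)
    (hR : ∀ a b, R (-a) (-b) ↔ R a b) : {x : Xs I | R (x (k, i)) (x (k, j))} ∈ BB I := by
  classical
  refine ⟨dep_clopen _ {(k, i), (k, j)} ?_, fun l x => ?_⟩
  · intro x y hxy hx
    show R (y (k, i)) (y (k, j))
    rw [← hxy (k, i) (by simp), ← hxy (k, j) (by simp)]
    exact hx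
  · show R (flp l x (k, i)) (flp l x (k, j)) ↔ R (x (k, i)) (x (k, j))
    by_cases hl : k = l
    · subst hl
      rw [flp_same, flp_same]
      exact hR _ _
    · rw [flp_ne hl, flp_ne hl]

namespace Gens

variable {L : Loc P} (G : Gens L)

theorem a_p {k : Fin 3} {i : I} {x : Xs I} (hx : Tsub x k) (h : x (k, i) = -1) :
    P.a k x (kl (G.p k i)) = 0 := by
  rw [G.kp]
  by_cases hN : x ∈ L.N
  · rw [P.a_res _ L.NB k x _ hx hN, P.a_al' k i x hx h]
  · rw [P.a_res' _ L.NB k x _ hx hN]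

theorem a_q {k : Fin 3} {i : I} {x : Xs I} (hx : Tsub x k) (h : x (k, i) = 1) :
    P.a k x (kl (G.q k i)) = 0 := by
  rw [G.kq]
  by_cases hN : x ∈ L.N
  · rw [P.a_res _ L.NB k x _ hx hN, P.a_be' k i x hx h]
  · rw [P.a_res' _ L.NB k x _ hx hN]

/-- the symmetries -/
def s (k : Fin 3) (i : I) : A := G.p k i - G.q k i

theorem sm (k : Fin 3) (i : I) : L.mem (G.s k i) := L.mem_sub (G.pm k i) (G.qm k i)

theorem s_sq (k : Fin 3) (i : I) : G.s k i * G.s k i = L.c (Us k i) := by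
  unfold s
  rw [mul_sub, sub_mul, sub_mul, G.pp, G.qq, G.pq, G.qp, sub_zero, zero_sub, sub_neg_eq_add, G.add]

theorem s_star (k : Fin 3) (i : I) : star (G.s k i) = G.s k i := by
  unfold s
  rw [star_sub, G.ps, G.qs]

theorem s_norm (k : Fin 3) (i : I) : ‖G.s k i‖ ≤ 1 := by
  have h1 : ‖G.s k i‖ * ‖G.s k i‖ ≤ 1 := by
    rw [← CStarRing.norm_star_mul_self, G.s_star, G.s_sq]
    exact L.norm_c (Us_mem k i)
  by_contra hcon
  push Not at hcon
  nlinarith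

theorem sgn_cases (s : SignType) (h : s ≠ 0) : s = 1 ∨ s = -1 := by
  revert s; decide

theorem pc (hA : RealRankZero A) {k : Fin 3} {i : I} {V : Set (Xs I)} (hV : V ∈ BB I)
    (h : ∀ x ∈ V, x (k, i) ≠ 0) : (G.p k i + G.q k i) * L.c V = L.c V := by
  rw [G.add, L.c_inter hA (Us_mem k i) hV]
  congr 1
  ext x
  exact ⟨fun hx => hx.2, fun hx => ⟨h x hx, hx⟩⟩

theorem close_pos (hA : RealRankZero A) (k : Fin 3) (i j : I) (ε : ℝ) (hε : 0 < ε) :
    ∃ K : Finset (Fin 3 × I), (∀ p ∈ K, p.1 ≠ k) ∧ ∀ V ∈ BB I,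
      (∀ x ∈ V, x (k, i) ≠ 0 ∧ x (k, i) = x (k, j)) → (∀ x ∈ V, ∀ p ∈ K, x p = 0) →
        ‖(G.s k i - G.s k j) * L.c V‖ ≤ 4 * ε := by
  classical
  have hW : {x : Xs I | x (k, i) ≠ 0 ∧ x (k, i) = x (k, j)} ∈ BB I :=
    two_mem k i j (fun a b => a ≠ 0 ∧ a = b) (by decide)
  obtain ⟨K₁, hK₁, h₁⟩ := pair_small hA L (G.pp k i) (G.qq k j) (G.pm k i) (G.qm k j) hW k (by
    rintro x hx ⟨hx1, hx2⟩
    rcases sgn_cases _ hx1 with h | h
    · exact Or.inr (G.a_q hx (by rw [← hx2, h]))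
    · exact Or.inl (G.a_p hx h)) ε hε
  obtain ⟨K₂, hK₂, h₂⟩ := pair_small hA L (G.qq k i) (G.pp k j) (G.qm k i) (G.pm k j) hW k (by
    rintro x hx ⟨hx1, hx2⟩
    rcases sgn_cases _ hx1 with h | h
    · exact Or.inl (G.a_q hx h)
    · exact Or.inr (G.a_p hx (by rw [← hx2, h]))) ε hε
  refine ⟨K₁ ∪ K₂, ?_, ?_⟩
  · intro p hp
    rcases Finset.mem_union.1 hp with h | h
    · exact hK₁ p h
    · exact hK₂ p h
  · intro V hV hV1 hV2
    have n1 := h₁ V hV (fun x hx => hV1 x hx) fun x hx p hp =>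
      hV2 x hx p (Finset.mem_union_left _ hp)
    have n2 := h₂ V hV (fun x hx => hV1 x hx) fun x hx p hp =>
      hV2 x hx p (Finset.mem_union_right _ hp)
    have ci := G.pc hA (k := k) (i := i) hV (fun x hx => (hV1 x hx).1)
    have cj := G.pc hA (k := k) (i := j) hV (fun x hx => by
      rw [← (hV1 x hx).2]; exact (hV1 x hx).1)
    have e1 : G.p k i * L.c V = G.p k i * G.p k j * L.c V + G.p k i * G.q k j * L.c V := by
      conv_lhs => rw [← cj]
      rw [← mul_assoc, mul_add, add_mul]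
    have e2 : G.p k j * L.c V = G.p k i * G.p k j * L.c V + G.q k i * G.p k j * L.c V := by
      conv_lhs => rw [← L.cen hA hV (G.pm k j), ← ci, mul_assoc, L.cen hA hV (G.pm k j)]
      rw [← mul_assoc, add_mul, add_mul]
    have e3 : (G.s k i - G.s k j) * L.c V =
        (2 : ℂ) • (G.p k i * G.q k j * L.c V - G.q k i * G.p k j * L.c V) := by
      have f1 : G.q k i * L.c V = L.c V - G.p k i * L.c V := by
        rw [eq_sub_iff_add_eq, add_comm, ← add_mul, ci]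
      have f2 : G.q k j * L.c V = L.c V - G.p k j * L.c V := by
        rw [eq_sub_iff_add_eq, add_comm, ← add_mul, cj]
      unfold s
      rw [sub_mul, sub_mul, sub_mul, f1, f2, e1, e2]
      module
    rw [e3, norm_smul]
    have : ‖(2 : ℂ)‖ = 2 := by simp
    rw [this]
    have := norm_sub_le (G.p k i * G.q k j * L.c V) (G.q k i * G.p k j * L.c V)
    linarith

theorem close_neg (hA : RealRankZero A) (k : Fin 3) (i j : I) (ε : ℝ) (hε : 0 < ε) :
    ∃ K : Finset (Fin 3 × I), (∀ p ∈ K, p.1 ≠ k) ∧ ∀ V ∈ BB I,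
      (∀ x ∈ V, x (k, i) ≠ 0 ∧ x (k, j) = -x (k, i)) → (∀ x ∈ V, ∀ p ∈ K, x p = 0) →
        ‖(G.s k i + G.s k j) * L.c V‖ ≤ 4 * ε := by
  classical
  have hW : {x : Xs I | x (k, i) ≠ 0 ∧ x (k, j) = -x (k, i)} ∈ BB I :=
    two_mem k i j (fun a b => a ≠ 0 ∧ b = -a) (by decide)
  obtain ⟨K₁, hK₁, h₁⟩ := pair_small hA L (G.pp k i) (G.pp k j) (G.pm k i) (G.pm k j) hW k (by
    rintro x hx ⟨hx1, hx2⟩
    rcases sgn_cases _ hx1 with h | h
    · exact Or.inr (G.a_p hx (by rw [hx2, h]))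
    · exact Or.inl (G.a_p hx h)) ε hε
  obtain ⟨K₂, hK₂, h₂⟩ := pair_small hA L (G.qq k i) (G.qq k j) (G.qm k i) (G.qm k j) hW k (by
    rintro x hx ⟨hx1, hx2⟩
    rcases sgn_cases _ hx1 with h | h
    · exact Or.inl (G.a_q hx h)
    · exact Or.inr (G.a_q hx (by rw [hx2, h]; decide))) ε hε
  refine ⟨K₁ ∪ K₂, ?_, ?_⟩
  · intro p hp
    rcases Finset.mem_union.1 hp with h | h
    · exact hK₁ p h
    · exact hK₂ p h
  · intro V hV hV1 hV2
    have n1 := h₁ V hV (fun x hx => hV1 x hx) fun x hx p hp =>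
      hV2 x hx p (Finset.mem_union_left _ hp)
    have n2 := h₂ V hV (fun x hx => hV1 x hx) fun x hx p hp =>
      hV2 x hx p (Finset.mem_union_right _ hp)
    have ci := G.pc hA (k := k) (i := i) hV (fun x hx => (hV1 x hx).1)
    have cj := G.pc hA (k := k) (i := j) hV (fun x hx => by
      rw [(hV1 x hx).2]
      intro h0
      exact (hV1 x hx).1 ((sign_neg_zero _).1 h0))
    have e1 : G.p k i * L.c V = G.p k i * G.p k j * L.c V + G.p k i * G.q k j * L.c V := by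
      conv_lhs => rw [← cj]
      rw [← mul_assoc, mul_add, add_mul]
    have e2 : G.q k j * L.c V = G.p k i * G.q k j * L.c V + G.q k i * G.q k j * L.c V := by
      conv_lhs => rw [← L.cen hA hV (G.qm k j), ← ci, mul_assoc, L.cen hA hV (G.qm k j)]
      rw [← mul_assoc, add_mul, add_mul]
    have e3 : (G.s k i + G.s k j) * L.c V =
        (2 : ℂ) • (G.p k i * G.p k j * L.c V - G.q k i * G.q k j * L.c V) := by
      have f1 : G.q k i * L.c V = L.c V - G.p k i * L.c V := by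
        rw [eq_sub_iff_add_eq, add_comm, ← add_mul, ci]
      have f2 : G.p k j * L.c V = L.c V - G.q k j * L.c V := by
        rw [eq_sub_iff_add_eq, ← add_mul, cj]
      unfold s
      rw [add_mul, sub_mul, sub_mul, f1, f2, e1, e2]
      module
    rw [e3, norm_smul]
    have : ‖(2 : ℂ)‖ = 2 := by simp
    rw [this]
    have := norm_sub_le (G.p k i * G.p k j * L.c V) (G.q k i * G.q k j * L.c V)
    linarith

end Gens

/-! ### scalar values -/

namespace Loc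

variable (L : Loc P)

/-- the element has a scalar value at the point -/
def Sc (x : Xs I) (z : A) (k : ℂ) : Prop := L.nul x (z - k • L.E)

theorem c_norm_one {U : Set (Xs I)} (hU : U ∈ BB I) {x : Xs I} (hx : x ∈ U)
    (hN : x ∈ L.N) : 1 ≤ ‖L.c U‖ := by
  have h0 : L.c U ≠ 0 := by
    intro h
    have h1 := L.rr_c hU hx
    rw [L.rr_E hN, h] at h1
    unfold rr at h1
    rw [(kl_zero (zero_mul 0)).2 rfl, map_zero] at h1
    omega
  have h1 : ‖L.c U‖ ≤ ‖L.c U‖ * ‖L.c U‖ := by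
    conv_lhs => rw [← L.cc U hU]
    exact norm_mul_le _ _
  have h2 : 0 < ‖L.c U‖ := norm_pos_iff.2 h0
  nlinarith

theorem Sc_near (hA : RealRankZero A) {x : Xs I} (hN : x ∈ L.N) {V : Set (Xs I)} (hV : V ∈ BB I)
    (hx : x ∈ V) {z z' : A} {k k' : ℂ} (h : L.Sc x z k) (h' : L.Sc x z' k') {δ : ℝ}
    (hd : ‖(z - z') * L.c V‖ ≤ δ) : ‖k - k'‖ ≤ δ := by
  apply le_of_forall_pos_le_add
  intro ε hε
  obtain ⟨U₁, hU₁, hx₁, n₁⟩ := h (ε / 2) (half_pos hε)
  obtain ⟨U₂, hU₂, hx₂, n₂⟩ := h' (ε / 2) (half_pos hε)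
  have hU₁₂ := (BB_balg I).inter _ hU₁ _ hU₂
  have hU := (BB_balg I).inter _ hU₁₂ _ hV
  have m₁ : ‖(z - k • L.E) * L.c (U₁ ∩ U₂ ∩ V)‖ ≤ ε / 2 :=
    ((L.norm_shrink hA hU₁₂ hV _).trans (L.norm_shrink hA hU₁ hU₂ _)).trans n₁
  have m₂ : ‖(z' - k' • L.E) * L.c (U₁ ∩ U₂ ∩ V)‖ ≤ ε / 2 :=
    ((L.norm_shrink hA hU₁₂ hV _).trans (L.norm_shrink' hA hU₁ hU₂ _)).trans n₂
  have m₃ : ‖(z - z') * L.c (U₁ ∩ U₂ ∩ V)‖ ≤ δ := (L.norm_shrink' hA hU₁₂ hV _).trans hd
  have e : (k - k') • L.c (U₁ ∩ U₂ ∩ V) = (z - z') * L.c (U₁ ∩ U₂ ∩ V) -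
      (z - k • L.E) * L.c (U₁ ∩ U₂ ∩ V) + (z' - k' • L.E) * L.c (U₁ ∩ U₂ ∩ V) := by
    rw [sub_mul, sub_mul, sub_mul, smul_mul_assoc, smul_mul_assoc, L.Ec _ hU, sub_smul]
    abel
  have h1 := L.c_norm_one hU ⟨⟨hx₁, hx₂⟩, hx⟩ hN
  have h2 : ‖(k - k') • L.c (U₁ ∩ U₂ ∩ V)‖ ≤ δ + ε := by
    rw [e]
    calc _ ≤ ‖(z - z') * L.c (U₁ ∩ U₂ ∩ V) - (z - k • L.E) * L.c (U₁ ∩ U₂ ∩ V)‖ +
        ‖(z' - k' • L.E) * L.c (U₁ ∩ U₂ ∩ V)‖ := norm_add_le _ _
      _ ≤ ‖(z - z') * L.c (U₁ ∩ U₂ ∩ V)‖ + ‖(z - k • L.E) * L.c (U₁ ∩ U₂ ∩ V)‖ +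
        ‖(z' - k' • L.E) * L.c (U₁ ∩ U₂ ∩ V)‖ := by gcongr; exact norm_sub_le _ _
      _ ≤ δ + ε := by linarith
  rw [norm_smul] at h2
  nlinarith [norm_nonneg (k - k')]

theorem Sc_self (x : Xs I) (k : ℂ) : L.Sc x (k • L.E) k := by
  unfold Sc
  rw [sub_self]
  exact L.nul_zero x

theorem Sc_neg {x : Xs I} {z : A} {k : ℂ} (h : L.Sc x z k) : L.Sc x (-z) (-k) := by
  have := L.nul_smul (-1) h
  unfold Sc
  have e : -z - -k • L.E = (-1 : ℂ) • (z - k • L.E) := by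
    rw [smul_sub, neg_one_smul, neg_one_smul, neg_smul]
  rw [e]
  exact this

theorem Sc_flp {x : Xs I} {z : A} {k : ℂ} (l : Fin 3) (h : L.Sc x z k) : L.Sc (flp l x) z k := by
  intro ε hε
  obtain ⟨U, hU, hx, hn⟩ := h ε hε
  exact ⟨U, hU, (hU.2 l x).2 hx, hn⟩

theorem dep_val (hA : RealRankZero A) {z : A} {V : Set (Xs I)} (hV : V ∈ BB I) (hVN : V ⊆ L.N)
    (hex : ∀ x ∈ V, ∃ k, L.Sc x z k) (ε : ℝ) (hε : 0 < ε) :
    ∃ F : Finset (Fin 3 × I), ∀ x y : Xs I, (∀ p ∈ F, x p = y p) → x ∈ V → y ∈ V →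
      ∀ k l, L.Sc x z k → L.Sc y z l → ‖k - l‖ ≤ ε := by
  apply dep_of_local (fun x y : Xs I => x ∈ V → y ∈ V →
      ∀ k l, L.Sc x z k → L.Sc y z l → ‖k - l‖ ≤ ε)
  intro x
  by_cases hx : x ∈ V
  · obtain ⟨k₀, hk₀⟩ := hex x hx
    obtain ⟨U, hU, hxU, hn⟩ := hk₀ (ε / 2) (half_pos hε)
    refine ⟨U, hU.1.isOpen, hxU, ?_⟩
    intro y hy y' hy' hyV hyV' k l hk hl
    have h1 := L.Sc_near hA (hVN hyV) hU hy hk (L.Sc_self y k₀) hn
    have h2 := L.Sc_near hA (hVN hyV') hU hy' hl (L.Sc_self y' k₀) hn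
    calc ‖k - l‖ = ‖(k - k₀) - (l - k₀)‖ := by congr 1; ring
      _ ≤ ‖k - k₀‖ + ‖l - k₀‖ := norm_sub_le _ _
      _ ≤ ε := by linarith
  · exact ⟨Vᶜ, hV.1.compl.isOpen, hx, fun y hy y' _ hyV => absurd hyV hy⟩

end Loc

/-! ### the Clifford relations -/

/-- half of the anticommutator -/
noncomputable def G2 {B : Type*} [NonUnitalRing B] [Module ℂ B] (s t : B) : B :=
  (1 / 2 : ℂ) • (s * t + t * s)

/-- the antisymmetric product -/
noncomputable def J3 {B : Type*} [NonUnitalRing B] [Module ℂ B] (s t v : B) : B :=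
  s * t * v - G2 s t * v + G2 s v * t - G2 t v * s

theorem g2_scalar {S T : M2} (hS : S.trace = 0) (hT : T.trace = 0) :
    G2 S T = ((S * T).trace / 2) • (1 : M2) := by
  unfold G2
  rw [Matrix.trace_fin_two] at hS hT
  have hS' : S 1 1 = -S 0 0 := by linear_combination hS
  have hT' : T 1 1 = -T 0 0 := by linear_combination hT
  rw [Matrix.trace_fin_two]
  apply m2_ext <;> simp only [mul00, mul01, mul10, mul11, Matrix.smul_apply, Matrix.add_apply,
    smul_eq_mul, Matrix.one_apply_eq, hS', hT']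
  · ring
  · rw [Matrix.one_apply_ne (by decide)]; ring
  · rw [Matrix.one_apply_ne (by decide)]; ring
  · ring

theorem j3_scalar {S T U : M2} (hS : S.trace = 0) (hT : T.trace = 0) (hU : U.trace = 0) :
    J3 S T U = ((S * T * U).trace / 2) • (1 : M2) := by
  unfold J3 G2
  rw [Matrix.trace_fin_two] at hS hT hU
  have hS' : S 1 1 = -S 0 0 := by linear_combination hS
  have hT' : T 1 1 = -T 0 0 := by linear_combination hT
  have hU' : U 1 1 = -U 0 0 := by linear_combination hU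
  rw [Matrix.trace_fin_two]
  apply m2_ext <;> simp only [mul00, mul01, mul10, mul11, Matrix.smul_apply, Matrix.add_apply,
    Matrix.sub_apply, smul_eq_mul, Matrix.one_apply_eq, hS', hT', hU']
  · ring
  · rw [Matrix.one_apply_ne (by decide)]; ring
  · rw [Matrix.one_apply_ne (by decide)]; ring
  · ring

theorem gram {S T U : M2} (hS : S.trace = 0) (hT : T.trace = 0) (hU : U.trace = 0)
    (hSS : S * S = 1) (hTT : T * T = 1) (hUU : U * U = 1) :
    ((S * T * U).trace / 2) ^ 2 = -(1 + 2 * ((S * T).trace / 2) * ((S * U).trace / 2) *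
      ((T * U).trace / 2) - ((S * T).trace / 2) ^ 2 - ((S * U).trace / 2) ^ 2 -
      ((T * U).trace / 2) ^ 2) := by
  rw [Matrix.trace_fin_two] at hS hT hU
  have hS' : S 1 1 = -S 0 0 := by linear_combination hS
  have hT' : T 1 1 = -T 0 0 := by linear_combination hT
  have hU' : U 1 1 = -U 0 0 := by linear_combination hU
  have h1 := congrFun (congrFun hSS 0) 0
  have h2 := congrFun (congrFun hTT 0) 0
  have h3 := congrFun (congrFun hUU 0) 0
  rw [mul00, Matrix.one_apply_eq] at h1 h2 h3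
  rw [Matrix.trace_fin_two, Matrix.trace_fin_two, Matrix.trace_fin_two, Matrix.trace_fin_two]
  simp only [mul00, mul01, mul10, mul11, hS', hT', hU']
  have key : ∀ a b c d e f g h i : ℂ, a * a + b * c = 1 → d * d + e * f = 1 → g * g + h * i = 1 →
      (((a * d + b * f) * g + (a * e + b * -d) * i + ((c * d + -a * f) * h +
        (c * e + -a * -d) * -g)) / 2) ^ 2 =
      -(1 + 2 * ((a * d + b * f + (c * e + -a * -d)) / 2) * ((a * g + b * i + (c * h + -a * -g)) / 2) *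
        ((d * g + e * i + (f * h + -d * -g)) / 2) - ((a * d + b * f + (c * e + -a * -d)) / 2) ^ 2 -
        ((a * g + b * i + (c * h + -a * -g)) / 2) ^ 2 -
        ((d * g + e * i + (f * h + -d * -g)) / 2) ^ 2) := by
    intro a b c d e f g h i h1 h2 h3
    have e0 : (((a * d + b * f) * g + (a * e + b * -d) * i + ((c * d + -a * f) * h +
        (c * e + -a * -d) * -g)) / 2) ^ 2 =
      -((a * a + b * c) * (d * d + e * f) * (g * g + h * i) +
        2 * ((a * d + b * f + (c * e + -a * -d)) / 2) * ((a * g + b * i + (c * h + -a * -g)) / 2) *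
        ((d * g + e * i + (f * h + -d * -g)) / 2) -
        (g * g + h * i) * ((a * d + b * f + (c * e + -a * -d)) / 2) ^ 2 -
        (d * d + e * f) * ((a * g + b * i + (c * h + -a * -g)) / 2) ^ 2 -
        (a * a + b * c) * ((d * g + e * i + (f * h + -d * -g)) / 2) ^ 2) := by ring
    rw [e0, h1, h2, h3]
    ring
  exact key _ _ _ _ _ _ _ _ _ h1 h2 h3

namespace Gens

variable {L : Loc P} (G : Gens L)

theorem mat_s (hA : RealRankZero A) {x : Xs I} (hx : x ∈ L.N) (F : Frame L x) {k : Fin 3} {i : I}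
    (h : x (k, i) ≠ 0) : (F.mat (G.s k i)).trace = 0 ∧ F.mat (G.s k i) * F.mat (G.s k i) = 1 := by
  constructor
  · unfold s
    rw [F.mat_sub hA, Matrix.trace_sub]
    have h1 := L.rr_compl (G.pp k i) (G.pm k i) x
    have h2 := L.rr_compl (G.qq k i) (G.qm k i) x
    rw [G.rr_p hx h, L.rr_E hx] at h1
    rw [G.rr_q hx h, L.rr_E hx] at h2
    rw [F.mat_idem_trace hA (G.pp k i) (G.pm k i) (by rw [G.rr_p hx h]; exact one_ne_zero)
      (by omega), F.mat_idem_trace hA (G.qq k i) (G.qm k i)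
        (by rw [G.rr_q hx h]; exact one_ne_zero) (by omega), sub_self]
  · rw [← F.mat_mul hA (G.sm k i) (G.sm k i), G.s_sq]
    have h1 : F.mat (L.E - L.c (Us k i)) = 0 := by
      ext a b
      apply F.mat_unique hA
      rw [Matrix.zero_apply, zero_smul, sub_zero]
      exact L.nul_mul_right hA (F.wm b) (L.nul_mul_left _ (L.nul_of_compl (Us_mem k i) h))
    rw [F.mat_sub hA, F.mat_E hA, sub_eq_zero] at h1
    exact h1.symm

theorem mem_G2 {s t : A} (hs : L.mem s) (ht : L.mem t) : L.mem (G2 s t) :=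
  L.mem_smul _ (L.mem_add (L.mem_mul hs ht) (L.mem_mul ht hs))

theorem mem_J3 {s t v : A} (hs : L.mem s) (ht : L.mem t) (hv : L.mem v) : L.mem (J3 s t v) :=
  L.mem_sub (L.mem_add (L.mem_sub (L.mem_mul (L.mem_mul hs ht) hv)
    (L.mem_mul (mem_G2 hs ht) hv)) (L.mem_mul (mem_G2 hs hv) ht)) (L.mem_mul (mem_G2 ht hv) hs)

theorem mat_G2 (hA : RealRankZero A) {x : Xs I} (F : Frame L x) {s t : A} (hs : L.mem s)
    (ht : L.mem t) : F.mat (G2 s t) = G2 (F.mat s) (F.mat t) := by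
  unfold G2
  rw [F.mat_smul hA, F.mat_add hA, F.mat_mul hA hs ht, F.mat_mul hA ht hs]

theorem mat_J3 (hA : RealRankZero A) {x : Xs I} (F : Frame L x) {s t v : A} (hs : L.mem s)
    (ht : L.mem t) (hv : L.mem v) : F.mat (J3 s t v) = J3 (F.mat s) (F.mat t) (F.mat v) := by
  unfold J3
  rw [F.mat_sub hA, F.mat_add hA, F.mat_sub hA, F.mat_mul hA (L.mem_mul hs ht) hv,
    F.mat_mul hA hs ht, F.mat_mul hA (mem_G2 hs ht) hv, F.mat_mul hA (mem_G2 hs hv) ht,
    F.mat_mul hA (mem_G2 ht hv) hs, mat_G2 hA F hs ht, mat_G2 hA F hs hv, mat_G2 hA F ht hv]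

theorem valG (hA : RealRankZero A) {x : Xs I} (hx : x ∈ L.N) {k l : Fin 3} {i j : I}
    (hkl : k ≠ l) (hi : x (k, i) ≠ 0) (hj : x (l, j) ≠ 0) :
    ∃ g, L.Sc x (G2 (G.s k i) (G.s l j)) g := by
  obtain ⟨F⟩ := G.exists_frame hA hx hkl hi hj
  have h1 := G.mat_s hA hx F hi
  have h2 := G.mat_s hA hx F hj
  refine ⟨(F.mat (G.s k i) * F.mat (G.s l j)).trace / 2,
    F.nul_of_mat hA (mem_G2 (G.sm k i) (G.sm l j)) ?_⟩
  · rw [mat_G2 hA F (G.sm k i) (G.sm l j)]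
    exact g2_scalar h1.1 h2.1

theorem valJ (hA : RealRankZero A) {x : Xs I} (hx : x ∈ L.N) {i j m : I}
    (hi : x (0, i) ≠ 0) (hj : x (1, j) ≠ 0) (hm : x (2, m) ≠ 0) :
    ∃ a b c d : ℂ, L.Sc x (G2 (G.s 0 i) (G.s 1 j)) a ∧ L.Sc x (G2 (G.s 0 i) (G.s 2 m)) b ∧
      L.Sc x (G2 (G.s 1 j) (G.s 2 m)) c ∧ L.Sc x (J3 (G.s 0 i) (G.s 1 j) (G.s 2 m)) d ∧
      d ^ 2 = -(1 + 2 * a * b * c - a ^ 2 - b ^ 2 - c ^ 2) := by
  obtain ⟨F⟩ := G.exists_frame hA hx (show (0 : Fin 3) ≠ 1 by decide) hi hj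
  have h1 := G.mat_s hA hx F hi
  have h2 := G.mat_s hA hx F hj
  have h3 := G.mat_s hA hx F hm
  refine ⟨_, _, _, _, F.nul_of_mat hA (mem_G2 (G.sm 0 i) (G.sm 1 j)) ?_,
    F.nul_of_mat hA (mem_G2 (G.sm 0 i) (G.sm 2 m)) ?_,
    F.nul_of_mat hA (mem_G2 (G.sm 1 j) (G.sm 2 m)) ?_,
    F.nul_of_mat hA (mem_J3 (G.sm 0 i) (G.sm 1 j) (G.sm 2 m)) ?_,
    gram h1.1 h2.1 h3.1 h1.2 h2.2 h3.2⟩
  · rw [mat_G2 hA F (G.sm 0 i) (G.sm 1 j)]
    exact g2_scalar h1.1 h2.1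
  · rw [mat_G2 hA F (G.sm 0 i) (G.sm 2 m)]
    exact g2_scalar h1.1 h3.1
  · rw [mat_G2 hA F (G.sm 1 j) (G.sm 2 m)]
    exact g2_scalar h2.1 h3.1
  · rw [mat_J3 hA F (G.sm 0 i) (G.sm 1 j) (G.sm 2 m)]
    exact j3_scalar h1.1 h2.1 h3.1

end Gens

end Pool.Agent.H413.NK
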