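import Pool.Agent.H413.G.R_seed8.Y78.NK.Alg

set_option autoImplicit false

/-!
The ring of complex two by two matrices as a Clifford algebra: three anticommuting involutions
`sig k` and the ring automorphisms `gam k` changing the sign of `sig k`.
-/

namespace Pool.Agent.H413.NK

open Pool.Agent.Y78.NK
open Complex

theorem m2_ext {a b : M2} (h0 : a 0 0 = b 0 0) (h1 : a 0 1 = b 0 1) (h2 : a 1 0 = b 1 0)
    (h3 : a 1 1 = b 1 1) : a = b := by
  ext i j
  fin_cases i <;> fin_cases j <;> assumption

theorem mul00 (a b : M2) : (a * b) 0 0 = a 0 0 * b 0 0 + a 0 1 * b 1 0 := by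
  rw [Matrix.mul_apply, Fin.sum_univ_two]
theorem mul01 (a b : M2) : (a * b) 0 1 = a 0 0 * b 0 1 + a 0 1 * b 1 1 := by
  rw [Matrix.mul_apply, Fin.sum_univ_two]
theorem mul10 (a b : M2) : (a * b) 1 0 = a 1 0 * b 0 0 + a 1 1 * b 1 0 := by
  rw [Matrix.mul_apply, Fin.sum_univ_two]
theorem mul11 (a b : M2) : (a * b) 1 1 = a 1 0 * b 0 1 + a 1 1 * b 1 1 := by
  rw [Matrix.mul_apply, Fin.sum_univ_two]

/-- the underlying map of the automorphism -/
noncomputable def gamFun (k : Fin 3) (a : M2) : M2 :=
  match k with
  | 0 => !![star (a 0 0), -star (a 0 1); -star (a 1 0), star (a 1 1)]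
  | 1 => !![star (a 0 0), star (a 0 1); star (a 1 0), star (a 1 1)]
  | 2 => !![star (a 1 1), star (a 1 0); star (a 0 1), star (a 0 0)]

/-- the ring automorphism changing the sign of the `k`-th generator -/
noncomputable def gam (k : Fin 3) : M2 →+* M2 where
  toFun := gamFun k
  map_one' := by
    fin_cases k <;> apply m2_ext <;> simp [gamFun]
  map_mul' a b := by
    fin_cases k <;> apply m2_ext <;> simp [gamFun, mul00, mul01, mul10, mul11] <;> ring
  map_zero' := by
    fin_cases k <;> apply m2_ext <;> simp [gamFun]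
  map_add' a b := by
    fin_cases k <;> apply m2_ext <;> simp [gamFun] <;> ring

/-- the generators -/
noncomputable def sig (k : Fin 3) : M2 :=
  match k with
  | 0 => !![0, 1; 1, 0]
  | 1 => !![0, -I; I, 0]
  | 2 => !![1, 0; 0, -1]

theorem gam_apply (k : Fin 3) (a : M2) : gam k a = gamFun k a := rfl

theorem gam_gam (k : Fin 3) (a : M2) : gam k (gam k a) = a := by
  fin_cases k <;> apply m2_ext <;> simp [gam_apply, gamFun]

theorem gam_comm (k l : Fin 3) (a : M2) : gam k (gam l a) = gam l (gam k a) := by
  fin_cases k <;> fin_cases l <;> apply m2_ext <;> simp [gam_apply, gamFun]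

theorem gam_smul (k : Fin 3) (c : ℂ) (a : M2) : gam k (c • a) = star c • gam k a := by
  fin_cases k <;> apply m2_ext <;> simp [gam_apply, gamFun]

theorem gam_sig (k : Fin 3) : gam k (sig k) = -sig k := by
  fin_cases k <;> apply m2_ext <;> simp [gam_apply, gamFun, sig]

theorem gam_sig_ne {k l : Fin 3} (h : k ≠ l) : gam k (sig l) = sig l := by
  fin_cases k <;> fin_cases l <;> first | exact absurd rfl h | (apply m2_ext <;> simp [gam_apply, gamFun, sig])

theorem gam_star (k : Fin 3) (a : M2) : gam k (star a) = star (gam k a) := by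
  fin_cases k <;> apply m2_ext <;> simp [gam_apply, gamFun, Matrix.star_apply]

theorem gam_trace (k : Fin 3) (a : M2) : (gam k a).trace = star a.trace := by
  rw [Matrix.trace_fin_two, Matrix.trace_fin_two]
  fin_cases k <;> simp [gam_apply, gamFun] <;> ring

theorem gam_det (k : Fin 3) (a : M2) : (gam k a).det = star a.det := by
  rw [Matrix.det_fin_two, Matrix.det_fin_two]
  fin_cases k <;> simp [gam_apply, gamFun] <;> ring

theorem sig_sq (k : Fin 3) : sig k * sig k = 1 := by
  fin_cases k <;> apply m2_ext <;> simp [mul00, mul01, mul10, mul11, sig]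

theorem sig_anti {k l : Fin 3} (h : k ≠ l) : sig k * sig l = -(sig l * sig k) := by
  fin_cases k <;> fin_cases l <;> first | exact absurd rfl h | (apply m2_ext <;> simp [mul00, mul01, mul10, mul11, sig])

theorem sig_trace (k : Fin 3) : (sig k).trace = 0 := by
  rw [Matrix.trace_fin_two]
  fin_cases k <;> simp [sig]

theorem sig_star (k : Fin 3) : star (sig k) = sig k := by
  fin_cases k <;> apply m2_ext <;> simp [sig, Matrix.star_apply]

/-- the spectral projection of `sig k` for the eigenvalue one -/
noncomputable def pp (k : Fin 3) : M2 := (1 / 2 : ℂ) • (1 + sig k)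

/-- the spectral projection of `sig k` for the eigenvalue minus one -/
noncomputable def pm (k : Fin 3) : M2 := (1 / 2 : ℂ) • (1 - sig k)

theorem pp_idem (k : Fin 3) : pp k * pp k = pp k := by
  unfold pp
  rw [smul_mul_smul_comm, mul_add, add_mul, add_mul, sig_sq, one_mul, one_mul, mul_one]
  have : (1 + sig k + (sig k + 1) : M2) = (2 : ℂ) • (1 + sig k) := by
    rw [two_smul]; abel
  rw [this, smul_smul]
  norm_num

theorem pm_eq (k : Fin 3) : pm k = 1 - pp k := by
  unfold pm pp
  module

theorem pm_idem (k : Fin 3) : pm k * pm k = pm k := by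
  rw [pm_eq, mul_sub, sub_mul, one_mul, sub_mul, one_mul, pp_idem]
  simp

theorem pp_trace (k : Fin 3) : (pp k).trace = 1 := by
  unfold pp
  rw [Matrix.trace_smul, Matrix.trace_add, sig_trace, Matrix.trace_fin_two]
  simp
  norm_num

theorem pm_trace (k : Fin 3) : (pm k).trace = 1 := by
  rw [pm_eq, Matrix.trace_sub, pp_trace, Matrix.trace_fin_two]
  simp

theorem gam_half (k : Fin 3) (a : M2) : gam k ((1 / 2 : ℂ) • a) = (1 / 2 : ℂ) • gam k a := by
  rw [gam_smul]
  congr 1
  simp

theorem gam_pp (k : Fin 3) : gam k (pp k) = pm k := by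
  unfold pp pm
  rw [gam_half, map_add, map_one, gam_sig, sub_eq_add_neg]

theorem gam_pm (k : Fin 3) : gam k (pm k) = pp k := by
  rw [← gam_pp, gam_gam]

theorem gam_pp_ne {k l : Fin 3} (h : k ≠ l) : gam k (pp l) = pp l := by
  unfold pp
  rw [gam_half, map_add, map_one, gam_sig_ne h]

theorem gam_pm_ne {k l : Fin 3} (h : k ≠ l) : gam k (pm l) = pm l := by
  rw [pm_eq, map_sub, map_one, gam_pp_ne h]

theorem pp_ne (k : Fin 3) : pp k ≠ 0 := by
  intro h
  have := pp_trace k
  rw [h, Matrix.trace_zero] at this
  exact zero_ne_one this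

theorem pm_ne (k : Fin 3) : pm k ≠ 0 := by
  intro h
  have := pm_trace k
  rw [h, Matrix.trace_zero] at this
  exact zero_ne_one this

theorem sig_pp {k l : Fin 3} (h : k ≠ l) : sig l * pp k * sig l = pm k := by
  unfold pp pm
  rw [mul_smul_comm, smul_mul_assoc]
  congr 1
  rw [mul_add, add_mul, mul_one, sig_sq, mul_assoc, sig_anti h, mul_neg, ← mul_assoc, sig_sq,
    one_mul, sub_eq_add_neg]

theorem corner_rank (p a : M2) (hp : p.det = 0) : p * a * p = (a * p).trace • p := by
  rw [Matrix.det_fin_two] at hp
  rw [Matrix.trace_fin_two]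
  apply m2_ext <;> simp only [mul00, mul01, mul10, mul11, Matrix.smul_apply, smul_eq_mul]
  · linear_combination (-a 1 1) * hp
  · linear_combination (a 0 1) * hp
  · linear_combination (a 1 0) * hp
  · linear_combination (-a 0 0) * hp

theorem det_of_idem (p : M2) (hp : p * p = p) (ht : p.trace = 1) : p.det = 0 := by
  have h0 := congrFun (congrFun hp 0) 0
  rw [mul00] at h0
  rw [Matrix.trace_fin_two] at ht
  rw [Matrix.det_fin_two]
  linear_combination (-1 : ℂ) * h0 + p 0 0 * ht

theorem pp_corner (k : Fin 3) (a : M2) : pp k * a * pp k = (a * pp k).trace • pp k :=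
  corner_rank _ _ (det_of_idem _ (pp_idem k) (pp_trace k))

theorem pm_corner (k : Fin 3) (a : M2) : pm k * a * pm k = (a * pm k).trace • pm k :=
  corner_rank _ _ (det_of_idem _ (pm_idem k) (pm_trace k))

theorem sig_pp_self (k : Fin 3) : sig k * pp k = pp k := by
  unfold pp
  rw [mul_smul_comm, mul_add, mul_one, sig_sq, add_comm]

/-- elements fixed by two automorphisms commute with the third generator -/
theorem comm_of_fixed {k : Fin 3} (a : M2) (h : ∀ l, l ≠ k → gam l a = a) :
    sig k * a = a * sig k := by
  fin_cases k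
  · have h1 := h 1 (by decide)
    have h2 := h 2 (by decide)
    have e00 := congrFun (congrFun h1 0) 0
    have e01 := congrFun (congrFun h1 0) 1
    have e10 := congrFun (congrFun h1 1) 0
    have e11 := congrFun (congrFun h1 1) 1
    have f00 := congrFun (congrFun h2 0) 0
    have f01 := congrFun (congrFun h2 0) 1
    have f10 := congrFun (congrFun h2 1) 0
    have f11 := congrFun (congrFun h2 1) 1
    simp [gam_apply, gamFun] at e00 e01 e10 e11 f00 f01 f10 f11
    apply m2_ext <;> simp [mul00, mul01, mul10, mul11, sig]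
    · rw [← f01, e10]
    · rw [← f00, e11]
    · rw [← f00, e11]
    · rw [← f01, e10]
  · have h1 := h 0 (by decide)
    have h2 := h 2 (by decide)
    have e00 := congrFun (congrFun h1 0) 0
    have e01 := congrFun (congrFun h1 0) 1
    have e10 := congrFun (congrFun h1 1) 0
    have e11 := congrFun (congrFun h1 1) 1
    have f00 := congrFun (congrFun h2 0) 0
    have f01 := congrFun (congrFun h2 0) 1
    have f10 := congrFun (congrFun h2 1) 0
    have f11 := congrFun (congrFun h2 1) 1
    simp [gam_apply, gamFun] at e00 e01 e10 e11 f00 f01 f10 f11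
    apply m2_ext <;> simp [mul00, mul01, mul10, mul11, sig]
    · linear_combination (I) * f01 + I * e10
    · rw [← f00, e11]
      ring
    · rw [← f00, e11]
      ring
    · linear_combination (-I) * f01 - I * e10
  · have h1 := h 0 (by decide)
    have h2 := h 1 (by decide)
    have e00 := congrFun (congrFun h1 0) 0
    have e01 := congrFun (congrFun h1 0) 1
    have e10 := congrFun (congrFun h1 1) 0
    have e11 := congrFun (congrFun h1 1) 1
    have f00 := congrFun (congrFun h2 0) 0
    have f01 := congrFun (congrFun h2 0) 1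
    have f10 := congrFun (congrFun h2 1) 0
    have f11 := congrFun (congrFun h2 1) 1
    simp [gam_apply, gamFun] at e00 e01 e10 e11 f00 f01 f10 f11
    have z01 : a 0 1 = 0 := by
      have : a 0 1 = - a 0 1 := by
        conv_lhs => rw [← e01, f01]
      linear_combination (1 / 2 : ℂ) * this
    have z10 : a 1 0 = 0 := by
      have : a 1 0 = - a 1 0 := by
        conv_lhs => rw [← e10, f10]
      linear_combination (1 / 2 : ℂ) * this
    apply m2_ext <;> simp [mul00, mul01, mul10, mul11, sig, z01, z10]

theorem comm_pp_of_fixed {k : Fin 3} (a : M2) (h : ∀ l, l ≠ k → gam l a = a) :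
    pp k * a = a * pp k := by
  unfold pp
  rw [smul_mul_assoc, mul_smul_comm, add_mul, mul_add, comm_of_fixed a h, one_mul, mul_one]

end Pool.Agent.H413.NK
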