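import Mathlib

set_option autoImplicit false

/-!
Dimension groups and their positive cones.
-/

namespace Pool.Agent.H413.NK

universe u

/-- A dimension group: a partially ordered abelian group which is directed, unperforated and has
the Riesz interpolation property. -/
structure IsDimensionGroup (G : Type u) [AddCommGroup G] [PartialOrder G]
    [IsOrderedAddMonoid G] : Prop where
  directed : ∀ x y : G, ∃ z, x ≤ z ∧ y ≤ z
  unperforated : ∀ (n : ℕ) (x : G), 0 < n → 0 ≤ n • x → 0 ≤ x
  interpolation : ∀ x₁ x₂ y₁ y₂ : G, x₁ ≤ y₁ → x₁ ≤ y₂ → x₂ ≤ y₁ → x₂ ≤ y₂ →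
    ∃ z, x₁ ≤ z ∧ x₂ ≤ z ∧ z ≤ y₁ ∧ z ≤ y₂

/-- The commutative monoid `M` is isomorphic to the positive cone of a dimension group. -/
def IsDimensionCone (M : Type u) [AddCommMonoid M] : Prop :=
  ∃ (G : Type u) (_ : AddCommGroup G) (_ : PartialOrder G) (_ : IsOrderedAddMonoid G),
    IsDimensionGroup G ∧ Nonempty (M ≃+ AddSubmonoid.nonneg G)

/-- the algebraic preorder -/
def LeA {M : Type u} [Add M] (a b : M) : Prop := ∃ c, a + c = b

open Algebra in
theorem isDimensionCone_of (M : Type u) [AddCommMonoid M]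
    (hcan : ∀ a b c : M, a + c = b + c → a = b)
    (hcon : ∀ a b : M, a + b = 0 → a = 0)
    (href : ∀ a b c d : M, a + b = c + d → ∃ p q r s : M, p + q = a ∧ r + s = b ∧ p + r = c ∧
      q + s = d)
    (hunp : ∀ (n : ℕ) (a b : M), 0 < n → LeA (n • a) (n • b) → LeA a b) :
    IsDimensionCone M := by
  have hC : IsCancelAdd M :=
    { add_left_cancel := fun a b c h => hcan b c a (by rw [add_comm b, add_comm c]; exact h)
      add_right_cancel := fun a b c h => hcan b c a h }
  have hinj : Function.Injective (GrothendieckAddGroup.of (M := M)) :=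
    GrothendieckAddGroup.of_injective
  have hsurj : ∀ x : GrothendieckAddGroup M, ∃ a b : M,
      x = GrothendieckAddGroup.of a - GrothendieckAddGroup.of b := by
    intro x
    induction x using AddLocalization.ind with
    | _ y =>
      refine ⟨y.1, y.2, ?_⟩
      have : (AddLocalization.mk y.1 y.2 : GrothendieckAddGroup M) =
          AddLocalization.mk y.1 0 - AddLocalization.mk (y.2 : M) 0 := by
        rw [GrothendieckAddGroup.mk_sub_mk]
        simp
      rw [this]
      rfl
  let P : PartialOrder (GrothendieckAddGroup M) :=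
    { le := fun x y => ∃ m : M, x + GrothendieckAddGroup.of m = y
      le_refl := fun x => ⟨0, by simp⟩
      le_trans := by
        rintro x y z ⟨m, rfl⟩ ⟨n, rfl⟩
        exact ⟨m + n, by rw [map_add, add_assoc]⟩
      le_antisymm := by
        rintro x y ⟨m, rfl⟩ ⟨n, hn⟩
        have h1 : GrothendieckAddGroup.of (m + n) = (GrothendieckAddGroup.of (0 : M)) := by
          rw [map_add, map_zero]
          have : x + (GrothendieckAddGroup.of m + GrothendieckAddGroup.of n) = x + 0 := by
            rw [← add_assoc, hn, add_zero]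
          exact add_left_cancel this
        have h2 := hcon m n (hinj h1)
        rw [h2, map_zero, add_zero] }
  have hle : ∀ x y : GrothendieckAddGroup M, x ≤ y ↔ ∃ m : M, x + GrothendieckAddGroup.of m = y :=
    fun x y => Iff.rfl
  have hO : IsOrderedAddMonoid (GrothendieckAddGroup M) :=
    { add_le_add_left := by
        rintro x y ⟨m, rfl⟩ z
        exact ⟨m, by abel⟩ }
  have hpos : ∀ x : GrothendieckAddGroup M, 0 ≤ x ↔ ∃ m : M, GrothendieckAddGroup.of m = x := by
    intro x
    rw [hle]
    simp only [zero_add]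
  refine ⟨GrothendieckAddGroup M, inferInstance, P, hO, ⟨?_, ?_, ?_⟩, ?_⟩
  · intro x y
    obtain ⟨a, b, rfl⟩ := hsurj x
    obtain ⟨c, d, rfl⟩ := hsurj y
    refine ⟨GrothendieckAddGroup.of (a + c), ⟨b + c, ?_⟩, ⟨d + a, ?_⟩⟩
    · rw [map_add, map_add]; abel
    · rw [map_add, map_add]; abel
  · intro n x hn hx
    obtain ⟨a, b, rfl⟩ := hsurj x
    obtain ⟨m, hm⟩ := (hpos _).1 hx
    have h1 : n • b + m = n • a := by
      apply hinj
      rw [map_add, map_nsmul, map_nsmul, hm, nsmul_sub]
      abel
    obtain ⟨c, hc⟩ := hunp n b a hn ⟨m, h1⟩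
    rw [hpos]
    refine ⟨c, ?_⟩
    rw [← hc, map_add]
    abel
  · intro x₁ x₂ y₁ y₂ h11 h12 h21 h22
    obtain ⟨a, ha⟩ := h11
    obtain ⟨b, hb⟩ := h12
    obtain ⟨c, hc⟩ := h21
    obtain ⟨d, hd⟩ := h22
    have h1 : a + d = b + c := by
      apply hinj
      rw [map_add, map_add]
      have : GrothendieckAddGroup.of a + GrothendieckAddGroup.of d + (x₁ + x₂) =
          GrothendieckAddGroup.of b + GrothendieckAddGroup.of c + (x₁ + x₂) := by
        have e1 : GrothendieckAddGroup.of a + GrothendieckAddGroup.of d + (x₁ + x₂) =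
          (x₁ + GrothendieckAddGroup.of a) + (x₂ + GrothendieckAddGroup.of d) := by abel
        have e2 : GrothendieckAddGroup.of b + GrothendieckAddGroup.of c + (x₁ + x₂) =
          (x₁ + GrothendieckAddGroup.of b) + (x₂ + GrothendieckAddGroup.of c) := by abel
        rw [e1, e2, ha, hd, hb, hc]
        abel
      exact add_right_cancel this
    obtain ⟨p, q, r, s, hpq, hrs, hpr, hqs⟩ := href a d b c h1
    -- a = p + q, d = r + s, b = p + r, c = q + s
    refine ⟨x₁ + GrothendieckAddGroup.of p, ⟨p, rfl⟩, ⟨s, ?_⟩, ⟨q, ?_⟩, ⟨r, ?_⟩⟩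
    · -- x₂ + s = x₁ + p
      have e1 : x₂ + GrothendieckAddGroup.of c = x₁ + GrothendieckAddGroup.of a := by rw [hc, ha]
      rw [← hqs, ← hpq, map_add, map_add] at e1
      have e2 : x₂ + GrothendieckAddGroup.of s + GrothendieckAddGroup.of q =
          x₁ + GrothendieckAddGroup.of p + GrothendieckAddGroup.of q := by
        rw [add_assoc, add_comm (GrothendieckAddGroup.of s), e1, add_assoc]
      exact add_right_cancel e2
    · rw [← ha, ← hpq, map_add, add_assoc]
    · rw [← hb, ← hpr, map_add, add_assoc]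
  · refine ⟨AddEquiv.ofBijective
      ({ toFun := fun m => ⟨GrothendieckAddGroup.of m, (hpos _).2 ⟨m, rfl⟩⟩
         map_zero' := Subtype.ext (map_zero _)
         map_add' := fun a b => Subtype.ext (map_add _ _ _) } :
        M →+ AddSubmonoid.nonneg (GrothendieckAddGroup M)) ⟨?_, ?_⟩⟩
    · intro a b h
      exact hinj (congrArg Subtype.val h)
    · rintro ⟨x, hx⟩
      obtain ⟨m, hm⟩ := (hpos x).1 hx
      exact ⟨m, Subtype.ext hm⟩

end Pool.Agent.H413.NK
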