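import Pool.Agent.H413.NK.Loc
import Pool.Agent.H413.G.R_seed8.H494R3.LD.C2

set_option autoImplicit false

/-!
Evaluation of elements of the corner at points.
-/

namespace Pool.Agent.H413.NK

open Pool.Agent.Y78.NK Pool.Agent.H494R3.NK

universe u

theorem dep_clopen {J S : Type} [TopologicalSpace S] [DiscreteTopology S] (T : Set (J → S))
    (F : Finset J) (h : ∀ x y : J → S, (∀ p ∈ F, x p = y p) → x ∈ T → y ∈ T) : IsClopen T := by
  have key : ∀ T : Set (J → S), (∀ x y : J → S, (∀ p ∈ F, x p = y p) → x ∈ T → y ∈ T) →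
      IsOpen T := by
    intro T h
    rw [isOpen_iff_forall_mem_open]
    intro x hx
    refine ⟨⋂ p ∈ F, {y | y p = x p}, ?_, ?_, ?_⟩
    · intro y hy
      simp only [Set.mem_iInter] at hy
      exact h x y (fun p hp => (hy p hp).symm) hx
    · apply isOpen_biInter_finset
      intro p _
      exact (isOpen_discrete ({x p} : Set S)).preimage (continuous_apply (A := fun _ : J => S) p)
    · simp
  refine ⟨⟨key _ ?_⟩, key _ h⟩
  intro x y hxy hx hy
  exact hx (h y x (fun p hp => (hxy p hp).symm) hy)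

theorem Pat.level_mem {I : Type} {M : Type u} [AddCommMonoid M] (P : Pat I M) (v : M) (n : ℕ) :
    {x | P.r x v = n} ∈ BB I := by
  obtain ⟨F, hF⟩ := P.dep v
  refine ⟨dep_clopen _ F ?_, fun k x => ?_⟩
  · intro x y hxy hx
    have h1 : P.r x v = n := hx
    show P.r y v = n
    rw [← hF x y hxy, h1]
  · show P.r (flp k x) v = n ↔ P.r x v = n
    rw [P.flip]

namespace Loc

variable {I : Type} {A : Type u} [NonUnitalCStarAlgebra A] {P : Pat I (VV A)} (L : Loc P)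

/-- projections of rank at most one -/
theorem rank_one_sub (hA : RealRankZero A) {p f : A} (hp : p * p = p) (hpm : L.mem p)
    (hr : ∀ y, rr P y p ≤ 1) (hf : f * f = f) (h1 : p * f = f) (h2 : f * p = f) :
    ∃ U ∈ BB I, f = p * L.c U := by
  have hfm : L.mem f := ⟨by rw [← h1, ← mul_assoc, hpm.1], by rw [← h2, mul_assoc, hpm.2]⟩
  have hU := P.level_mem (kl f) 1
  refine ⟨{x | P.r x (kl f) = 1}, hU, ?_⟩
  have hg : (p - f) * (p - f) = p - f := by
    rw [mul_sub, sub_mul, sub_mul, hp, h1, h2, hf, sub_self, sub_zero]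
  have hgm : L.mem (p - f) := L.mem_sub hpm hfm
  have hs : ∀ y, rr P y f + rr P y (p - f) = rr P y p := by
    intro y
    rw [← rr_add P hf hg (by rw [mul_sub, h2, hf, sub_self]) (by rw [sub_mul, h1, hf, sub_self])]
    congr 1
    abel
  have e1 : f * L.c {x | P.r x (kl f) = 1} = f := by
    apply L.c_sup hA hU hf hfm
    intro y hy
    have k1 := hs y
    have k2 := hr y
    have k3 : rr P y f ≠ 1 := hy
    omega
  have hi := L.c_mul_idem hA hU hg hgm
  have e2 : (p - f) * L.c {x | P.r x (kl f) = 1} = 0 := by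
    apply rr_zero_imp P hi
    intro y
    by_cases hy : y ∈ {x | P.r x (kl f) = 1}
    · rw [L.rr_cut hA hU hg hgm hy]
      have k1 := hs y
      have k2 := hr y
      have k3 : rr P y f = 1 := hy
      omega
    · exact L.rr_cut' hU hi hy
  rw [sub_mul, e1, sub_eq_zero] at e2
  exact e2.symm

/-- elements small near a point -/
def nul (x : Xs I) (z : A) : Prop := ∀ ε : ℝ, 0 < ε → ∃ U ∈ BB I, x ∈ U ∧ ‖z * L.c U‖ ≤ ε

theorem norm_shrink (hA : RealRankZero A) {U W : Set (Xs I)} (hU : U ∈ BB I) (hW : W ∈ BB I)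
    (z : A) : ‖z * L.c (U ∩ W)‖ ≤ ‖z * L.c U‖ := by
  rw [← L.c_inter hA hU hW, ← mul_assoc]
  exact L.norm_mul_c hW _

theorem norm_shrink' (hA : RealRankZero A) {U W : Set (Xs I)} (hU : U ∈ BB I) (hW : W ∈ BB I)
    (z : A) : ‖z * L.c (U ∩ W)‖ ≤ ‖z * L.c W‖ := by
  rw [Set.inter_comm]
  exact L.norm_shrink hA hW hU z

theorem nul_add (hA : RealRankZero A) {x : Xs I} {y z : A} (hy : L.nul x y) (hz : L.nul x z) :
    L.nul x (y + z) := by
  intro ε hε
  obtain ⟨U, hU, hxU, h1⟩ := hy (ε / 2) (half_pos hε)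
  obtain ⟨W, hW, hxW, h2⟩ := hz (ε / 2) (half_pos hε)
  refine ⟨U ∩ W, (BB_balg I).inter U hU W hW, ⟨hxU, hxW⟩, ?_⟩
  rw [add_mul]
  have k1 := L.norm_shrink hA hU hW y
  have k2 := L.norm_shrink' hA hU hW z
  calc _ ≤ ‖y * L.c (U ∩ W)‖ + ‖z * L.c (U ∩ W)‖ := norm_add_le _ _
    _ ≤ ε := by linarith

theorem nul_smul {x : Xs I} {z : A} (k : ℂ) (hz : L.nul x z) : L.nul x (k • z) := by
  intro ε hε
  obtain ⟨U, hU, hxU, h1⟩ := hz (ε / (‖k‖ + 1)) (by positivity)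
  refine ⟨U, hU, hxU, ?_⟩
  rw [smul_mul_assoc, norm_smul]
  calc ‖k‖ * ‖z * L.c U‖ ≤ (‖k‖ + 1) * (ε / (‖k‖ + 1)) := by
        gcongr
        linarith
    _ = ε := by field_simp

theorem nul_sub (hA : RealRankZero A) {x : Xs I} {y z : A} (hy : L.nul x y) (hz : L.nul x z) :
    L.nul x (y - z) := by
  have := L.nul_add hA hy (L.nul_smul (-1) hz)
  rwa [neg_one_smul, ← sub_eq_add_neg] at this

theorem nul_zero (x : Xs I) : L.nul x 0 := fun ε hε =>
  ⟨Set.univ, (BB_balg I).univ, Set.mem_univ x, by rw [zero_mul, norm_zero]; exact hε.le⟩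

theorem nul_mul_left {x : Xs I} {z : A} (a : A) (hz : L.nul x z) : L.nul x (a * z) := by
  intro ε hε
  obtain ⟨U, hU, hxU, h1⟩ := hz (ε / (‖a‖ + 1)) (by positivity)
  refine ⟨U, hU, hxU, ?_⟩
  rw [mul_assoc]
  calc ‖a * (z * L.c U)‖ ≤ ‖a‖ * ‖z * L.c U‖ := norm_mul_le _ _
    _ ≤ (‖a‖ + 1) * (ε / (‖a‖ + 1)) := by gcongr; linarith
    _ = ε := by field_simp

theorem nul_mul_right (hA : RealRankZero A) {x : Xs I} {z a : A} (ha : L.mem a)
    (hz : L.nul x z) : L.nul x (z * a) := by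
  intro ε hε
  obtain ⟨U, hU, hxU, h1⟩ := hz (ε / (‖a‖ + 1)) (by positivity)
  refine ⟨U, hU, hxU, ?_⟩
  rw [mul_assoc, ← L.cen hA hU ha, ← mul_assoc]
  calc ‖z * L.c U * a‖ ≤ ‖z * L.c U‖ * ‖a‖ := norm_mul_le _ _
    _ ≤ (ε / (‖a‖ + 1)) * (‖a‖ + 1) := by gcongr; linarith
    _ = ε := by field_simp

theorem nul_of_compl {x : Xs I} {U : Set (Xs I)} (hU : U ∈ BB I)
    (hx : x ∈ U) : L.nul x (L.E - L.c U) := fun ε hε =>
  ⟨U, hU, hx, by rw [sub_mul, L.Ec U hU, L.cc U hU, sub_self, norm_zero]; exact hε.le⟩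

theorem rr_of_nul (hA : RealRankZero A) {x : Xs I} {f : A} (hf : f * f = f) (hfm : L.mem f)
    (h : L.nul x f) : rr P x f = 0 := by
  obtain ⟨U, hU, hx, hn⟩ := h (1 / 2) (by norm_num)
  have hi := L.c_mul_idem hA hU hf hfm
  have h0 : f * L.c U = 0 := by
    have h1 : ‖f * L.c U‖ ≤ ‖f * L.c U‖ * ‖f * L.c U‖ := by
      conv_lhs => rw [← hi]
      exact norm_mul_le _ _
    by_contra hcon
    have h2 : 0 < ‖f * L.c U‖ := norm_pos_iff.2 hcon
    nlinarith
  rw [← L.rr_cut hA hU hf hfm hx, h0]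
  unfold rr
  rw [(kl_zero (zero_mul 0)).2 rfl, map_zero]

theorem nul_scalar (hA : RealRankZero A) {x : Xs I} {p : A} (hp : p * p = p) (hpm : L.mem p)
    (hx : rr P x p ≠ 0) {k : ℂ} (h : L.nul x (k • p)) : k = 0 := by
  by_contra hk
  have := L.nul_smul k⁻¹ h
  rw [smul_smul, inv_mul_cancel₀ hk, one_smul] at this
  exact hx (L.rr_of_nul hA hp hpm this)

open scoped ComplexOrder in
/-- evaluation of self-adjoint elements of a corner of rank one -/
theorem scalar_real (hA : RealRankZero A) {p : A} (hp : p * p = p) (hps : star p = p)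
    (hpm : L.mem p) (hr : ∀ y, rr P y p ≤ 1) {x : Xs I} (hx : rr P x p ≠ 0) {z : A}
    (hz : star z = z) (h1 : p * z = z) (h2 : z * p = z) : ∃ k : ℝ, L.nul x (z - k • p) := by
  let _ := CStarAlgebra.spectralOrder A
  have _ := CStarAlgebra.spectralOrderedRing A
  have memc : ∀ y : A, p * y = y → y * p = y → L.mem y := fun y h1 h2 =>
    ⟨by rw [← h1, ← mul_assoc, hpm.1], by rw [← h2, mul_assoc, hpm.2]⟩
  have hpos : ∀ U ∈ BB I, ∀ y : A, L.mem y → 0 ≤ y → 0 ≤ y * L.c U := by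
    intro U hU y hym hy
    have := star_left_conjugate_nonneg hy (L.c U)
    rw [L.cs U hU, L.cen hA hU hym, mul_assoc, L.cc U hU] at this
    exact this
  have hp0 : 0 ≤ p := by
    have := star_mul_self_nonneg p
    rwa [hps, hp] at this
  have hcs : ∀ k : ℝ, p * (z - k • p) = z - k • p ∧ (z - k • p) * p = z - k • p ∧
      star (z - k • p) = z - k • p := by
    intro k
    refine ⟨?_, ?_, ?_⟩
    · rw [mul_sub, mul_smul_comm, h1, hp]
    · rw [sub_mul, smul_mul_assoc, h2, hp]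
    · rw [star_sub, star_smul, hz, hps, star_trivial]
  obtain ⟨S, hS⟩ : ∃ S : Set ℝ, S = {k : ℝ | ∃ U ∈ BB I, x ∈ U ∧ 0 ≤ (z - k • p) * L.c U} :=
    ⟨_, rfl⟩
  have hS' : ∀ t : ℝ, t ∈ S ↔ ∃ U ∈ BB I, x ∈ U ∧ 0 ≤ (z - t • p) * L.c U := by
    intro t; rw [hS]; rfl
  have hne : S.Nonempty := by
    refine ⟨-‖z‖, ?_⟩
    rw [hS]
    refine ⟨Set.univ, (BB_balg I).univ, Set.mem_univ x, ?_⟩
    rw [L.c_univ hA]
    have h3 := CStarAlgebra.star_left_conjugate_le_norm_smul (a := p) (b := -z)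
      (by rw [isSelfAdjoint_iff, star_neg, hz])
    rw [hps, mul_neg, h1, neg_mul, h2, norm_neg, hp] at h3
    have h4 : (0 : A) ≤ z - (-‖z‖) • p := by
      rw [neg_smul, sub_neg_eq_add]
      have := sub_nonneg.2 h3
      rwa [sub_neg_eq_add, add_comm] at this
    have h5 : (z - (-‖z‖) • p) * L.E = z - (-‖z‖) • p :=
      (memc _ (hcs _).1 (hcs _).2.1).2
    rw [h5]
    exact h4
  have hbd : BddAbove S := by
    refine ⟨‖z‖, ?_⟩
    rintro k hk
    rw [hS] at hk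
    obtain ⟨U, hU, hxU, h3⟩ := hk
    by_contra hcon
    push Not at hcon
    have h4 := CStarAlgebra.star_left_conjugate_le_norm_smul (a := p) (b := z)
      (by rw [isSelfAdjoint_iff, hz])
    rw [hps, h1, h2, hp] at h4
    have h5 : 0 ≤ (‖z‖ • p - z) * L.c U := hpos U hU _ (memc _ (by
      rw [mul_sub, mul_smul_comm, h1, hp]) (by rw [sub_mul, smul_mul_assoc, h2, hp]))
      (sub_nonneg.2 h4)
    have h6 : 0 ≤ (‖z‖ - k) • (p * L.c U) := by
      have := add_nonneg h3 h5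
      have e : (z - k • p) * L.c U + (‖z‖ • p - z) * L.c U = (‖z‖ - k) • (p * L.c U) := by
        rw [← add_mul, sub_smul, ← smul_mul_assoc, ← smul_mul_assoc, ← sub_mul]
        congr 1
        abel
      rwa [e] at this
    have h7 : (0 : A) ≤ p * L.c U := hpos U hU p hpm hp0
    have h8 : p * L.c U ≤ 0 := by
      have := smul_nonneg (inv_nonneg.2 (sub_nonneg.2 hcon.le)) h6
      rw [smul_smul] at this
      have e : (k - ‖z‖)⁻¹ * (‖z‖ - k) = -1 := by
        have : k - ‖z‖ ≠ 0 := by linarith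
        field_simp
        ring
      rw [e, neg_one_smul] at this
      exact neg_nonneg.1 this
    have h9 : p * L.c U = 0 := le_antisymm h8 h7
    apply hx
    rw [← L.rr_cut hA hU hp hpm hxU, h9]
    unfold rr
    rw [(kl_zero (zero_mul 0)).2 rfl, map_zero]
  refine ⟨sSup S, ?_⟩
  intro ε' hε'
  obtain ⟨ε, hε, hεε⟩ : ∃ ε : ℝ, 0 < ε ∧ 4 * ε = ε' := ⟨ε' / 4, by positivity, by ring⟩
  obtain ⟨k, hkS, hk⟩ := exists_lt_of_lt_csSup hne (show sSup S - ε < sSup S by linarith)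
  have hk' : k ≤ sSup S := le_csSup hbd hkS
  have hnot : sSup S + ε ∉ S := fun h => by
    have := le_csSup hbd h
    linarith
  rw [hS] at hkS
  obtain ⟨U, hU, hxU, h3⟩ := hkS
  obtain ⟨y, hy⟩ : ∃ y : A, y = z - (sSup S + ε) • p := ⟨_, rfl⟩
  obtain ⟨hy1, hy2, hys⟩ := hcs (sSup S + ε)
  rw [← hy] at hy1 hy2 hys
  have hdec : y⁺ - y⁻ = y := CFC.posPart_sub_negPart _ hys
  have hps' : star y⁺ = y⁺ := (IsSelfAdjoint.of_nonneg (CFC.posPart_nonneg y)).star_eq
  have hns' : star y⁻ = y⁻ := (IsSelfAdjoint.of_nonneg (CFC.negPart_nonneg y)).star_eq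
  have hpn : y⁺ * y⁻ = 0 := CFC.posPart_mul_negPart y
  have hnp : y⁻ * y⁺ = 0 := CFC.negPart_mul_posPart y
  have ap : p * y⁺ = y⁺ := Pool.Agent.H494R3.LD.absorb hps hy1 hps' hdec.symm hnp
  have an : p * y⁻ = y⁻ := by
    have hneg : -y = y⁻ - y⁺ := by
      calc -y = -(y⁺ - y⁻) := by rw [hdec]
        _ = y⁻ - y⁺ := neg_sub _ _
    exact Pool.Agent.H494R3.LD.absorb (y := -y) (n := y⁺) hps (by rw [mul_neg, hy1]) hns' hneg hpn
  have ap' : y⁺ * p = y⁺ := by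
    have := congrArg star ap
    rwa [star_mul, hps', hps] at this
  have an' : y⁻ * p = y⁻ := by
    have := congrArg star an
    rwa [star_mul, hns', hps] at this
  obtain ⟨f, w, hff, hfs, hfw, hfn⟩ := Pool.Agent.H413.NK.hp hA y⁺ ε hε
  have hpf : p * f = f := by rw [hfw, ← mul_assoc, ap]
  have hfp : f * p = f := by
    have := congrArg star hpf
    rwa [star_mul, hfs, hps] at this
  obtain ⟨U', hU', hfU⟩ := L.rank_one_sub hA hp hpm hr hff hpf hfp
  have hmp : L.mem y⁺ := memc _ ap ap'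
  have hmn : L.mem y⁻ := memc _ an an'
  have hxU' : x ∉ U' := by
    intro hxU'
    apply hnot
    refine (hS' _).2 ⟨U', hU', hxU', ?_⟩
    rw [← hy]
    have k1 : f * y⁻ = 0 := by
      have : f = star w * y⁺ := by rw [← hfs, hfw, star_mul, hps']
      rw [this, mul_assoc, hpn, mul_zero]
    have k2 : y⁻ * L.c U' = 0 := by
      rw [← L.cen hA hU' hmn, ← an, ← mul_assoc, L.cen hA hU' hpm, ← hfU, k1]
    have k3 : y * L.c U' = y⁺ * L.c U' := by
      calc y * L.c U' = (y⁺ - y⁻) * L.c U' := by rw [hdec]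
        _ = _ := by rw [sub_mul, k2, sub_zero]
    rw [k3]
    exact hpos U' hU' _ hmp (CFC.posPart_nonneg y)
  have hU'' := (BB_balg I).compl U' hU'
  have k1 : ‖y⁺ * L.c U'ᶜ‖ ≤ ε := by
    have e1 : f * y⁺ * L.c U'ᶜ = 0 := by
      rw [hfU, ← L.cen hA hU' hpm, mul_assoc (L.c U'), ap, mul_assoc, ← L.cen hA hU'' hmp,
        ← mul_assoc, L.c_inter hA hU' hU'', Set.inter_compl_self, L.c_empty, zero_mul]
    have e2 : y⁺ * L.c U'ᶜ = (y⁺ - f * y⁺) * L.c U'ᶜ := by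
      rw [sub_mul, e1, sub_zero]
    rw [e2]
    exact (L.norm_mul_c hU'' _).trans hfn
  have hW := (BB_balg I).inter U hU _ hU''
  refine ⟨U ∩ U'ᶜ, hW, ⟨hxU, hxU'⟩, ?_⟩
  have e3 : 0 ≤ (z - k • p) * L.c (U ∩ U'ᶜ) := by
    rw [← L.c_inter hA hU hU'', ← mul_assoc]
    exact hpos _ hU'' _ (L.mem_mul (memc _ (hcs k).1 (hcs k).2.1) (L.mem_c hU)) h3
  have e4 : (z - k • p) * L.c (U ∩ U'ᶜ) ≤ y⁺ * L.c (U ∩ U'ᶜ) +
      (sSup S + ε - k) • (p * L.c (U ∩ U'ᶜ)) := by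
    have e5 : y⁺ * L.c (U ∩ U'ᶜ) + (sSup S + ε - k) • (p * L.c (U ∩ U'ᶜ)) -
        (z - k • p) * L.c (U ∩ U'ᶜ) = y⁻ * L.c (U ∩ U'ᶜ) := by
      have e6 : y⁺ = y + y⁻ := by rw [← sub_eq_iff_eq_add]; exact hdec
      rw [e6, hy, ← smul_mul_assoc, ← add_mul, ← sub_mul]
      congr 1
      rw [sub_smul]
      abel
    rw [← sub_nonneg, e5]
    exact hpos _ hW _ hmn (CFC.negPart_nonneg y)
  have e7 := CStarAlgebra.norm_le_norm_of_nonneg_of_le e3 e4
  have e8 : ‖y⁺ * L.c (U ∩ U'ᶜ)‖ ≤ ε := (L.norm_shrink' hA hU hU'' _).trans k1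
  have e9 : ‖p * L.c (U ∩ U'ᶜ)‖ ≤ 1 := (L.norm_mul_c hW p).trans (proj_norm hp hps)
  have e10 : ‖(sSup S + ε - k) • (p * L.c (U ∩ U'ᶜ))‖ ≤ 2 * ε := by
    rw [norm_smul, Real.norm_of_nonneg (by linarith)]
    nlinarith [norm_nonneg (p * L.c (U ∩ U'ᶜ))]
  have e11 : ‖(z - k • p) * L.c (U ∩ U'ᶜ)‖ ≤ 3 * ε := by
    calc _ ≤ _ := e7
      _ ≤ ‖y⁺ * L.c (U ∩ U'ᶜ)‖ + ‖(sSup S + ε - k) • (p * L.c (U ∩ U'ᶜ))‖ := norm_add_le _ _
      _ ≤ 3 * ε := by linarith
  have e12 : (z - sSup S • p) * L.c (U ∩ U'ᶜ) = (z - k • p) * L.c (U ∩ U'ᶜ) -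
      (sSup S - k) • (p * L.c (U ∩ U'ᶜ)) := by
    rw [← smul_mul_assoc, ← sub_mul]
    congr 1
    rw [sub_smul]
    abel
  rw [e12]
  have e13 : ‖(sSup S - k) • (p * L.c (U ∩ U'ᶜ))‖ ≤ ε := by
    rw [norm_smul, Real.norm_of_nonneg (by linarith)]
    nlinarith [norm_nonneg (p * L.c (U ∩ U'ᶜ))]
  calc _ ≤ ‖(z - k • p) * L.c (U ∩ U'ᶜ)‖ + ‖(sSup S - k) • (p * L.c (U ∩ U'ᶜ))‖ :=
        norm_sub_le _ _
    _ ≤ ε' := by linarith

theorem scalar (hA : RealRankZero A) {p : A} (hp : p * p = p) (hps : star p = p)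
    (hpm : L.mem p) (hr : ∀ y, rr P y p ≤ 1) {x : Xs I} (hx : rr P x p ≠ 0) {z : A}
    (h1 : p * z = z) (h2 : z * p = z) : ∃ k : ℂ, L.nul x (z - k • p) := by
  have hsz : star z * p = star z := by
    have := congrArg star h1
    rwa [star_mul, hps] at this
  have hsz' : p * star z = star z := by
    have := congrArg star h2
    rwa [star_mul, hps] at this
  obtain ⟨c, hc⟩ := L.scalar_real hA hp hps hpm hr hx (z := z + star z)
    (by rw [star_add, star_star, add_comm]) (by rw [mul_add, h1, hsz'])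
    (by rw [add_mul, h2, hsz])
  obtain ⟨d, hd⟩ := L.scalar_real hA hp hps hpm hr hx (z := Complex.I • (z - star z))
    (by
      rw [star_smul, star_sub, star_star]
      simp only [Complex.star_def, Complex.conj_I]
      rw [neg_smul, ← smul_neg, neg_sub])
    (by rw [mul_smul_comm, mul_sub, h1, hsz'])
    (by rw [smul_mul_assoc, sub_mul, h2, hsz])
  refine ⟨((c : ℂ) - Complex.I * d) / 2, ?_⟩
  have h3 := L.nul_add hA (L.nul_smul (1 / 2) hc) (L.nul_smul (-Complex.I / 2) hd)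
  have h4 : z - (((c : ℂ) - Complex.I * d) / 2) • p = (1 / 2 : ℂ) • (z + star z - c • p) +
      (-Complex.I / 2) • (Complex.I • (z - star z) - d • p) := by
    rw [show (c • p : A) = (c : ℂ) • p from (Complex.coe_smul c p).symm,
      show (d • p : A) = (d : ℂ) • p from (Complex.coe_smul d p).symm]
    rw [smul_sub, smul_sub, smul_smul, smul_smul, smul_smul]
    have e : -Complex.I / 2 * Complex.I = 1 / 2 := by
      rw [div_mul_eq_mul_div, neg_mul, Complex.I_mul_I, neg_neg]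
    rw [e]
    module
  rw [h4]
  exact h3

end Loc

end Pool.Agent.H413.NK
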