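import Pool.Agent.H413.NK.Ev

set_option autoImplicit false

/-!
Evaluation homomorphisms to the two by two matrices.
-/

namespace Pool.Agent.H413.NK

open Pool.Agent.Y78.NK Pool.Agent.H494R3.NK

universe u

variable {I : Type} {A : Type u} [NonUnitalCStarAlgebra A] {P : Pat I (VV A)}

/-- matrix units near a point -/
structure Frame (L : Loc P) (x : Xs I) where
  p : A
  pp : p * p = p
  ps : star p = p
  pm : L.mem p
  pr : ∀ y, rr P y p ≤ 1
  px : rr P x p ≠ 0
  w : Fin 2 → A
  w' : Fin 2 → A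
  wm : ∀ a, L.mem (w a)
  wm' : ∀ a, L.mem (w' a)
  ww : ∀ a b, w' a * w b = if a = b then p else 0
  wp : ∀ a, w a * p = w a
  pw : ∀ a, p * w' a = w' a
  W : Set (Xs I)
  WB : W ∈ BB I
  xW : x ∈ W
  sum : w 0 * w' 0 + w 1 * w' 1 = L.c W

namespace Frame

variable {L : Loc P} {x : Xs I} (F : Frame L x)

theorem exists_val (hA : RealRankZero A) (z : A) (a b : Fin 2) :
    ∃ k : ℂ, L.nul x (F.w' a * z * F.w b - k • F.p) :=
  L.scalar hA F.pp F.ps F.pm F.pr F.px
    (by rw [← mul_assoc, ← mul_assoc, F.pw]) (by rw [mul_assoc, F.wp])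

/-- the matrix of an element -/
noncomputable def mat (z : A) : M2 := fun a b =>
  open Classical in if h : ∃ k : ℂ, L.nul x (F.w' a * z * F.w b - k • F.p) then h.choose else 0

theorem mat_spec (hA : RealRankZero A) (z : A) (a b : Fin 2) :
    L.nul x (F.w' a * z * F.w b - F.mat z a b • F.p) := by
  unfold mat
  rw [dif_pos (F.exists_val hA z a b)]
  exact (F.exists_val hA z a b).choose_spec

theorem mat_unique (hA : RealRankZero A) {z : A} {a b : Fin 2} {k : ℂ}
    (h : L.nul x (F.w' a * z * F.w b - k • F.p)) : F.mat z a b = k := by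
  have h1 := L.nul_sub hA h (F.mat_spec hA z a b)
  have h2 : F.w' a * z * F.w b - k • F.p - (F.w' a * z * F.w b - F.mat z a b • F.p) =
      (F.mat z a b - k) • F.p := by
    rw [sub_smul]; abel
  rw [h2] at h1
  exact sub_eq_zero.1 (L.nul_scalar hA F.pp F.pm F.px h1)

theorem mat_add (hA : RealRankZero A) (y z : A) : F.mat (y + z) = F.mat y + F.mat z := by
  ext a b
  apply F.mat_unique hA
  have h := L.nul_add hA (F.mat_spec hA y a b) (F.mat_spec hA z a b)
  have e : F.w' a * (y + z) * F.w b - (F.mat y + F.mat z) a b • F.p =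
      F.w' a * y * F.w b - F.mat y a b • F.p + (F.w' a * z * F.w b - F.mat z a b • F.p) := by
    rw [Matrix.add_apply, add_smul, mul_add, add_mul]; abel
  rw [e]
  exact h

theorem mat_smul (hA : RealRankZero A) (k : ℂ) (z : A) : F.mat (k • z) = k • F.mat z := by
  ext a b
  apply F.mat_unique hA
  have h := L.nul_smul k (F.mat_spec hA z a b)
  have e : F.w' a * (k • z) * F.w b - (k • F.mat z) a b • F.p =
      k • (F.w' a * z * F.w b - F.mat z a b • F.p) := by
    rw [Matrix.smul_apply, smul_eq_mul, mul_smul, smul_sub, mul_smul_comm, smul_mul_assoc]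
  rw [e]
  exact h

theorem mat_sub (hA : RealRankZero A) (y z : A) : F.mat (y - z) = F.mat y - F.mat z := by
  have h : y - z = y + (-1 : ℂ) • z := by rw [neg_one_smul, sub_eq_add_neg]
  rw [h, F.mat_add hA, F.mat_smul hA, neg_one_smul, sub_eq_add_neg]

theorem mat_E (hA : RealRankZero A) : F.mat L.E = 1 := by
  ext a b
  apply F.mat_unique hA
  have e : F.w' a * L.E * F.w b = F.w' a * F.w b := by rw [(F.wm' a).2]
  rw [e, F.ww, Matrix.one_apply]
  split_ifs
  · rw [one_smul, sub_self]; exact L.nul_zero x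
  · rw [zero_smul, sub_self]; exact L.nul_zero x

theorem mat_mul (hA : RealRankZero A) {y z : A} (hy : L.mem y) (hz : L.mem z) :
    F.mat (y * z) = F.mat y * F.mat z := by
  ext a b
  apply F.mat_unique hA
  rw [Matrix.mul_apply, Fin.sum_univ_two]
  have h0 := L.nul_mul_right hA (L.mem_mul hz (F.wm b))
    (L.nul_mul_left (F.w' a * y) (L.nul_of_compl F.WB F.xW))
  have hk : ∀ k : Fin 2, L.nul x ((F.w' a * y * F.w k) * (F.w' k * z * F.w b) -
      (F.mat y a k * F.mat z k b) • F.p) := by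
    intro k
    have h1 := L.nul_mul_right hA (L.mem_mul (L.mem_mul (F.wm' k) hz) (F.wm b))
      (F.mat_spec hA y a k)
    have h2 := L.nul_mul_left (F.mat y a k • F.p) (F.mat_spec hA z k b)
    have h3 := L.nul_add hA h1 h2
    have e : (F.w' a * y * F.w k - F.mat y a k • F.p) * (F.w' k * z * F.w b) +
        F.mat y a k • F.p * (F.w' k * z * F.w b - F.mat z k b • F.p) =
        (F.w' a * y * F.w k) * (F.w' k * z * F.w b) -
          (F.mat y a k * F.mat z k b) • F.p := by
      rw [sub_mul, mul_sub, smul_mul_smul_comm, F.pp]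
      abel
    rwa [e] at h3
  have h4 := L.nul_add hA h0 (L.nul_add hA (hk 0) (hk 1))
  have e : F.w' a * y * (L.E - L.c F.W) * (z * F.w b) +
      ((F.w' a * y * F.w 0) * (F.w' 0 * z * F.w b) - (F.mat y a 0 * F.mat z 0 b) • F.p +
        ((F.w' a * y * F.w 1) * (F.w' 1 * z * F.w b) - (F.mat y a 1 * F.mat z 1 b) • F.p)) =
      F.w' a * (y * z) * F.w b -
        (F.mat y a 0 * F.mat z 0 b + F.mat y a 1 * F.mat z 1 b) • F.p := by
    rw [← F.sum, mul_sub, mul_assoc (F.w' a) y L.E, hy.2, sub_mul, add_smul, mul_add, add_mul]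
    simp only [mul_assoc]
    abel
  rwa [e] at h4

theorem nul_of_mat (hA : RealRankZero A) {z : A} (hz : L.mem z) {k : ℂ}
    (h : F.mat z = k • (1 : M2)) : L.nul x (z - k • L.E) := by
  have hw : ∀ a b, L.nul x (F.w a * (F.w' a * (z - k • L.E) * F.w b) * F.w' b) := by
    intro a b
    refine L.nul_mul_right hA (F.wm' b) (L.nul_mul_left (F.w a) ?_)
    have h1 := F.mat_spec hA z a b
    rw [h, Matrix.smul_apply, Matrix.one_apply, smul_eq_mul] at h1
    have e : F.w' a * (z - k • L.E) * F.w b = F.w' a * z * F.w b -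
        (k * if a = b then 1 else 0) • F.p := by
      rw [mul_sub, sub_mul, mul_smul_comm, (F.wm' a).2, smul_mul_assoc, F.ww]
      congr 1
      split_ifs
      · rw [mul_one]
      · rw [mul_zero, zero_smul, smul_zero]
    rwa [e]
  have h2 := L.nul_add hA (L.nul_add hA (hw 0 0) (hw 0 1)) (L.nul_add hA (hw 1 0) (hw 1 1))
  have e : F.w 0 * (F.w' 0 * (z - k • L.E) * F.w 0) * F.w' 0 +
      F.w 0 * (F.w' 0 * (z - k • L.E) * F.w 1) * F.w' 1 +
      (F.w 1 * (F.w' 1 * (z - k • L.E) * F.w 0) * F.w' 0 +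
      F.w 1 * (F.w' 1 * (z - k • L.E) * F.w 1) * F.w' 1) =
      L.c F.W * (z - k • L.E) * L.c F.W := by
    rw [← F.sum]
    simp only [mul_add, add_mul, mul_assoc]
    abel
  rw [e] at h2
  have hm : L.mem (z - k • L.E) := L.mem_sub hz (L.mem_smul k L.mem_E)
  intro ε hε
  obtain ⟨U, hU, hxU, hn⟩ := h2 ε hε
  refine ⟨U ∩ F.W, (BB_balg I).inter U hU _ F.WB, ⟨hxU, F.xW⟩, ?_⟩
  have e2 : (z - k • L.E) * L.c (U ∩ F.W) =
      L.c F.W * (z - k • L.E) * L.c F.W * L.c U := by
    rw [L.cen hA F.WB hm, mul_assoc (z - k • L.E), L.cc _ F.WB, mul_assoc,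
      L.c_inter hA F.WB hU, Set.inter_comm]
  rw [e2]
  exact hn

theorem trace_idem {Q : M2} (hQ : Q * Q = Q) (h0 : Q ≠ 0) (h1 : Q ≠ 1) : Q.trace = 1 := by
  have hdet : Q.det = 0 := by
    have h2 : Q.det * Q.det = Q.det := by rw [← Matrix.det_mul, hQ]
    by_contra hcon
    have hu : IsUnit Q.det := isUnit_iff_ne_zero.2 hcon
    apply h1
    calc Q = Q⁻¹ * (Q * Q) := by rw [← mul_assoc, Matrix.nonsing_inv_mul Q hu, one_mul]
      _ = 1 := by rw [hQ, Matrix.nonsing_inv_mul Q hu]
  have h3 : Q * Q = Q.trace • Q := by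
    rw [Matrix.det_fin_two] at hdet
    rw [Matrix.trace_fin_two]
    apply m2_ext <;> simp only [mul00, mul01, mul10, mul11, Matrix.smul_apply, smul_eq_mul]
    · linear_combination (-1 : ℂ) * hdet
    · ring
    · ring
    · linear_combination (-1 : ℂ) * hdet
  have h4 : (1 - Q.trace) • Q = 0 := by rw [sub_smul, one_smul, ← h3, hQ, sub_self]
  rcases smul_eq_zero.1 h4 with h5 | h5
  · exact (sub_eq_zero.1 h5).symm
  · exact absurd h5 h0

theorem mat_idem_trace (hA : RealRankZero A) {f : A} (hf : f * f = f) (hfm : L.mem f)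
    (h1 : rr P x f ≠ 0) (h2 : rr P x (L.E - f) ≠ 0) : (F.mat f).trace = 1 := by
  apply trace_idem
  · rw [← F.mat_mul hA hfm hfm, hf]
  · intro h
    have h3 := F.nul_of_mat hA hfm (k := 0) (by rw [h, zero_smul])
    rw [zero_smul, sub_zero] at h3
    exact h1 (L.rr_of_nul hA hf hfm h3)
  · intro h
    have h3 := F.nul_of_mat hA hfm (k := 1) (by rw [h, one_smul])
    rw [one_smul] at h3
    have h4 := L.nul_smul (-1) h3
    rw [neg_one_smul, neg_sub] at h4
    exact h2 (L.rr_of_nul hA (L.compl_idem hf hfm) (L.mem_sub L.mem_E hfm) h4)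

end Frame

/-! ### the generators -/

/-- the set where the sign is nonzero -/
def Us (k : Fin 3) (i : I) : Set (Xs I) := {x | x (k, i) ≠ 0}

theorem Us_mem (k : Fin 3) (i : I) : Us k i ∈ BB I := by
  refine ⟨?_, fun l x => ?_⟩
  · have h : IsClopen ({0}ᶜ : Set SignType) := isClopen_discrete _
    exact h.preimage (continuous_apply (k, i))
  · exact not_congr (flp_zero_iff l k x i)

theorem exists_gen (L : Loc P) (k : Fin 3) (i : I) :
    ∃ p q : A, (p * p = p ∧ star p = p ∧ L.mem p) ∧ (q * q = q ∧ star q = q ∧ L.mem q) ∧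
      p * q = 0 ∧ q * p = 0 ∧ p + q = L.c (Us k i) ∧ kl p = P.res L.N (P.al k i) ∧
      kl q = P.res L.N (P.be k i) := by
  have hU := Us_mem k i
  have hkc : kl (L.c (Us k i)) = P.res L.N (P.al k i) + P.res L.N (P.be k i) := by
    rw [L.kc _ hU, L.kE]
    apply P.inj
    · intro x
      rw [map_add]
      by_cases hx : x ∈ Us k i
      · rw [P.r_res _ hU x _ hx]
        by_cases hxN : x ∈ L.N
        · rw [P.r_res _ L.NB x _ hxN, P.r_res _ L.NB x _ hxN, P.r_res _ L.NB x _ hxN, P.r_u,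
            P.r_al k i x hx, P.r_be k i x hx]
        · rw [P.r_res' _ L.NB x _ hxN, P.r_res' _ L.NB x _ hxN, P.r_res' _ L.NB x _ hxN]
      · rw [P.r_res' _ hU x _ hx]
        have hx0 : x (k, i) = 0 := by
          by_contra h
          exact hx h
        by_cases hxN : x ∈ L.N
        · rw [P.r_res _ L.NB x _ hxN, P.r_res _ L.NB x _ hxN, P.r_al' k i x hx0, P.r_be' k i x hx0]
        · rw [P.r_res' _ L.NB x _ hxN, P.r_res' _ L.NB x _ hxN]
    · intro l x hl
      rw [map_add]
      by_cases hx : x ∈ Us k i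
      · have hkl : k = l := by
          by_contra h
          exact hx (hl k h i)
        subst hkl
        rw [P.a_res _ hU k x _ hl hx]
        by_cases hxN : x ∈ L.N
        · rw [P.a_res _ L.NB k x _ hl hxN, P.a_res _ L.NB k x _ hl hxN,
            P.a_res _ L.NB k x _ hl hxN, P.a_u k x hl]
          have hpm : x (k, i) = 1 ∨ x (k, i) = -1 := by
            have h : x (k, i) ≠ 0 := hx
            revert h
            generalize x (k, i) = s
            revert s
            decide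
          rcases hpm with h | h
          · rw [P.a_al k i x hl h, P.a_be' k i x hl h]
          · rw [P.a_al' k i x hl h, P.a_be k i x hl h]
        · rw [P.a_res' _ L.NB k x _ hl hxN, P.a_res' _ L.NB k x _ hl hxN,
            P.a_res' _ L.NB k x _ hl hxN]
      · rw [P.a_res' _ hU l x _ hl hx]
        have hx0 : x (k, i) = 0 := by
          by_contra h
          exact hx h
        have h1 : P.a l x (P.al k i) = 0 := by
          have := P.a_le hl (P.al k i)
          rw [P.r_al' k i x hx0] at this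
          omega
        have h2 : P.a l x (P.be k i) = 0 := by
          have := P.a_le hl (P.be k i)
          rw [P.r_be' k i x hx0] at this
          omega
        by_cases hxN : x ∈ L.N
        · rw [P.a_res _ L.NB l x _ hl hxN, P.a_res _ L.NB l x _ hl hxN, h1, h2]
        · rw [P.a_res' _ L.NB l x _ hl hxN, P.a_res' _ L.NB l x _ hl hxN]
  obtain ⟨p, hpp, hps, h1, h2, hkp⟩ := exists_sub (L.cc _ hU) (L.cs _ hU)
    (v := P.res L.N (P.al k i)) ⟨_, hkc.symm⟩
  have hpm : L.mem p := ⟨by rw [← h1, ← mul_assoc, L.Ec _ hU], by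
    rw [← h2, mul_assoc, L.cE _ hU]⟩
  refine ⟨p, L.c (Us k i) - p, ⟨hpp, hps, hpm⟩, ⟨?_, ?_, L.mem_sub (L.mem_c hU) hpm⟩, ?_, ?_, ?_,
    hkp, ?_⟩
  · rw [mul_sub, sub_mul, sub_mul, h1, h2, hpp, L.cc _ hU, sub_self, sub_zero]
  · rw [star_sub, hps, L.cs _ hU]
  · rw [mul_sub, h2, hpp, sub_self]
  · rw [sub_mul, h1, hpp, sub_self]
  · abel
  · have hqq : (L.c (Us k i) - p) * (L.c (Us k i) - p) = L.c (Us k i) - p := by
      rw [mul_sub, sub_mul, sub_mul, h1, h2, hpp, L.cc _ hU, sub_self, sub_zero]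
    have h3 := kl_add hqq hpp (by rw [sub_mul, h1, hpp, sub_self])
      (by rw [mul_sub, h2, hpp, sub_self])
    rw [sub_add_cancel, hkc, hkp] at h3
    apply P.cancel (c := P.res L.N (P.al k i))
    rw [← h3, add_comm]

/-- the generators of the corner -/
structure Gens (L : Loc P) where
  p : Fin 3 → I → A
  q : Fin 3 → I → A
  pp : ∀ k i, p k i * p k i = p k i
  qq : ∀ k i, q k i * q k i = q k i
  ps : ∀ k i, star (p k i) = p k i
  qs : ∀ k i, star (q k i) = q k i
  pm : ∀ k i, L.mem (p k i)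
  qm : ∀ k i, L.mem (q k i)
  pq : ∀ k i, p k i * q k i = 0
  qp : ∀ k i, q k i * p k i = 0
  add : ∀ k i, p k i + q k i = L.c (Us k i)
  kp : ∀ k i, kl (p k i) = P.res L.N (P.al k i)
  kq : ∀ k i, kl (q k i) = P.res L.N (P.be k i)

theorem exists_gens (L : Loc P) : Nonempty (Gens L) := by
  choose p q h1 h2 h3 h4 h5 h6 h7 using exists_gen L
  exact ⟨⟨p, q, fun k i => (h1 k i).1, fun k i => (h2 k i).1, fun k i => (h1 k i).2.1,
    fun k i => (h2 k i).2.1, fun k i => (h1 k i).2.2, fun k i => (h2 k i).2.2, h3, h4, h5, h6,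
    h7⟩⟩

namespace Gens

variable {L : Loc P} (G : Gens L)

theorem rr_p {k : Fin 3} {i : I} {x : Xs I} (hx : x ∈ L.N) (h : x (k, i) ≠ 0) :
    rr P x (G.p k i) = 1 := by
  unfold rr
  rw [G.kp, P.r_res _ L.NB x _ hx, P.r_al k i x h]

theorem rr_q {k : Fin 3} {i : I} {x : Xs I} (hx : x ∈ L.N) (h : x (k, i) ≠ 0) :
    rr P x (G.q k i) = 1 := by
  unfold rr
  rw [G.kq, P.r_res _ L.NB x _ hx, P.r_be k i x h]

theorem rr_p_le (k : Fin 3) (i : I) (x : Xs I) : rr P x (G.p k i) ≤ 1 := by
  unfold rr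
  rw [G.kp]
  by_cases hx : x ∈ L.N
  · rw [P.r_res _ L.NB x _ hx]
    by_cases h : x (k, i) = 0
    · rw [P.r_al' k i x h]; omega
    · rw [P.r_al k i x h]
  · rw [P.r_res' _ L.NB x _ hx]; omega

theorem rr_q_le (k : Fin 3) (i : I) (x : Xs I) : rr P x (G.q k i) ≤ 1 := by
  unfold rr
  rw [G.kq]
  by_cases hx : x ∈ L.N
  · rw [P.r_res _ L.NB x _ hx]
    by_cases h : x (k, i) = 0
    · rw [P.r_be' k i x h]; omega
    · rw [P.r_be k i x h]
  · rw [P.r_res' _ L.NB x _ hx]; omega

theorem rr_p_out {k : Fin 3} {i : I} {x : Xs I} (hx : x ∉ L.N) : rr P x (G.p k i) = 0 := by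
  unfold rr
  rw [G.kp, P.r_res' _ L.NB x _ hx]

theorem rr_q_out {k : Fin 3} {i : I} {x : Xs I} (hx : x ∉ L.N) : rr P x (G.q k i) = 0 := by
  unfold rr
  rw [G.kq, P.r_res' _ L.NB x _ hx]

include G in
/-- frames exist at points with signs of two kinds -/
theorem exists_frame (hA : RealRankZero A) {x : Xs I} (hxN : x ∈ L.N) {k l : Fin 3} {i j : I}
    (hkl : k ≠ l) (hi : x (k, i) ≠ 0) (hj : x (l, j) ≠ 0) : Nonempty (Frame L x) := by
  obtain ⟨W, hW⟩ : ∃ W : Set (Xs I), W = Us k i ∩ Us l j := ⟨_, rfl⟩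
  have hWB : W ∈ BB I := hW ▸ (BB_balg I).inter _ (Us_mem k i) _ (Us_mem l j)
  have hxW : x ∈ W := hW ▸ ⟨hi, hj⟩
  obtain ⟨p, hp⟩ : ∃ p, p = G.p k i * L.c W := ⟨_, rfl⟩
  obtain ⟨q, hq⟩ : ∃ q, q = G.q k i * L.c W := ⟨_, rfl⟩
  have hpp : p * p = p := hp ▸ L.c_mul_idem hA hWB (G.pp k i) (G.pm k i)
  have hqq : q * q = q := hq ▸ L.c_mul_idem hA hWB (G.qq k i) (G.qm k i)
  have hpm : L.mem p := hp ▸ L.mem_mul (G.pm k i) (L.mem_c hWB)
  have hqm : L.mem q := hq ▸ L.mem_mul (G.qm k i) (L.mem_c hWB)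
  have hps : star p = p := by
    rw [hp, star_mul, L.cs _ hWB, G.ps, L.cen hA hWB (G.pm k i)]
  have hrp : ∀ y, y ∈ W → rr P y p = rr P y (G.p k i) := fun y hy => by
    rw [hp]; exact L.rr_cut hA hWB (G.pp k i) (G.pm k i) hy
  have hrq : ∀ y, y ∈ W → rr P y q = rr P y (G.q k i) := fun y hy => by
    rw [hq]; exact L.rr_cut hA hWB (G.qq k i) (G.qm k i) hy
  have hrp' : ∀ y, y ∉ W → rr P y p = 0 := fun y hy => by
    rw [hp]; exact L.rr_cut' hWB (L.c_mul_idem hA hWB (G.pp k i) (G.pm k i)) hy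
  have hrq' : ∀ y, y ∉ W → rr P y q = 0 := fun y hy => by
    rw [hq]; exact L.rr_cut' hWB (L.c_mul_idem hA hWB (G.qq k i) (G.qm k i)) hy
  have hkl' : kl p = kl q := by
    apply P.inj
    · intro y
      show rr P y p = rr P y q
      by_cases hy : y ∈ W
      · rw [hrp y hy, hrq y hy]
        have hy' : y ∈ Us k i ∩ Us l j := hW ▸ hy
        by_cases hyN : y ∈ L.N
        · rw [G.rr_p hyN hy'.1, G.rr_q hyN hy'.1]
        · rw [G.rr_p_out hyN, G.rr_q_out hyN]
      · rw [hrp' y hy, hrq' y hy]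
    · intro m y hm
      have hyW : y ∉ W := by
        intro hy
        have hy' : y ∈ Us k i ∩ Us l j := hW ▸ hy
        have h1 : k = m := by
          by_contra h
          exact hy'.1 (hm k h i)
        have h2 : l = m := by
          by_contra h
          exact hy'.2 (hm l h j)
        exact hkl (h1.trans h2.symm)
      have h1 := P.a_le hm (kl p)
      have h2 := P.a_le hm (kl q)
      have h3 : P.r y (kl p) = 0 := hrp' y hyW
      have h4 : P.r y (kl q) = 0 := hrq' y hyW
      omega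
  obtain ⟨s, t, h1, h2, h3, h4, h5, h6⟩ := kl_eq_iff hpp hqq hkl'
  have hpq : p * q = 0 := by
    rw [hp, hq]
    calc G.p k i * L.c W * (G.q k i * L.c W) = G.p k i * (L.c W * G.q k i) * L.c W := by
          simp only [mul_assoc]
      _ = (G.p k i * G.q k i) * (L.c W * L.c W) := by
          rw [L.cen hA hWB (G.qm k i)]; simp only [mul_assoc]
      _ = 0 := by rw [G.pq, zero_mul]
  have hqp : q * p = 0 := by
    rw [hp, hq]
    calc G.q k i * L.c W * (G.p k i * L.c W) = G.q k i * (L.c W * G.p k i) * L.c W := by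
          simp only [mul_assoc]
      _ = (G.q k i * G.p k i) * (L.c W * L.c W) := by
          rw [L.cen hA hWB (G.pm k i)]; simp only [mul_assoc]
      _ = 0 := by rw [G.qp, zero_mul]
  have hsm : L.mem s := ⟨by rw [← h3, ← mul_assoc, hpm.1], by rw [← h4, mul_assoc, hqm.2]⟩
  have htm : L.mem t := ⟨by rw [← h5, ← mul_assoc, hqm.1], by rw [← h6, mul_assoc, hpm.2]⟩
  refine ⟨{ p := p
            pp := hpp
            ps := hps
            pm := hpm
            pr := ?_
            px := ?_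
            w := ![p, t]
            w' := ![p, s]
            wm := ?_
            wm' := ?_
            ww := ?_
            wp := ?_
            pw := ?_
            W := W
            WB := hWB
            xW := hxW
            sum := ?_ }⟩
  · intro y
    by_cases hy : y ∈ W
    · rw [hrp y hy]; exact G.rr_p_le k i y
    · rw [hrp' y hy]; omega
  · rw [hrp x hxW, G.rr_p hxN hi]
    exact one_ne_zero
  · intro a
    fin_cases a
    · exact hpm
    · exact htm
  · intro a
    fin_cases a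
    · exact hpm
    · exact hsm
  · intro a b
    fin_cases a <;> fin_cases b
    · exact hpp
    · show p * t = _
      rw [← h5, ← mul_assoc, hpq, zero_mul]
      rfl
    · show s * p = _
      rw [← h4, mul_assoc, hqp, mul_zero]
      rfl
    · exact h1
  · intro a
    fin_cases a
    · exact hpp
    · exact h6
  · intro a
    fin_cases a
    · exact hpp
    · exact h3
  · show p * p + t * s = L.c W
    rw [hpp, h2, hp, hq, ← add_mul, G.add, L.c_inter hA (Us_mem k i) hWB]
    congr 1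
    rw [hW]
    ext y
    exact ⟨fun h => h.2, fun h => ⟨h.1, h⟩⟩

end Gens

end Pool.Agent.H413.NK
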