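import Mathlib

set_option autoImplicit false

/-!
Kuratowski's free set theorem: on a set of cardinality at least `ℵ_n`, every set mapping from finite
subsets to finite subsets has a free set with `n + 1` elements.
-/

namespace Pool.Agent.H413.NK

open Cardinal

theorem free_set_aux (X : Type) [DecidableEq X] (n : ℕ) : ∀ (J : Set X), aleph n ≤ #J →
    ∀ f : Finset X → Finset X, ∃ H : Finset X, H.card = n + 1 ∧ (H : Set X) ⊆ J ∧
      ∀ S : Finset X, S ⊆ H → ∀ y ∈ H, y ∉ S → y ∉ f S := by
  classical
  induction n with
  | zero =>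
    intro J hJ f
    have hinf : J.Infinite := by
      rw [← Set.infinite_coe_iff, Cardinal.infinite_iff]
      simpa using hJ
    obtain ⟨y, hy, hy'⟩ := hinf.exists_notMem_finset (f ∅)
    refine ⟨{y}, by simp, by simpa using hy, ?_⟩
    intro S hS z hz hzS
    have hzy : z = y := by simpa using hz
    have : S = ∅ := by
      rw [Finset.eq_empty_iff_forall_notMem]
      intro w hw
      have hw' : w = y := by simpa using hS hw
      exact hzS (by rw [hzy, ← hw']; exact hw)
    rw [this, hzy]
    exact hy'
  | succ n ih =>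
    intro J hJ f
    have h1 : aleph n ≤ #J := (aleph_le_aleph.2 (by
      exact_mod_cast Nat.le_succ n)).trans hJ
    obtain ⟨A, hAJ, hA⟩ := Cardinal.le_mk_iff_exists_subset.1 h1
    -- the union of the values
    have h2 : #(⋃ S : Finset A, ((f (S.map (Function.Embedding.subtype _))) : Set X)) ≤ aleph n := by
      have hAinf : Infinite A := by
        rw [Cardinal.infinite_iff, hA]
        exact aleph0_le_aleph _
      refine (Cardinal.mk_iUnion_le_sum_mk).trans ?_
      refine (Cardinal.sum_le_sum _ (fun _ => ℵ₀) fun S => ?_).trans ?_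
      · exact (Cardinal.lt_aleph0_of_finite _).le
      · rw [Cardinal.sum_const', Cardinal.mk_finset_of_infinite, hA]
        rw [Cardinal.mul_aleph0_eq (aleph0_le_aleph _)]
    have h3 : #(A ∪ (⋃ S : Finset A, ((f (S.map (Function.Embedding.subtype _))) : Set X)) : Set X)
        ≤ aleph n := by
      refine (Cardinal.mk_union_le _ _).trans ?_
      rw [hA]
      refine (add_le_add le_rfl h2).trans ?_
      rw [Cardinal.add_eq_self (aleph0_le_aleph _)]
    obtain ⟨x, hxJ, hx⟩ : ∃ x ∈ J, x ∉ (A ∪ (⋃ S : Finset A,
        ((f (S.map (Function.Embedding.subtype _))) : Set X)) : Set X) := by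
      by_contra hcon
      push Not at hcon
      have h4 : #J ≤ aleph n := (Cardinal.mk_le_mk_of_subset hcon).trans h3
      have h5 : aleph ((n + 1 : ℕ) : Ordinal) ≤ aleph n := hJ.trans h4
      rw [aleph_le_aleph] at h5
      have : n + 1 ≤ n := by exact_mod_cast h5
      omega
    have hxA : x ∉ A := fun h => hx (Or.inl h)
    have hxf : ∀ S : Finset X, (S : Set X) ⊆ A → x ∉ f S := by
      intro S hS hmem
      apply hx
      right
      rw [Set.mem_iUnion]
      refine ⟨S.subtype (· ∈ A), ?_⟩
      have : (S.subtype (· ∈ A)).map (Function.Embedding.subtype _) = S := by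
        rw [Finset.subtype_map]
        exact Finset.filter_true_of_mem hS
      rw [this]
      exact hmem
    obtain ⟨H, hc, hHA, hH⟩ := ih A hA.ge (fun S => f S ∪ f (insert x S))
    have hxH : x ∉ H := fun h => hxA (hHA h)
    refine ⟨insert x H, by rw [Finset.card_insert_of_notMem hxH, hc], ?_, ?_⟩
    · rw [Finset.coe_insert, Set.insert_subset_iff]
      exact ⟨hxJ, hHA.trans hAJ⟩
    · intro S hS y hy hyS
      rcases Finset.mem_insert.1 hy with rfl | hyH
      · apply hxf
        intro z hz
        rcases Finset.mem_insert.1 (hS hz) with rfl | hz'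
        · exact absurd hz hyS
        · exact hHA hz'
      · by_cases hxS : x ∈ S
        · have h6 : S.erase x ⊆ H := by
            intro z hz
            rw [Finset.mem_erase] at hz
            exact (Finset.mem_insert.1 (hS hz.2)).resolve_left hz.1
          have h7 := hH (S.erase x) h6 y hyH (fun h => hyS (Finset.mem_of_mem_erase h))
          rw [Finset.insert_erase hxS] at h7
          exact fun h => h7 (Finset.mem_union_right _ h)
        · have h6 : S ⊆ H := fun z hz => (Finset.mem_insert.1 (hS hz)).resolve_left
            (fun h => hxS (h ▸ hz))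
          exact fun h => hH S h6 y hyH hyS (Finset.mem_union_left _ h)

/-- An index set of cardinality `ℵ₅`. -/
def Ind5 : Type := (aleph 5).out

theorem mk_Ind5 : #Ind5 = aleph 5 := Cardinal.mk_out _

/-- six elements which are free for a set mapping on finite subsets -/
theorem free6 (f : Finset Ind5 → Finset Ind5) :
    ∃ h : Fin 6 ↪ Ind5, ∀ (S : Finset (Fin 6)) (y : Fin 6), y ∉ S → h y ∉ f (S.map h) := by
  classical
  obtain ⟨H, hc, -, hH⟩ := free_set_aux Ind5 5 Set.univ (by
    rw [Cardinal.mk_univ, mk_Ind5]
    norm_num) f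
  obtain ⟨e⟩ : Nonempty (Fin 6 ≃ H) := ⟨(Fintype.equivFinOfCardEq (by simpa using hc)).symm⟩
  refine ⟨⟨fun i => (e i : Ind5), fun i j h => e.injective (Subtype.ext h)⟩, ?_⟩
  intro S y hy
  apply hH
  · intro z hz
    rw [Finset.mem_map] at hz
    obtain ⟨i, _, rfl⟩ := hz
    exact (e i).2
  · exact (e y).2
  · intro hmem
    rw [Finset.mem_map] at hmem
    obtain ⟨i, hi, hie⟩ := hmem
    have : i = y := e.injective (Subtype.ext hie)
    exact hy (this ▸ hi)

end Pool.Agent.H413.NK
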