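import Pool.Agent.H413.NK.DimCone
import Pool.Agent.H413.NK.Vmap
import Pool.Agent.H413.G.R_seed8.H494R3.NK.MatZ

set_option autoImplicit false

/-!
Approximate range projections in C*-algebras of real rank zero.
-/

namespace Pool.Agent.H413.NK

open Pool.Agent.Y78.NK Pool.Agent.H494R3.NK

open scoped ComplexOrder

universe u

theorem proj_norm {A : Type*} [NonUnitalCStarAlgebra A] {p : A} (hp : p * p = p)
    (hs : star p = p) : ‖p‖ ≤ 1 := by
  have h : ‖p‖ * ‖p‖ = ‖p‖ := by
    rw [← CStarRing.norm_star_mul_self, hs, hp]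
  by_contra hcon
  push Not at hcon
  nlinarith

section
variable {U : Type*} [CStarAlgebra U]

theorem hp_unital (b y : U) (N : ℝ) (hN : 0 < N) (s : U) (hb : b = star s * s)
    (hy : IsSelfAdjoint y) (hf : (spectrum ℝ y).Finite) (hyb : ‖b - y‖ ≤ N / 4) :
    ∃ q r : U, q * q = q ∧ star q = q ∧ star r = r ∧ r * (q * b * q) = q ∧ q * r = r ∧
      r * q = r ∧ ‖(1 - q) * b * (1 - q)‖ ≤ N := by
  let _ := CStarAlgebra.spectralOrder U
  have _ := CStarAlgebra.spectralOrderedRing U
  have hb0 : 0 ≤ b := by rw [hb]; exact star_mul_self_nonneg s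
  have hbs : IsSelfAdjoint b := IsSelfAdjoint.of_nonneg hb0
  obtain ⟨χ, hχ⟩ : ∃ χ : ℝ → ℝ, χ = fun t => if N / 2 ≤ t then 1 else 0 := ⟨_, rfl⟩
  have hc : ∀ f : ℝ → ℝ, ContinuousOn f (spectrum ℝ y) := fun f => hf.continuousOn f
  obtain ⟨q, hq⟩ : ∃ q : U, q = cfc χ y := ⟨_, rfl⟩
  have hqq : q * q = q := by
    rw [hq, ← cfc_mul χ χ y (hc _) (hc _)]
    congr 1
    funext t
    rw [hχ]
    by_cases h : N / 2 ≤ t
    · simp [h]
    · simp [h]
  have hqs : star q = q := by
    rw [hq]
    exact cfc_predicate χ y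
  have hid : cfc (fun t : ℝ => t) y = y := cfc_id' ℝ y
  have h1 : (N / 2) • q ≤ q * y * q := by
    have e1 : q * y * q = cfc (fun t => χ t * t * χ t) y := by
      rw [cfc_mul (fun t => χ t * t) χ y (hc _) (hc _), cfc_mul χ (fun t => t) y (hc _) (hc _),
        hid, hq]
    have e2 : (N / 2) • q = cfc (fun t => (N / 2) * χ t) y := by
      rw [hq, ← cfc_smul (N / 2) χ y (hc _)]
      rfl
    rw [e1, e2]
    apply cfc_mono _ (hc _) (hc _)
    intro t _
    rw [hχ]
    by_cases h : N / 2 ≤ t
    · simp [h]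
    · simp [h]
  have h2 : y ≤ algebraMap ℝ U (N / 2) + y * q := by
    have e1 : algebraMap ℝ U (N / 2) + y * q = cfc (fun t => N / 2 + t * χ t) y := by
      rw [cfc_const_add (N / 2) (fun t => t * χ t) y (hc _),
        cfc_mul (fun t => t) χ y (hc _) (hc _), hid, hq]
    rw [e1]
    conv_lhs => rw [← hid]
    apply cfc_mono _ (hc _) (hc _)
    intro t _
    rw [hχ]
    by_cases h : N / 2 ≤ t
    · simp [h]; linarith
    · simp [h]; linarith
  have hd : IsSelfAdjoint (b - y) := hbs.sub hy
  have h3 : b - y ≤ algebraMap ℝ U (N / 4) :=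
    (IsSelfAdjoint.le_algebraMap_norm_self hd).trans (algebraMap_mono U hyb)
  have h4 : y - b ≤ algebraMap ℝ U (N / 4) := by
    have hyb' : ‖y - b‖ ≤ N / 4 := by rw [norm_sub_rev]; exact hyb
    exact (IsSelfAdjoint.le_algebraMap_norm_self (hy.sub hbs)).trans (algebraMap_mono U hyb')
  have hbound : ‖(1 - q) * b * (1 - q)‖ ≤ N := by
    have hps : star (1 - q) = 1 - q := by rw [star_sub, star_one, hqs]
    have hpp : (1 - q) * (1 - q) = 1 - q := by
      rw [mul_sub, sub_mul, mul_one, sub_mul, one_mul, hqq]; simp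
    have h5 : b ≤ algebraMap ℝ U (3 * N / 4) + y * q := by
      have : algebraMap ℝ U (3 * N / 4) = algebraMap ℝ U (N / 4) + algebraMap ℝ U (N / 2) := by
        rw [← map_add]; congr 1; ring
      rw [this]
      calc b = (b - y) + y := by abel
        _ ≤ algebraMap ℝ U (N / 4) + (algebraMap ℝ U (N / 2) + y * q) := add_le_add h3 h2
        _ = _ := by abel
    have h6 : (1 - q) * b * (1 - q) ≤ (3 * N / 4) • (1 - q) := by
      have h7 := star_left_conjugate_le_conjugate h5 (1 - q)
      rw [hps] at h7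
      have h8 : (1 - q) * (algebraMap ℝ U (3 * N / 4) + y * q) * (1 - q) =
          (3 * N / 4) • (1 - q) := by
        have h9 : y * q * (1 - q) = 0 := by
          rw [mul_assoc, mul_sub, mul_one, hqq, sub_self, mul_zero]
        rw [mul_assoc, add_mul, h9, add_zero, Algebra.algebraMap_eq_smul_one, smul_mul_assoc,
          one_mul, mul_smul_comm, hpp]
      rwa [h8] at h7
    have h10 : (0 : U) ≤ (1 - q) * b * (1 - q) := by
      have := star_left_conjugate_le_conjugate hb0 (1 - q)
      rwa [hps, mul_zero, zero_mul] at this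
    have h11 := CStarAlgebra.norm_le_norm_of_nonneg_of_le h10 h6
    have h12 : ‖(3 * N / 4) • (1 - q)‖ ≤ 3 * N / 4 * 1 := by
      rw [norm_smul, Real.norm_of_nonneg (by linarith)]
      exact mul_le_mul_of_nonneg_left (proj_norm hpp hps) (by linarith)
    linarith
  obtain ⟨w, hw⟩ : ∃ w : U, w = q * b * q + (N / 4) • (1 - q) := ⟨_, rfl⟩
  have hwle : algebraMap ℝ U (N / 4) ≤ w := by
    have e1 : q * (y - b) * q ≤ q * algebraMap ℝ U (N / 4) * q := by
      have := star_left_conjugate_le_conjugate h4 q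
      rwa [hqs] at this
    have e2 : q * algebraMap ℝ U (N / 4) * q = (N / 4) • q := by
      rw [Algebra.algebraMap_eq_smul_one, mul_smul_comm, smul_mul_assoc, mul_one, hqq]
    have e3 : (N / 2) • q - (N / 4) • q ≤ q * b * q := by
      have e4 : q * (y - b) * q = q * y * q - q * b * q := by noncomm_ring
      rw [e4, e2] at e1
      calc (N / 2) • q - (N / 4) • q ≤ q * y * q - (N / 4) • q := sub_le_sub_right h1 _
        _ ≤ q * b * q := by
          rw [sub_le_iff_le_add] at e1 ⊢
          rw [add_comm]; exact e1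
    have e5 : algebraMap ℝ U (N / 4) = ((N / 2) • q - (N / 4) • q) + (N / 4) • (1 - q) := by
      rw [Algebra.algebraMap_eq_smul_one, smul_sub, ← sub_smul]
      have : N / 2 - N / 4 = N / 4 := by ring
      rw [this]; abel
    rw [e5, hw]
    exact add_le_add_left e3 _
  have hpos : IsStrictlyPositive (algebraMap ℝ U (N / 4)) := by
    rw [IsStrictlyPositive.iff_of_unital]
    refine ⟨?_, ?_⟩
    · rw [Algebra.algebraMap_eq_smul_one]
      exact smul_nonneg (by linarith) zero_le_one
    · exact (IsUnit.mk0 (N / 4) (by linarith)).map (algebraMap ℝ U)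
  have hwu : IsUnit w := CStarAlgebra.isUnit_of_le _ hwle hpos
  obtain ⟨v, hv⟩ := hwu
  have hqw : q * w = q * b * q := by
    rw [hw, mul_add, mul_smul_comm, mul_sub, mul_one, hqq, sub_self, smul_zero, add_zero,
      ← mul_assoc, ← mul_assoc, hqq]
  have hwq : w * q = q * b * q := by
    rw [hw, add_mul, smul_mul_assoc, sub_mul, one_mul, hqq, sub_self, smul_zero, add_zero,
      mul_assoc, hqq]
  have hcomm : q * (v⁻¹ : Uˣ) = (v⁻¹ : Uˣ) * q := by
    have h7 : Commute q (v : U) := by
      show q * (v : U) = v * q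
      rw [hv, hqw, hwq]
    exact h7.units_inv_right
  have hws : star w = w := by
    rw [hw, star_add, star_mul, star_mul, star_smul, star_sub, star_one, hqs, hbs.star_eq,
      star_trivial, mul_assoc]
  have hvs : star ((v⁻¹ : Uˣ) : U) = (v⁻¹ : Uˣ) := by
    have h8 : star ((v⁻¹ : Uˣ) : U) * w = 1 := by
      conv_lhs => rw [← hws]
      rw [← star_mul, ← hv, Units.mul_inv, star_one]
    calc star ((v⁻¹ : Uˣ) : U) = star ((v⁻¹ : Uˣ) : U) * (w * (v⁻¹ : Uˣ)) := by
          rw [← hv, Units.mul_inv, mul_one]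
      _ = (v⁻¹ : Uˣ) := by rw [← mul_assoc, h8, one_mul]
  refine ⟨q, q * (v⁻¹ : Uˣ), hqq, hqs, ?_, ?_, ?_, ?_, hbound⟩
  · rw [star_mul, hvs, hqs, hcomm]
  · rw [← hwq, mul_assoc, ← hv, ← mul_assoc ((v⁻¹ : Uˣ) : U), Units.inv_mul, one_mul, hqq]
  · rw [← mul_assoc, hqq]
  · rw [mul_assoc, ← hcomm, ← mul_assoc, hqq]

end

section
variable {A : Type u} [NonUnitalCStarAlgebra A]

theorem exists_inr {z : Unitization ℂ A} (h : z.fst = 0) : ∃ a : A, (a : Unitization ℂ A) = z := by
  refine ⟨z.snd, ?_⟩
  apply Unitization.ext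
  · rw [h]; rfl
  · rfl

/-- approximate range projections -/
theorem hp (hr : RealRankZero A) (x : A) (ε : ℝ) (hε : 0 < ε) :
    ∃ f y : A, f * f = f ∧ star f = f ∧ f = x * y ∧ ‖x - f * x‖ ≤ ε := by
  obtain ⟨y, hy, hf, hxy⟩ := hr ((star x * x : A) : Unitization ℂ A)
    (by
      rw [isSelfAdjoint_iff, ← Unitization.inr_star, star_mul, star_star])
    (ε ^ 2 / 4) (by positivity)
  have hfr : (spectrum ℝ y).Finite := by
    rw [← spectrum.preimage_algebraMap ℂ]
    exact hf.preimage (fun _ _ _ _ h => (algebraMap ℝ ℂ).injective h)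
  obtain ⟨q, r, hqq, hqs, hrs, hrq, hqr, hrq', hb⟩ := hp_unital
    ((star x * x : A) : Unitization ℂ A) y (ε ^ 2) (by positivity) (x : Unitization ℂ A)
    (by rw [Unitization.inr_mul, Unitization.inr_star]) hy hfr hxy.le
  obtain ⟨y', hy'⟩ := exists_inr (z := r * star (x : Unitization ℂ A)) (by
    rw [Unitization.fst_mul, Unitization.fst_star, Unitization.fst_inr, star_zero, mul_zero])
  have hinj : Function.Injective (fun x : A => (x : Unitization ℂ A)) :=
    Unitization.inr_injective
  have hr2 : r * ((star x * x : A) : Unitization ℂ A) * r = r := by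
    calc r * ((star x * x : A) : Unitization ℂ A) * r =
        (r * q) * ((star x * x : A) : Unitization ℂ A) * (q * r) := by rw [hrq', hqr]
      _ = (r * (q * ((star x * x : A) : Unitization ℂ A) * q)) * r := by noncomm_ring
      _ = r := by rw [hrq, hqr]
  have hff : ((x * y' : A) : Unitization ℂ A) = (x : Unitization ℂ A) * r * star (x : Unitization ℂ A) := by
    rw [Unitization.inr_mul, hy', ← mul_assoc]
  have hidem : (x * y') * (x * y') = x * y' := by
    apply hinj
    show ((x * y' * (x * y') : A) : Unitization ℂ A) = ((x * y' : A) : Unitization ℂ A)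
    rw [Unitization.inr_mul, hff]
    calc (x : Unitization ℂ A) * r * star (x : Unitization ℂ A) *
        ((x : Unitization ℂ A) * r * star (x : Unitization ℂ A)) =
        (x : Unitization ℂ A) * (r * (star (x : Unitization ℂ A) * (x : Unitization ℂ A)) * r) *
          star (x : Unitization ℂ A) := by noncomm_ring
      _ = _ := by
        rw [← Unitization.inr_star, ← Unitization.inr_mul, hr2]
  have hstar : star (x * y') = x * y' := by
    apply hinj
    show ((star (x * y') : A) : Unitization ℂ A) = ((x * y' : A) : Unitization ℂ A)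
    rw [Unitization.inr_star, hff, star_mul, star_mul, star_star, hrs, mul_assoc]
  refine ⟨x * y', y', hidem, hstar, rfl, ?_⟩
  have hn : ‖(x : Unitization ℂ A) * (1 - q)‖ ≤ ε := by
    have h1 : ‖(x : Unitization ℂ A) * (1 - q)‖ * ‖(x : Unitization ℂ A) * (1 - q)‖ ≤ ε ^ 2 := by
      rw [← CStarRing.norm_star_mul_self]
      have : star ((x : Unitization ℂ A) * (1 - q)) * ((x : Unitization ℂ A) * (1 - q)) =
          (1 - q) * ((star x * x : A) : Unitization ℂ A) * (1 - q) := by
        rw [star_mul, star_sub, star_one, hqs, Unitization.inr_mul, Unitization.inr_star]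
        noncomm_ring
      rw [this]
      exact hb
    by_contra hcon
    push Not at hcon
    nlinarith [norm_nonneg ((x : Unitization ℂ A) * (1 - q))]
  have hxq : (x : Unitization ℂ A) * r * star (x : Unitization ℂ A) * ((x : Unitization ℂ A) * q) =
      (x : Unitization ℂ A) * q := by
    calc (x : Unitization ℂ A) * r * star (x : Unitization ℂ A) * ((x : Unitization ℂ A) * q) =
        (x : Unitization ℂ A) * (r * (star (x : Unitization ℂ A) * (x : Unitization ℂ A)) * q) := by
          noncomm_ring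
      _ = (x : Unitization ℂ A) * ((r * q) * (star (x : Unitization ℂ A) *
          (x : Unitization ℂ A)) * q) := by rw [hrq']
      _ = (x : Unitization ℂ A) * (r * (q * ((star x * x : A) : Unitization ℂ A) * q)) := by
          rw [Unitization.inr_mul, Unitization.inr_star]; noncomm_ring
      _ = _ := by rw [hrq]
  have h3 : ((x - x * y' * x : A) : Unitization ℂ A) =
      (1 - (x : Unitization ℂ A) * r * star (x : Unitization ℂ A)) *
        ((x : Unitization ℂ A) * (1 - q)) := by
    rw [Unitization.inr_sub, Unitization.inr_mul, hff]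
    calc (x : Unitization ℂ A) - (x : Unitization ℂ A) * r * star (x : Unitization ℂ A) *
        (x : Unitization ℂ A) = (1 - (x : Unitization ℂ A) * r * star (x : Unitization ℂ A)) *
        ((x : Unitization ℂ A) * (1 - q)) + ((x : Unitization ℂ A) * q -
          (x : Unitization ℂ A) * r * star (x : Unitization ℂ A) * ((x : Unitization ℂ A) * q)) := by
          noncomm_ring
      _ = _ := by rw [hxq, sub_self, add_zero]
  have h4 : ‖(1 : Unitization ℂ A) - (x : Unitization ℂ A) * r * star (x : Unitization ℂ A)‖ ≤ 1 := by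
    rw [← hff]
    have k1 : ((x * y' : A) : Unitization ℂ A) * ((x * y' : A) : Unitization ℂ A) =
        ((x * y' : A) : Unitization ℂ A) := by rw [← Unitization.inr_mul, hidem]
    apply proj_norm
    · rw [mul_sub, sub_mul, mul_one, sub_mul, one_mul, k1]; simp
    · rw [star_sub, star_one, ← Unitization.inr_star, hstar]
  rw [← Unitization.norm_inr (𝕜 := ℂ), h3]
  calc _ ≤ ‖(1 : Unitization ℂ A) - (x : Unitization ℂ A) * r * star (x : Unitization ℂ A)‖ *
      ‖(x : Unitization ℂ A) * (1 - q)‖ := norm_mul_le _ _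
    _ ≤ 1 * ε := by gcongr
    _ = ε := one_mul ε

/-- a common approximate range projection for finitely many elements -/
theorem hp_many (hr : RealRankZero A) {ι : Type} [Fintype ι] (x : ι → A) (ε : ℝ) (hε : 0 < ε) :
    ∃ f : A, f * f = f ∧ star f = f ∧ ∀ i, ‖x i - f * x i‖ ≤ ε := by
  let _ := CStarAlgebra.spectralOrder (Unitization ℂ A)
  have _ := CStarAlgebra.spectralOrderedRing (Unitization ℂ A)
  obtain ⟨f, y, hff, hfs, -, hn⟩ := hp hr (∑ i, x i * star (x i)) (ε ^ 2) (by positivity)
  refine ⟨f, hff, hfs, fun i => ?_⟩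
  obtain ⟨φ, hφ⟩ : ∃ φ : A →+ Unitization ℂ A, ∀ a, φ a = (a : Unitization ℂ A) :=
    ⟨{ toFun := fun a => (a : Unitization ℂ A)
       map_zero' := Unitization.inr_zero ℂ
       map_add' := fun a b => Unitization.inr_add ℂ a b }, fun _ => rfl⟩
  obtain ⟨g, hg⟩ : ∃ g : Unitization ℂ A, g = 1 - (f : Unitization ℂ A) := ⟨_, rfl⟩
  have hff' : (f : Unitization ℂ A) * f = f := by rw [← Unitization.inr_mul, hff]
  have hfs' : star (f : Unitization ℂ A) = f := by rw [← Unitization.inr_star, hfs]
  have hgg : g * g = g := by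
    rw [hg, mul_sub, sub_mul, mul_one, sub_mul, one_mul, hff']; simp
  have hgs : star g = g := by rw [hg, star_sub, star_one, hfs']
  have hsum : ((∑ i, x i * star (x i) : A) : Unitization ℂ A) =
      ∑ i, (x i : Unitization ℂ A) * star (x i : Unitization ℂ A) := by
    rw [← hφ, map_sum]
    refine Finset.sum_congr rfl fun i _ => ?_
    rw [hφ, Unitization.inr_mul, Unitization.inr_star]
  have h1 : (x i : Unitization ℂ A) * star (x i : Unitization ℂ A) ≤
      ((∑ i, x i * star (x i) : A) : Unitization ℂ A) := by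
    rw [hsum]
    exact Finset.single_le_sum (f := fun i => (x i : Unitization ℂ A) * star (x i : Unitization ℂ A))
      (fun j _ => mul_star_self_nonneg _) (Finset.mem_univ i)
  have h2 := star_left_conjugate_le_conjugate h1 g
  rw [hgs] at h2
  have h0 : (0 : Unitization ℂ A) ≤ g * ((x i : Unitization ℂ A) * star (x i : Unitization ℂ A)) * g := by
    have := star_left_conjugate_le_conjugate (mul_star_self_nonneg (x i : Unitization ℂ A)) g
    rwa [hgs, mul_zero, zero_mul] at this
  have h3 := CStarAlgebra.norm_le_norm_of_nonneg_of_le h0 h2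
  have h4 : ‖g * ((∑ i, x i * star (x i) : A) : Unitization ℂ A) * g‖ ≤ ε ^ 2 := by
    have h5 : g * ((∑ i, x i * star (x i) : A) : Unitization ℂ A) =
        (((∑ i, x i * star (x i)) - f * (∑ i, x i * star (x i)) : A) : Unitization ℂ A) := by
      rw [hg, sub_mul, one_mul, Unitization.inr_sub, Unitization.inr_mul]
    rw [h5]
    calc _ ≤ ‖(((∑ i, x i * star (x i)) - f * (∑ i, x i * star (x i)) : A) :
        Unitization ℂ A)‖ * ‖g‖ := norm_mul_le _ _
      _ ≤ ε ^ 2 * 1 := by
          rw [Unitization.norm_inr]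
          exact mul_le_mul hn (proj_norm hgg hgs) (norm_nonneg _) (by positivity)
      _ = _ := mul_one _
  have h6 : ((x i - f * x i : A) : Unitization ℂ A) = g * (x i : Unitization ℂ A) := by
    rw [hg, sub_mul, one_mul, Unitization.inr_sub, Unitization.inr_mul]
  rw [← Unitization.norm_inr (𝕜 := ℂ), h6]
  have h7 : ‖g * (x i : Unitization ℂ A)‖ * ‖g * (x i : Unitization ℂ A)‖ ≤ ε ^ 2 := by
    rw [← CStarRing.norm_self_mul_star, star_mul, hgs]
    have : g * (x i : Unitization ℂ A) * (star (x i : Unitization ℂ A) * g) =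
        g * ((x i : Unitization ℂ A) * star (x i : Unitization ℂ A)) * g := by noncomm_ring
    rw [this]
    exact h3.trans h4
  by_contra hcon
  push Not at hcon
  nlinarith [norm_nonneg (g * (x i : Unitization ℂ A))]

end

end Pool.Agent.H413.NK
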