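import Pool.Agent.H413.NK.Cl
import Pool.Agent.H413.NK.Free

set_option autoImplicit false

/-!
No C*-algebra of real rank zero has the pattern: a free set argument.
-/

namespace Pool.Agent.H413.NK

open Pool.Agent.Y78.NK Pool.Agent.H494R3.NK

universe u

section gen
variable {I : Type} {A : Type u} [NonUnitalCStarAlgebra A] {P : Pat I (VV A)} {L : Loc P}

theorem odd_core {x₀ x₁ x₂ : Xs I} {za zb : A} {ε δ : ℝ}
    (D1 : ∀ k l, L.Sc x₀ za k → L.Sc x₁ za l → ‖k - l‖ ≤ ε)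
    (D2 : ∀ k l, L.Sc x₀ zb k → L.Sc x₂ zb l → ‖k - l‖ ≤ ε)
    (C1 : ∀ k l, L.Sc x₀ za k → L.Sc x₀ zb l → ‖k - l‖ ≤ δ)
    (C2 : ∀ k l, L.Sc x₁ za k → L.Sc x₁ zb l → ‖k + l‖ ≤ δ)
    (Fl : ∀ k, L.Sc x₁ zb k → L.Sc x₂ zb k) (Ea : ∃ k, L.Sc x₁ za k)
    (Eb0 : ∃ k, L.Sc x₀ zb k) (Eb1 : ∃ k, L.Sc x₁ zb k) (k : ℂ) (hk : L.Sc x₀ za k) :
    ‖k‖ ≤ ε + δ := by
  obtain ⟨a, ha⟩ := Ea
  obtain ⟨b, hb⟩ := Eb0
  obtain ⟨c, hc⟩ := Eb1
  have h1 := D1 k a hk ha
  have h2 := D2 b c hb (Fl c hc)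
  have h3 := C1 k b hk hb
  have h4 := C2 a c ha hc
  have h5 : (2 : ℂ) * k = (k - b) + (b - c) + (a + c) + (k - a) := by ring
  have h6 : ‖(2 : ℂ) * k‖ ≤ δ + ε + δ + ε := by
    rw [h5]
    calc _ ≤ ‖(k - b) + (b - c) + (a + c)‖ + ‖k - a‖ := norm_add_le _ _
      _ ≤ ‖(k - b) + (b - c)‖ + ‖a + c‖ + ‖k - a‖ := by gcongr; exact norm_add_le _ _
      _ ≤ ‖k - b‖ + ‖b - c‖ + ‖a + c‖ + ‖k - a‖ := by gcongr; exact norm_add_le _ _
      _ ≤ _ := by linarith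
  rw [norm_mul] at h6
  have h7 : ‖(2 : ℂ)‖ = 2 := by simp
  rw [h7] at h6
  linarith

theorem G2_sub (s t v : A) : G2 (s - t) v = G2 s v - G2 t v := by
  unfold G2
  rw [← smul_sub, sub_mul, mul_sub]
  congr 1
  abel

theorem G2_add (s t v : A) : G2 (s + t) v = G2 s v + G2 t v := by
  unfold G2
  rw [← smul_add, add_mul, mul_add]
  congr 1
  abel

theorem J3_sub (s t v w : A) : J3 (s - t) v w = J3 s v w - J3 t v w := by
  unfold J3
  rw [G2_sub, G2_sub, mul_sub, sub_mul, sub_mul, sub_mul, sub_mul]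
  abel

theorem J3_add (s t v w : A) : J3 (s + t) v w = J3 s v w + J3 t v w := by
  unfold J3
  rw [G2_add, G2_add, mul_add, add_mul, add_mul, add_mul, add_mul]
  abel

theorem G2_bound (hA : RealRankZero A) {s t : A} (ht : L.mem t)
    (ht1 : ‖t‖ ≤ 1) {V : Set (Xs I)} (hV : V ∈ BB I) : ‖G2 s t * L.c V‖ ≤ ‖s * L.c V‖ := by
  have e : G2 s t * L.c V = (1 / 2 : ℂ) • (s * L.c V * t + t * (s * L.c V)) := by
    unfold G2
    rw [smul_mul_assoc, add_mul, mul_assoc s t, ← L.cen hA hV ht]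
    simp only [mul_assoc]
  rw [e, norm_smul]
  have h1 : ‖(1 / 2 : ℂ)‖ = 1 / 2 := by simp
  rw [h1]
  have h2 : ‖s * L.c V * t + t * (s * L.c V)‖ ≤ 2 * ‖s * L.c V‖ := by
    calc _ ≤ ‖s * L.c V * t‖ + ‖t * (s * L.c V)‖ := norm_add_le _ _
      _ ≤ ‖s * L.c V‖ * ‖t‖ + ‖t‖ * ‖s * L.c V‖ := add_le_add (norm_mul_le _ _) (norm_mul_le _ _)
      _ ≤ ‖s * L.c V‖ * 1 + 1 * ‖s * L.c V‖ := by gcongr
      _ = _ := by ring
  linarith

theorem G2_norm {s t : A} (hs : ‖s‖ ≤ 1) (ht : ‖t‖ ≤ 1) : ‖G2 s t‖ ≤ 1 := by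
  unfold G2
  rw [norm_smul]
  have h1 : ‖(1 / 2 : ℂ)‖ = 1 / 2 := by simp
  rw [h1]
  have h2 : ‖s * t + t * s‖ ≤ 2 := by
    calc _ ≤ ‖s * t‖ + ‖t * s‖ := norm_add_le _ _
      _ ≤ ‖s‖ * ‖t‖ + ‖t‖ * ‖s‖ := add_le_add (norm_mul_le _ _) (norm_mul_le _ _)
      _ ≤ 1 * 1 + 1 * 1 := by gcongr
      _ = _ := by ring
  linarith

theorem J3_bound (hA : RealRankZero A) {s t v : A} (ht : L.mem t) (hv : L.mem v)
    (ht1 : ‖t‖ ≤ 1) (hv1 : ‖v‖ ≤ 1) {V : Set (Xs I)} (hV : V ∈ BB I) :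
    ‖J3 s t v * L.c V‖ ≤ 4 * ‖s * L.c V‖ := by
  have e : J3 s t v * L.c V = s * L.c V * t * v - (G2 s t * L.c V) * v + (G2 s v * L.c V) * t -
      G2 t v * (s * L.c V) := by
    unfold J3
    have e1 : s * t * v * L.c V = s * L.c V * t * v := by
      calc s * t * v * L.c V = s * (t * (v * L.c V)) := by simp only [mul_assoc]
        _ = s * (t * L.c V * v) := by rw [← L.cen hA hV hv]; simp only [mul_assoc]
        _ = _ := by rw [← L.cen hA hV ht]; simp only [mul_assoc]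
    have e2 : G2 s t * v * L.c V = G2 s t * L.c V * v := by
      rw [mul_assoc, ← L.cen hA hV hv, ← mul_assoc]
    have e3 : G2 s v * t * L.c V = G2 s v * L.c V * t := by
      rw [mul_assoc, ← L.cen hA hV ht, ← mul_assoc]
    rw [sub_mul, add_mul, sub_mul, e1, e2, e3, mul_assoc (G2 t v)]
  rw [e]
  have n1 : ‖s * L.c V * t * v‖ ≤ ‖s * L.c V‖ := by
    calc _ ≤ ‖s * L.c V * t‖ * ‖v‖ := norm_mul_le _ _
      _ ≤ ‖s * L.c V‖ * ‖t‖ * ‖v‖ := by gcongr; exact norm_mul_le _ _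
      _ ≤ ‖s * L.c V‖ * 1 * 1 := by gcongr
      _ = _ := by ring
  have n2 : ‖(G2 s t * L.c V) * v‖ ≤ ‖s * L.c V‖ := by
    calc _ ≤ ‖G2 s t * L.c V‖ * ‖v‖ := norm_mul_le _ _
      _ ≤ ‖s * L.c V‖ * 1 := mul_le_mul (G2_bound hA ht ht1 hV) hv1 (norm_nonneg _) (norm_nonneg _)
      _ = _ := mul_one _
  have n3 : ‖(G2 s v * L.c V) * t‖ ≤ ‖s * L.c V‖ := by
    calc _ ≤ ‖G2 s v * L.c V‖ * ‖t‖ := norm_mul_le _ _
      _ ≤ ‖s * L.c V‖ * 1 := mul_le_mul (G2_bound hA hv hv1 hV) ht1 (norm_nonneg _) (norm_nonneg _)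
      _ = _ := mul_one _
  have n4 : ‖G2 t v * (s * L.c V)‖ ≤ ‖s * L.c V‖ := by
    calc _ ≤ ‖G2 t v‖ * ‖s * L.c V‖ := norm_mul_le _ _
      _ ≤ 1 * ‖s * L.c V‖ := by gcongr; exact G2_norm ht1 hv1
      _ = _ := one_mul _
  calc _ ≤ ‖s * L.c V * t * v - (G2 s t * L.c V) * v + (G2 s v * L.c V) * t‖ +
        ‖G2 t v * (s * L.c V)‖ := norm_sub_le _ _
    _ ≤ ‖s * L.c V * t * v - (G2 s t * L.c V) * v‖ + ‖(G2 s v * L.c V) * t‖ +
        ‖G2 t v * (s * L.c V)‖ := by gcongr; exact norm_add_le _ _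
    _ ≤ ‖s * L.c V * t * v‖ + ‖(G2 s t * L.c V) * v‖ + ‖(G2 s v * L.c V) * t‖ +
        ‖G2 t v * (s * L.c V)‖ := by gcongr; exact norm_sub_le _ _
    _ ≤ _ := by linarith

end gen

/-! ### points -/

/-- first index of a kind -/
def av : Fin 3 → Fin 6 := ![0, 2, 4]

/-- second index of a kind -/
def bv : Fin 3 → Fin 6 := ![1, 3, 5]

theorem av_ne_bv (k l : Fin 3) : av k ≠ bv l := by revert k l; decide

theorem av_inj {k l : Fin 3} (h : av k = av l) : k = l := by revert k l; decide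

theorem bv_inj {k l : Fin 3} (h : bv k = bv l) : k = l := by revert k l; decide

theorem one6 (z : Fin 6) : (1 : Fin 6 → SignType) z ≠ 0 := by
  rw [Pi.one_apply]; decide

section pt
variable (h : Fin 6 ↪ Ind5)

/-- the point with the given signs at six coordinates -/
noncomputable def pt (c : Fin 6 → SignType) : Xs Ind5 := fun p =>
  open Classical in if p.2 = h (av p.1) then c (av p.1) else
    if p.2 = h (bv p.1) then c (bv p.1) else 0

theorem pt_a (c : Fin 6 → SignType) (k : Fin 3) : pt h c (k, h (av k)) = c (av k) := by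
  unfold pt
  simp

theorem pt_b (c : Fin 6 → SignType) (k : Fin 3) : pt h c (k, h (bv k)) = c (bv k) := by
  unfold pt
  have h1 : h (bv k) ≠ h (av k) := fun e => av_ne_bv k k (h.injective e).symm
  simp [h1]

theorem pt_zero (c : Fin 6 → SignType) {p : Fin 3 × Ind5} (h1 : p.2 ≠ h (av p.1))
    (h2 : p.2 ≠ h (bv p.1)) : pt h c p = 0 := by
  unfold pt
  rw [if_neg h1, if_neg h2]

theorem pt_agree (c c' : Fin 6 → SignType) (y : Fin 6) (hc : ∀ z, z ≠ y → c z = c' z)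
    {p : Fin 3 × Ind5} (hp : p.2 ≠ h y) : pt h c p = pt h c' p := by
  unfold pt
  split_ifs with h1 h2
  · exact hc _ fun e => hp (e ▸ h1)
  · exact hc _ fun e => hp (e ▸ h2)
  · rfl

theorem pt_flp (k : Fin 3) : flp k (pt h (Function.update 1 (bv k) (-1))) =
    pt h (Function.update 1 (av k) (-1)) := by
  have hn : av k ≠ bv k := av_ne_bv k k
  funext p
  obtain ⟨l, i⟩ := p
  by_cases hl : l = k
  · subst hl
    rw [flp_same]
    by_cases h1 : i = h (av l)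
    · subst h1
      rw [pt_a, pt_a, Function.update_self, Function.update_of_ne hn]
      rfl
    · by_cases h2 : i = h (bv l)
      · subst h2
        rw [pt_b, pt_b, Function.update_self, Function.update_of_ne hn.symm, Pi.one_apply]
        decide
      · rw [pt_zero h _ h1 h2, pt_zero h _ h1 h2]
        decide
  · rw [flp_ne hl]
    have k1 : av l ≠ bv k := av_ne_bv l k
    have k2 : bv l ≠ bv k := fun e => hl (bv_inj e)
    have k3 : av l ≠ av k := fun e => hl (av_inj e)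
    have k4 : bv l ≠ av k := fun e => av_ne_bv k l e.symm
    by_cases h1 : i = h (av l)
    · subst h1
      rw [pt_a, pt_a, Function.update_of_ne k1, Function.update_of_ne k3]
    · by_cases h2 : i = h (bv l)
      · subst h2
        rw [pt_b, pt_b, Function.update_of_ne k2, Function.update_of_ne k4]
      · rw [pt_zero h _ h1 h2, pt_zero h _ h1 h2]

end pt

theorem no_pat {A : Type u} [NonUnitalCStarAlgebra A] (hA : RealRankZero A)
    (P : Pat Ind5 (VV A)) : False := by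
  classical
  obtain ⟨L⟩ := exists_loc hA P
  obtain ⟨G⟩ := exists_gens L
  obtain ⟨ε, hε, hε'⟩ : ∃ ε : ℝ, 0 < ε ∧ ε = 1 / 1000 := ⟨_, by norm_num, rfl⟩
  choose K₁ hK₁ hK₁' using fun k i j => G.close_pos hA k i j ε hε
  choose K₂ hK₂ hK₂' using fun k i j => G.close_neg hA k i j ε hε
  have hFG : ∀ (k l : Fin 3) (i j : Ind5), ∃ F : Finset (Fin 3 × Ind5), k ≠ l →
      ∀ x y : Xs Ind5, (∀ p ∈ F, x p = y p) → x ∈ L.N ∩ (Us k i ∩ Us l j) →
        y ∈ L.N ∩ (Us k i ∩ Us l j) → ∀ a b, L.Sc x (G2 (G.s k i) (G.s l j)) a →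
          L.Sc y (G2 (G.s k i) (G.s l j)) b → ‖a - b‖ ≤ ε := by
    intro k l i j
    by_cases hkl : k = l
    · exact ⟨∅, fun h => absurd hkl h⟩
    · obtain ⟨F, hF⟩ := L.dep_val hA (z := G2 (G.s k i) (G.s l j))
        (V := L.N ∩ (Us k i ∩ Us l j))
        ((BB_balg _).inter _ L.NB _ ((BB_balg _).inter _ (Us_mem k i) _ (Us_mem l j)))
        Set.inter_subset_left (fun x hx => G.valG hA hx.1 hkl hx.2.1 hx.2.2) ε hε
      exact ⟨F, fun _ => hF⟩
  choose FG hFG using hFG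
  have hFJ : ∀ (i j m : Ind5), ∃ F : Finset (Fin 3 × Ind5),
      ∀ x y : Xs Ind5, (∀ p ∈ F, x p = y p) → x ∈ L.N ∩ (Us 0 i ∩ (Us 1 j ∩ Us 2 m)) →
        y ∈ L.N ∩ (Us 0 i ∩ (Us 1 j ∩ Us 2 m)) →
          ∀ a b, L.Sc x (J3 (G.s 0 i) (G.s 1 j) (G.s 2 m)) a →
          L.Sc y (J3 (G.s 0 i) (G.s 1 j) (G.s 2 m)) b → ‖a - b‖ ≤ ε := by
    intro i j m
    exact L.dep_val hA (z := J3 (G.s 0 i) (G.s 1 j) (G.s 2 m))
      (V := L.N ∩ (Us 0 i ∩ (Us 1 j ∩ Us 2 m)))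
      ((BB_balg _).inter _ L.NB _ ((BB_balg _).inter _ (Us_mem 0 i) _
        ((BB_balg _).inter _ (Us_mem 1 j) _ (Us_mem 2 m))))
      Set.inter_subset_left (fun x hx => by
        obtain ⟨a, b, c, d, _, _, _, hd, _⟩ := G.valJ hA hx.1 hx.2.1 hx.2.2.1 hx.2.2.2
        exact ⟨d, hd⟩) ε hε
  choose FJ hFJ using hFJ
  obtain ⟨f, hf⟩ : ∃ f : Finset Ind5 → Finset Ind5, f = fun T =>
      (L.F ∪ (T ×ˢ T).biUnion (fun q => Finset.univ.biUnion (fun k : Fin 3 =>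
        K₁ k q.1 q.2 ∪ K₂ k q.1 q.2 ∪ Finset.univ.biUnion (fun l : Fin 3 => FG k l q.1 q.2))) ∪
        (T ×ˢ T ×ˢ T).biUnion (fun q => FJ q.1 q.2.1 q.2.2)).image Prod.snd := ⟨_, rfl⟩
  have f0 : ∀ T p, p ∈ L.F → p.2 ∈ f T := by
    intro T p hp
    rw [hf]
    exact Finset.mem_image_of_mem _ (Finset.mem_union_left _ (Finset.mem_union_left _ hp))
  have f1 : ∀ T k i j p, i ∈ T → j ∈ T → p ∈ K₁ k i j → p.2 ∈ f T := by
    intro T k i j p hi hj hp
    rw [hf]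
    refine Finset.mem_image_of_mem _ (Finset.mem_union_left _ (Finset.mem_union_right _ ?_))
    refine Finset.mem_biUnion.2 ⟨(i, j), Finset.mem_product.2 ⟨hi, hj⟩, ?_⟩
    refine Finset.mem_biUnion.2 ⟨k, Finset.mem_univ k, ?_⟩
    exact Finset.mem_union_left _ (Finset.mem_union_left _ hp)
  have f1' : ∀ T k i j p, i ∈ T → j ∈ T → p ∈ K₂ k i j → p.2 ∈ f T := by
    intro T k i j p hi hj hp
    rw [hf]
    refine Finset.mem_image_of_mem _ (Finset.mem_union_left _ (Finset.mem_union_right _ ?_))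
    refine Finset.mem_biUnion.2 ⟨(i, j), Finset.mem_product.2 ⟨hi, hj⟩, ?_⟩
    refine Finset.mem_biUnion.2 ⟨k, Finset.mem_univ k, ?_⟩
    exact Finset.mem_union_left _ (Finset.mem_union_right _ hp)
  have f2 : ∀ T k l i j p, i ∈ T → j ∈ T → p ∈ FG k l i j → p.2 ∈ f T := by
    intro T k l i j p hi hj hp
    rw [hf]
    refine Finset.mem_image_of_mem _ (Finset.mem_union_left _ (Finset.mem_union_right _ ?_))
    refine Finset.mem_biUnion.2 ⟨(i, j), Finset.mem_product.2 ⟨hi, hj⟩, ?_⟩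
    refine Finset.mem_biUnion.2 ⟨k, Finset.mem_univ k, ?_⟩
    exact Finset.mem_union_right _ (Finset.mem_biUnion.2 ⟨l, Finset.mem_univ l, hp⟩)
  have f3 : ∀ T i j m p, i ∈ T → j ∈ T → m ∈ T → p ∈ FJ i j m → p.2 ∈ f T := by
    intro T i j m p hi hj hm hp
    rw [hf]
    refine Finset.mem_image_of_mem _ (Finset.mem_union_right _ ?_)
    exact Finset.mem_biUnion.2 ⟨(i, (j, m)), Finset.mem_product.2 ⟨hi,
      Finset.mem_product.2 ⟨hj, hm⟩⟩, hp⟩
  obtain ⟨h, hh⟩ := free6 f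
  have hN : ∀ c, pt h c ∈ L.N := by
    intro c
    apply L.FN
    intro p hp
    have h1 := f0 ((∅ : Finset (Fin 6)).map h) p hp
    apply pt_zero
    · intro e
      exact hh ∅ (av p.1) (Finset.notMem_empty _) (e ▸ h1)
    · intro e
      exact hh ∅ (bv p.1) (Finset.notMem_empty _) (e ▸ h1)
  have hm : ∀ (S : Finset (Fin 6)) y, y ∈ S → h y ∈ S.map h := fun S y hy =>
    Finset.mem_map_of_mem h hy
  have odd : ∀ (k : Fin 3) (Φ : A → A), (∀ s t, Φ (s - t) = Φ s - Φ t) →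
      (∀ s t, Φ (s + t) = Φ s + Φ t) →
      (∀ s, ∀ V ∈ BB Ind5, ‖Φ s * L.c V‖ ≤ 4 * ‖s * L.c V‖) →
      (∃ a, L.Sc (pt h (Function.update 1 (bv k) (-1))) (Φ (G.s k (h (av k)))) a) →
      (∃ a, L.Sc (pt h 1) (Φ (G.s k (h (bv k)))) a) →
      (∃ a, L.Sc (pt h (Function.update 1 (bv k) (-1))) (Φ (G.s k (h (bv k)))) a) →
      (∀ a b, L.Sc (pt h 1) (Φ (G.s k (h (av k)))) a →
        L.Sc (pt h (Function.update 1 (bv k) (-1))) (Φ (G.s k (h (av k)))) b → ‖a - b‖ ≤ ε) →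
      (∀ a b, L.Sc (pt h 1) (Φ (G.s k (h (bv k)))) a →
        L.Sc (pt h (Function.update 1 (av k) (-1))) (Φ (G.s k (h (bv k)))) b → ‖a - b‖ ≤ ε) →
      ∀ a, L.Sc (pt h 1) (Φ (G.s k (h (av k)))) a → ‖a‖ ≤ ε + 16 * ε := by
    intro k Φ hsub hadd hbd E1 E2 E3 D1 D2
    refine odd_core (x₁ := pt h (Function.update 1 (bv k) (-1)))
      (x₂ := pt h (Function.update 1 (av k) (-1))) (zb := Φ (G.s k (h (bv k)))) D1 D2 ?_ ?_ ?_
      E1 E2 E3
    · intro a b ha hb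
      have hV1 : {x : Xs Ind5 | x (k, h (av k)) ≠ 0 ∧ x (k, h (av k)) = x (k, h (bv k))} ∈
          BB Ind5 := two_mem k _ _ (fun a b => a ≠ 0 ∧ a = b) (by decide)
      have hV := (BB_balg _).inter _ hV1 _ (zero_set_mem (K₁ k (h (av k)) (h (bv k))))
      refine L.Sc_near hA (hN 1) hV ⟨⟨?_, ?_⟩, ?_⟩ ha hb ?_
      · rw [pt_a]; exact one6 _
      · rw [pt_a, pt_b]; rfl
      · intro p hp
        have hpk := hK₁ _ _ _ p hp
        have h1 := f1 (({av k, bv k} : Finset (Fin 6)).map h) k _ _ p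
          (hm _ _ (by simp)) (hm _ _ (by simp)) hp
        apply pt_zero
        · intro e
          refine hh _ (av p.1) ?_ (e ▸ h1)
          simp only [Finset.mem_insert, Finset.mem_singleton, not_or]
          exact ⟨fun e => hpk (av_inj e), av_ne_bv _ _⟩
        · intro e
          refine hh _ (bv p.1) ?_ (e ▸ h1)
          simp only [Finset.mem_insert, Finset.mem_singleton, not_or]
          exact ⟨fun e => av_ne_bv _ _ e.symm, fun e => hpk (bv_inj e)⟩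
      · rw [← hsub]
        have h1 := hK₁' k (h (av k)) (h (bv k)) _ hV (fun x hx => hx.1) (fun x hx => hx.2)
        have h2 := hbd (G.s k (h (av k)) - G.s k (h (bv k))) _ hV
        linarith
    · intro a b ha hb
      have hV1 : {x : Xs Ind5 | x (k, h (av k)) ≠ 0 ∧ x (k, h (bv k)) = -x (k, h (av k))} ∈
          BB Ind5 := two_mem k _ _ (fun a b => a ≠ 0 ∧ b = -a) (by decide)
      have hV := (BB_balg _).inter _ hV1 _ (zero_set_mem (K₂ k (h (av k)) (h (bv k))))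
      have hb' := L.Sc_neg hb
      have hab : a + b = a - -b := by ring
      rw [hab]
      refine L.Sc_near hA (hN _) hV ⟨⟨?_, ?_⟩, ?_⟩ ha hb' ?_
      · rw [pt_a, Function.update_of_ne (av_ne_bv k k)]; exact one6 _
      · rw [pt_a, pt_b, Function.update_of_ne (av_ne_bv k k), Function.update_self]; rfl
      · intro p hp
        have hpk := hK₂ _ _ _ p hp
        have h1 := f1' (({av k, bv k} : Finset (Fin 6)).map h) k _ _ p
          (hm _ _ (by simp)) (hm _ _ (by simp)) hp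
        apply pt_zero
        · intro e
          refine hh _ (av p.1) ?_ (e ▸ h1)
          simp only [Finset.mem_insert, Finset.mem_singleton, not_or]
          exact ⟨fun e => hpk (av_inj e), av_ne_bv _ _⟩
        · intro e
          refine hh _ (bv p.1) ?_ (e ▸ h1)
          simp only [Finset.mem_insert, Finset.mem_singleton, not_or]
          exact ⟨fun e => av_ne_bv _ _ e.symm, fun e => hpk (bv_inj e)⟩
      · rw [sub_neg_eq_add, ← hadd]
        have h1 := hK₂' k (h (av k)) (h (bv k)) _ hV (fun x hx => hx.1) (fun x hx => hx.2)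
        have h2 := hbd (G.s k (h (av k)) + G.s k (h (bv k))) _ hV
        linarith
    · intro a ha
      rw [← pt_flp]
      exact L.Sc_flp k ha
  -- values at special points
  have one_a : ∀ k, pt h 1 (k, h (av k)) ≠ 0 := fun k => by rw [pt_a]; exact one6 _
  have one_b : ∀ k, pt h 1 (k, h (bv k)) ≠ 0 := fun k => by rw [pt_b]; exact one6 _
  have upb_a : ∀ k l, pt h (Function.update 1 (bv k) (-1)) (l, h (av l)) ≠ 0 := fun k l => by
    rw [pt_a, Function.update_of_ne (av_ne_bv l k)]; exact one6 _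
  have upb_b : ∀ k, pt h (Function.update 1 (bv k) (-1)) (k, h (bv k)) ≠ 0 := fun k => by
    rw [pt_b, Function.update_self]; decide
  have upa_a : ∀ k l, k ≠ l → pt h (Function.update 1 (av k) (-1)) (l, h (av l)) ≠ 0 :=
    fun k l hkl => by
      rw [pt_a, Function.update_of_ne (fun e => hkl (av_inj e).symm)]; exact one6 _
  have upa_b : ∀ k l, pt h (Function.update 1 (av k) (-1)) (l, h (bv l)) ≠ 0 := fun k l => by
    rw [pt_b, Function.update_of_ne (fun e => av_ne_bv k l e.symm)]; exact one6 _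
  have gsmall : ∀ k l : Fin 3, k ≠ l → ∀ a,
      L.Sc (pt h 1) (G2 (G.s k (h (av k))) (G.s l (h (av l)))) a → ‖a‖ ≤ ε + 16 * ε := by
    intro k l hkl
    refine odd k (fun s => G2 s (G.s l (h (av l)))) (fun s t => G2_sub s t _)
      (fun s t => G2_add s t _) (fun s V hV => ?_) ?_ ?_ ?_ ?_ ?_
    · have := G2_bound hA (s := s) (G.sm l (h (av l))) (G.s_norm l (h (av l))) hV
      linarith [norm_nonneg (s * L.c V)]
    · exact G.valG hA (hN _) hkl (upb_a k k) (upb_a k l)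
    · exact G.valG hA (hN _) hkl (one_b k) (one_a l)
    · exact G.valG hA (hN _) hkl (upb_b k) (upb_a k l)
    · refine hFG k l _ _ hkl _ _ ?_ ⟨hN _, one_a k, one_a l⟩ ⟨hN _, upb_a k k, upb_a k l⟩
      intro p hp
      have h1 := f2 (({av k, av l} : Finset (Fin 6)).map h) k l _ _ p
        (hm _ _ (by simp)) (hm _ _ (by simp)) hp
      apply pt_agree h _ _ (bv k)
      · intro z hz
        rw [Function.update_of_ne hz]
      · intro e
        refine hh _ (bv k) ?_ (e ▸ h1)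
        simp only [Finset.mem_insert, Finset.mem_singleton, not_or]
        exact ⟨fun e => av_ne_bv _ _ e.symm, fun e => av_ne_bv _ _ e.symm⟩
    · refine hFG k l _ _ hkl _ _ ?_ ⟨hN _, one_b k, one_a l⟩ ⟨hN _, upa_b k k, upa_a k l hkl⟩
      intro p hp
      have h1 := f2 (({bv k, av l} : Finset (Fin 6)).map h) k l _ _ p
        (hm _ _ (by simp)) (hm _ _ (by simp)) hp
      apply pt_agree h _ _ (av k)
      · intro z hz
        rw [Function.update_of_ne hz]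
      · intro e
        refine hh _ (av k) ?_ (e ▸ h1)
        simp only [Finset.mem_insert, Finset.mem_singleton, not_or]
        exact ⟨av_ne_bv _ _, fun e => hkl (av_inj e)⟩
  have jsmall : ∀ a, L.Sc (pt h 1) (J3 (G.s 0 (h (av 0))) (G.s 1 (h (av 1)))
      (G.s 2 (h (av 2)))) a → ‖a‖ ≤ ε + 16 * ε := by
    refine odd 0 (fun s => J3 s (G.s 1 (h (av 1))) (G.s 2 (h (av 2)))) (fun s t => J3_sub s t _ _)
      (fun s t => J3_add s t _ _) (fun s V hV => ?_) ?_ ?_ ?_ ?_ ?_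
    · exact J3_bound hA (G.sm 1 (h (av 1))) (G.sm 2 (h (av 2))) (G.s_norm 1 (h (av 1)))
        (G.s_norm 2 (h (av 2))) hV
    · obtain ⟨a, b, c, d, _, _, _, hd, _⟩ := G.valJ hA (hN _) (upb_a 0 0) (upb_a 0 1) (upb_a 0 2)
      exact ⟨d, hd⟩
    · obtain ⟨a, b, c, d, _, _, _, hd, _⟩ := G.valJ hA (hN _) (one_b 0) (one_a 1) (one_a 2)
      exact ⟨d, hd⟩
    · obtain ⟨a, b, c, d, _, _, _, hd, _⟩ := G.valJ hA (hN _) (upb_b 0) (upb_a 0 1) (upb_a 0 2)
      exact ⟨d, hd⟩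
    · refine hFJ _ _ _ _ _ ?_ ⟨hN _, one_a 0, one_a 1, one_a 2⟩
        ⟨hN _, upb_a 0 0, upb_a 0 1, upb_a 0 2⟩
      intro p hp
      have h1 := f3 (({av 0, av 1, av 2} : Finset (Fin 6)).map h) _ _ _ p
        (hm _ _ (by simp)) (hm _ _ (by simp)) (hm _ _ (by simp)) hp
      apply pt_agree h _ _ (bv 0)
      · intro z hz
        rw [Function.update_of_ne hz]
      · intro e
        refine hh _ (bv 0) ?_ (e ▸ h1)
        decide
    · refine hFJ _ _ _ _ _ ?_ ⟨hN _, one_b 0, one_a 1, one_a 2⟩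
        ⟨hN _, upa_b 0 0, upa_a 0 1 (by decide), upa_a 0 2 (by decide)⟩
      intro p hp
      have h1 := f3 (({bv 0, av 1, av 2} : Finset (Fin 6)).map h) _ _ _ p
        (hm _ _ (by simp)) (hm _ _ (by simp)) (hm _ _ (by simp)) hp
      apply pt_agree h _ _ (av 0)
      · intro z hz
        rw [Function.update_of_ne hz]
      · intro e
        refine hh _ (av 0) ?_ (e ▸ h1)
        decide
  obtain ⟨a, b, c, d, ha, hb, hc, hd, heq⟩ := G.valJ hA (hN 1) (one_a 0) (one_a 1) (one_a 2)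
  have na := gsmall 0 1 (by decide) a ha
  have nb := gsmall 0 2 (by decide) b hb
  have nc := gsmall 1 2 (by decide) c hc
  have nd := jsmall d hd
  have h17 : ε + 16 * ε ≤ 1 / 10 := by rw [hε']; norm_num
  have na' := na.trans h17
  have nb' := nb.trans h17
  have nc' := nc.trans h17
  have nd' := nd.trans h17
  have e1 : (1 : ℂ) = a ^ 2 + b ^ 2 + c ^ 2 - 2 * a * b * c - d ^ 2 := by
    linear_combination (1 : ℂ) * heq
  have e2 : (1 : ℝ) ≤ ‖a‖ ^ 2 + ‖b‖ ^ 2 + ‖c‖ ^ 2 + 2 * ‖a‖ * ‖b‖ * ‖c‖ + ‖d‖ ^ 2 := by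
    calc (1 : ℝ) = ‖(1 : ℂ)‖ := by simp
      _ = ‖a ^ 2 + b ^ 2 + c ^ 2 - 2 * a * b * c - d ^ 2‖ := by rw [← e1]
      _ ≤ ‖a ^ 2 + b ^ 2 + c ^ 2 - 2 * a * b * c‖ + ‖d ^ 2‖ := norm_sub_le _ _
      _ ≤ ‖a ^ 2 + b ^ 2 + c ^ 2‖ + ‖2 * a * b * c‖ + ‖d ^ 2‖ := by
          gcongr; exact norm_sub_le _ _
      _ ≤ ‖a ^ 2 + b ^ 2‖ + ‖c ^ 2‖ + ‖2 * a * b * c‖ + ‖d ^ 2‖ := by
          gcongr; exact norm_add_le _ _
      _ ≤ ‖a ^ 2‖ + ‖b ^ 2‖ + ‖c ^ 2‖ + ‖2 * a * b * c‖ + ‖d ^ 2‖ := by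
          gcongr; exact norm_add_le _ _
      _ = _ := by
          rw [norm_pow, norm_pow, norm_pow, norm_pow, norm_mul, norm_mul, norm_mul]
          simp
  have pa : ‖a‖ ^ 2 ≤ 1 / 100 := by nlinarith [norm_nonneg a]
  have pb : ‖b‖ ^ 2 ≤ 1 / 100 := by nlinarith [norm_nonneg b]
  have pc : ‖c‖ ^ 2 ≤ 1 / 100 := by nlinarith [norm_nonneg c]
  have pd : ‖d‖ ^ 2 ≤ 1 / 100 := by nlinarith [norm_nonneg d]
  have pab : ‖a‖ * ‖b‖ ≤ 1 / 100 := by
    nlinarith [norm_nonneg a, norm_nonneg b]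
  have pabc : ‖a‖ * ‖b‖ * ‖c‖ ≤ 1 / 100 * (1 / 10) := by
    apply mul_le_mul pab nc' (norm_nonneg _) (by norm_num)
  nlinarith

end Pool.Agent.H413.NK
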