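import Pool.Agent.H413.NK.RgV

set_option autoImplicit false

/-!
The pattern: the properties of the monoid `V` of the ring which are used for C*-algebras.
-/

namespace Pool.Agent.H413.NK

open Pool.Agent.Y78.NK Pool.Agent.H494R3.NK

universe u

/-- The pattern. -/
structure Pat (I : Type) (M : Type u) [AddCommMonoid M] where
  r : Xs I → M →+ ℕ
  a : Fin 3 → Xs I → M →+ ℕ
  res : Set (Xs I) → M →+ M
  u : M
  al : Fin 3 → I → M
  be : Fin 3 → I → M
  inj : ∀ v w, (∀ x, r x v = r x w) → (∀ k x, Tsub x k → a k x v = a k x w) → v = w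
  le : ∀ v w, (∀ x, r x v ≤ r x w) → (∀ k x, Tsub x k → a k x v ≤ a k x w) → LeA v w
  dep : ∀ v, ∃ F : Finset (Fin 3 × I), ∀ x y : Xs I, (∀ p ∈ F, x p = y p) → r x v = r y v
  depa : ∀ k v, ∃ F : Finset (Fin 3 × I), ∀ x y : Xs I, Tsub x k → Tsub y k →
    (∀ p ∈ F, x p = y p) → a k x v = a k y v
  flip : ∀ k x v, r (flp k x) v = r x v
  split : ∀ k x v, Tsub x k → r x v = a k x v + a k (flp k x) v
  r_u : ∀ x, r x u = 2
  a_u : ∀ k x, Tsub x k → a k x u = 1
  r_res : ∀ U ∈ BB I, ∀ x v, x ∈ U → r x (res U v) = r x v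
  r_res' : ∀ U ∈ BB I, ∀ x v, x ∉ U → r x (res U v) = 0
  a_res : ∀ U ∈ BB I, ∀ k x v, Tsub x k → x ∈ U → a k x (res U v) = a k x v
  a_res' : ∀ U ∈ BB I, ∀ k x v, Tsub x k → x ∉ U → a k x (res U v) = 0
  r_al : ∀ k i x, x (k, i) ≠ 0 → r x (al k i) = 1
  r_al' : ∀ k i x, x (k, i) = 0 → r x (al k i) = 0
  r_be : ∀ k i x, x (k, i) ≠ 0 → r x (be k i) = 1
  r_be' : ∀ k i x, x (k, i) = 0 → r x (be k i) = 0
  a_al : ∀ k i x, Tsub x k → x (k, i) = 1 → a k x (al k i) = 1
  a_al' : ∀ k i x, Tsub x k → x (k, i) = -1 → a k x (al k i) = 0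
  a_be : ∀ k i x, Tsub x k → x (k, i) = -1 → a k x (be k i) = 1
  a_be' : ∀ k i x, Tsub x k → x (k, i) = 1 → a k x (be k i) = 0

/-- transport of the pattern -/
def Pat.trans {I : Type} {M : Type} [AddCommMonoid M] (P : Pat I M) {N : Type u}
    [AddCommMonoid N] (φ : M ≃+ N) : Pat I N where
  r x := (P.r x).comp φ.symm.toAddMonoidHom
  a k x := (P.a k x).comp φ.symm.toAddMonoidHom
  res U := φ.toAddMonoidHom.comp ((P.res U).comp φ.symm.toAddMonoidHom)
  u := φ P.u
  al k i := φ (P.al k i)
  be k i := φ (P.be k i)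
  inj v w h1 h2 := φ.symm.injective (P.inj _ _ h1 h2)
  le v w h1 h2 := by
    obtain ⟨c, hc⟩ := P.le _ _ h1 h2
    refine ⟨φ c, ?_⟩
    apply φ.symm.injective
    rw [map_add, φ.symm_apply_apply]
    exact hc
  dep v := P.dep _
  depa k v := P.depa k _
  flip k x v := P.flip k x _
  split k x v h := P.split k x _ h
  r_u x := by
    show P.r x (φ.symm (φ P.u)) = 2
    rw [φ.symm_apply_apply, P.r_u]
  a_u k x h := by
    show P.a k x (φ.symm (φ P.u)) = 1
    rw [φ.symm_apply_apply, P.a_u k x h]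
  r_res U hU x v hx := by
    show P.r x (φ.symm (φ (P.res U (φ.symm v)))) = P.r x (φ.symm v)
    rw [φ.symm_apply_apply, P.r_res U hU x _ hx]
  r_res' U hU x v hx := by
    show P.r x (φ.symm (φ (P.res U (φ.symm v)))) = 0
    rw [φ.symm_apply_apply, P.r_res' U hU x _ hx]
  a_res U hU k x v h hx := by
    show P.a k x (φ.symm (φ (P.res U (φ.symm v)))) = P.a k x (φ.symm v)
    rw [φ.symm_apply_apply, P.a_res U hU k x _ h hx]
  a_res' U hU k x v h hx := by
    show P.a k x (φ.symm (φ (P.res U (φ.symm v)))) = 0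
    rw [φ.symm_apply_apply, P.a_res' U hU k x _ h hx]
  r_al k i x h := by
    show P.r x (φ.symm (φ (P.al k i))) = 1
    rw [φ.symm_apply_apply, P.r_al k i x h]
  r_al' k i x h := by
    show P.r x (φ.symm (φ (P.al k i))) = 0
    rw [φ.symm_apply_apply, P.r_al' k i x h]
  r_be k i x h := by
    show P.r x (φ.symm (φ (P.be k i))) = 1
    rw [φ.symm_apply_apply, P.r_be k i x h]
  r_be' k i x h := by
    show P.r x (φ.symm (φ (P.be k i))) = 0
    rw [φ.symm_apply_apply, P.r_be' k i x h]
  a_al k i x h h' := by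
    show P.a k x (φ.symm (φ (P.al k i))) = 1
    rw [φ.symm_apply_apply, P.a_al k i x h h']
  a_al' k i x h h' := by
    show P.a k x (φ.symm (φ (P.al k i))) = 0
    rw [φ.symm_apply_apply, P.a_al' k i x h h']
  a_be k i x h h' := by
    show P.a k x (φ.symm (φ (P.be k i))) = 1
    rw [φ.symm_apply_apply, P.a_be k i x h h']
  a_be' k i x h h' := by
    show P.a k x (φ.symm (φ (P.be k i))) = 0
    rw [φ.symm_apply_apply, P.a_be' k i x h h']

/-! ### the pattern of the ring -/

/-- finite dependence -/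
theorem dep_of_local {J S : Type} [TopologicalSpace S] [CompactSpace S]
    (Q : (J → S) → (J → S) → Prop)
    (h : ∀ x, ∃ U : Set (J → S), IsOpen U ∧ x ∈ U ∧ ∀ y ∈ U, ∀ z ∈ U, Q y z) :
    ∃ F : Finset J, ∀ y z : J → S, (∀ j ∈ F, y j = z j) → Q y z := by
  classical
  have key : ∃ F : Finset J, ∀ y ∈ (Set.univ : Set (J → S)), ∀ z : J → S,
      (∀ j ∈ F, y j = z j) → Q y z := by
    refine IsCompact.induction_on (p := fun s : Set (J → S) => ∃ F : Finset J, ∀ y ∈ s,
      ∀ z : J → S, (∀ j ∈ F, y j = z j) → Q y z) isCompact_univ ?_ ?_ ?_ ?_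
    · exact ⟨∅, fun t ht => ht.elim⟩
    · rintro s s' hss ⟨F, hF⟩
      exact ⟨F, fun t ht => hF t (hss ht)⟩
    · rintro s s' ⟨F, hF⟩ ⟨F', hF'⟩
      refine ⟨F ∪ F', ?_⟩
      rintro t (ht | ht) t' h'
      · exact hF t ht t' fun i hi => h' i (Finset.mem_union_left _ hi)
      · exact hF' t ht t' fun i hi => h' i (Finset.mem_union_right _ hi)
    · intro x _
      obtain ⟨U, hU, hx, hQ⟩ := h x
      obtain ⟨F, u, hu, hsub⟩ := isOpen_pi_iff.1 hU x hx
      refine ⟨(F : Set J).pi u, ?_, F, ?_⟩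
      · rw [nhdsWithin_univ]
        exact (isOpen_set_pi F.finite_toSet fun i hi => (hu i hi).1).mem_nhds
          fun i hi => (hu i hi).2
      · intro y hy z hyz
        refine hQ y (hsub hy) z (hsub ?_)
        intro i hi
        rw [← hyz i hi]
        exact hy i hi
  obtain ⟨F, hF⟩ := key
  exact ⟨F, fun y z => hF y (Set.mem_univ y) z⟩

theorem dep_of_lc {J S Y : Type} [TopologicalSpace S] [CompactSpace S] {f : (J → S) → Y}
    (hf : IsLocallyConstant f) : ∃ F : Finset J, ∀ y z : J → S, (∀ j ∈ F, y j = z j) →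
      f y = f z := by
  apply dep_of_local
  intro x
  exact ⟨f ⁻¹' {f x}, hf _, rfl, fun y hy z hz => by
    have h1 : f y = f x := hy
    have h2 : f z = f x := hz
    rw [h1, h2]⟩

section
variable {I : Type}

theorem lc_sum {n : ℕ} (e : Matrix (Fin n) (Fin n) (Rg I)) (q : M2) :
    IsLocallyConstant (fun x : Xs I => ∑ i, ((e i i).1 x * q).trace) := by
  have h : ∀ s : Finset (Fin n), IsLocallyConstant
      (fun x : Xs I => ∑ i ∈ s, ((e i i).1 x * q).trace) := by
    intro s
    classical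
    induction s using Finset.induction_on with
    | empty =>
      simp only [Finset.sum_empty]
      exact IsLocallyConstant.const 0
    | insert a s ha ih =>
      simp only [Finset.sum_insert ha]
      exact ((e a a).2.1.comp (fun m => (m * q).trace)).add ih
  exact h Finset.univ

theorem rk_flp {k : Fin 3} {x : Xs I} (h : Tsub x k) (v : VV (Rg I)) :
    rkq (flp k x) (pp k) v = rkq x (pm k) v := by
  obtain ⟨n, e, he, rfl⟩ := exists_cm v
  have h' : Tsub (flp k x) k := fun l hl i => by rw [flp_ne hl]; exact h l hl i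
  have h1 := rkq_cm (adm_pp h') he
  have h2 := rkq_cm (adm_pm h) he
  have h3 : ∑ i, ((e i i).1 (flp k x) * pp k).trace = star (∑ i, ((e i i).1 x * pm k).trace) := by
    rw [star_sum]
    refine Finset.sum_congr rfl fun i _ => ?_
    rw [Rg_flp, ← gam_pm, ← map_mul, gam_trace]
  rw [h3, ← h2] at h1
  have h4 : (star (((rkq x (pm k) (cm he) : ℕ)) : ℂ)) = ((rkq x (pm k) (cm he) : ℕ) : ℂ) :=
    star_natCast _
  rw [h4] at h1
  exact_mod_cast h1

theorem rk_flip (k : Fin 3) (x : Xs I) (v : VV (Rg I)) :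
    rkq (flp k x) 1 v = rkq x 1 v := by
  obtain ⟨n, e, he, rfl⟩ := exists_cm v
  have h1 := rkq_cm (adm_one (flp k x)) he
  have h2 := rkq_cm (adm_one x) he
  have h3 : ∑ i, ((e i i).1 (flp k x) * 1).trace = star (∑ i, ((e i i).1 x * 1).trace) := by
    rw [star_sum]
    refine Finset.sum_congr rfl fun i _ => ?_
    rw [Rg_flp, mul_one, mul_one, gam_trace]
  rw [h3, ← h2] at h1
  have h4 : (star (((rkq x 1 (cm he) : ℕ)) : ℂ)) = ((rkq x 1 (cm he) : ℕ) : ℂ) :=
    star_natCast _
  rw [h4] at h1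
  exact_mod_cast h1

theorem rk_add_pm {k : Fin 3} {x : Xs I} (h : Tsub x k) (v : VV (Rg I)) :
    rkq x 1 v = rkq x (pp k) v + rkq x (pm k) v := by
  obtain ⟨n, e, he, rfl⟩ := exists_cm v
  have h0 := rkq_cm (adm_one x) he
  have h1 := rkq_cm (adm_pp h) he
  have h2 := rkq_cm (adm_pm h) he
  have h3 : ((rkq x 1 (cm he) : ℕ) : ℂ) =
      ((rkq x (pp k) (cm he) + rkq x (pm k) (cm he) : ℕ) : ℂ) := by
    rw [Nat.cast_add, h0, h1, h2, ← Finset.sum_add_distrib]
    refine Finset.sum_congr rfl fun i _ => ?_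
    rw [← Matrix.trace_add, ← mul_add, pm_eq]
    congr 2
    abel
  exact_mod_cast h3

theorem rkq_zero (x : Xs I) (w : VV (Rg I)) : rkq x 0 w = 0 := by
  obtain ⟨n, e, he, rfl⟩ := exists_cm w
  have h1 := rkq_cm (adm_zero x) he
  simp only [mul_zero, Matrix.trace_zero, Finset.sum_const_zero] at h1
  exact_mod_cast h1

theorem evv_le {x : Xs I} {v w : VV (Rg I)} (h1 : rkq x 1 v ≤ rkq x 1 w)
    (h2 : ∀ k, Tsub x k → rkq x (pp k) v ≤ rkq x (pp k) w)
    (h3 : ∀ k, Tsub (flp k x) k → rkq (flp k x) (pp k) v ≤ rkq (flp k x) (pp k) w) :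
    evv x v ≤ evv x w := by
  show (rkq x (qa x) v, rkq x (qb x) v) ≤ (rkq x (qa x) w, rkq x (qb x) w)
  by_cases h : Two x
  · have hq : qa x = 1 := by unfold qa; rw [if_pos h]
    have hq' : qb x = 0 := by unfold qb; rw [if_pos h]
    rw [hq, hq', rkq_zero, rkq_zero]
    exact ⟨h1, le_rfl⟩
  · by_cases h' : ∃ k, Tn x k
    · have hq : qa x = pp (kk x) := by unfold qa; rw [if_neg h, if_pos h']
      have hq' : qb x = pm (kk x) := by unfold qb; rw [if_neg h, if_pos h']
      have hs := kk_sub h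
      have hs' : Tsub (flp (kk x) x) (kk x) := fun l hl i => by rw [flp_ne hl]; exact hs l hl i
      rw [hq, hq', ← rk_flp hs, ← rk_flp hs]
      exact ⟨h2 _ hs, h3 _ hs'⟩
    · have hq : qa x = pp 0 := by unfold qa; rw [if_neg h, if_neg h']
      have hq' : qb x = 0 := by unfold qb; rw [if_neg h, if_neg h']
      rw [hq, hq', rkq_zero, rkq_zero]
      exact ⟨h2 0 fun l _ => not_Tn fun hl => h' ⟨l, hl⟩, le_rfl⟩

/-- the locally constant function with value `½ (1 ± x (k, i) σ)` -/
noncomputable def psec (k : Fin 3) (i : I) (s : SignType) (hs : s ≠ 0) : Rg I :=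
  ⟨fun x => if x (k, i) = 0 then 0 else if x (k, i) = s then pp k else pm k, by
    refine ⟨?_, fun l x => ?_⟩
    · have h1 : IsLocallyConstant (fun y : Xs I => y (k, i)) :=
        (IsLocallyConstant.iff_continuous _).2 (continuous_apply _)
      exact h1.comp (fun t : SignType => if t = 0 then (0 : M2) else if t = s then pp k else pm k)
    · show (if flp l x (k, i) = 0 then (0 : M2) else if flp l x (k, i) = s then pp k else pm k) =
        gam l (if x (k, i) = 0 then (0 : M2) else if x (k, i) = s then pp k else pm k)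
      by_cases hl : k = l
      · subst hl
        rw [flp_same]
        have key : ∀ t s : SignType, s ≠ 0 →
            (if -t = 0 then (0 : M2) else if -t = s then pp k else pm k) =
            gam k (if t = 0 then (0 : M2) else if t = s then pp k else pm k) := by
          intro t s hs
          have c0 : t = 0 ∨ t = 1 ∨ t = -1 := by revert t; decide
          have c1 : s = 1 ∨ s = -1 := by revert s; decide
          have d1 : (-(1 : SignType)) ≠ 0 := by decide
          have d2 : (1 : SignType) ≠ 0 := by decide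
          have d3 : (-(1 : SignType)) ≠ 1 := by decide
          have d4 : (1 : SignType) ≠ -1 := by decide
          have d5 : (-(-(1 : SignType))) = 1 := by decide
          have d6 : (-(0 : SignType)) = 0 := by decide
          rcases c0 with rfl | rfl | rfl
          · rw [d6, if_pos rfl, map_zero]
          · rcases c1 with rfl | rfl
            · rw [if_neg d1, if_neg d3, if_neg d2, if_pos rfl, gam_pp]
            · rw [if_neg d1, if_pos rfl, if_neg d2, if_neg d4, gam_pm]
          · rw [d5]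
            rcases c1 with rfl | rfl
            · rw [if_neg d2, if_pos rfl, if_neg d1, if_neg d3, gam_pm]
            · rw [if_neg d2, if_neg d4, if_neg d1, if_pos rfl, gam_pp]
        exact key _ _ hs
      · rw [flp_ne hl]
        split_ifs
        · rw [map_zero]
        · rw [gam_pp_ne (Ne.symm hl)]
        · rw [gam_pm_ne (Ne.symm hl)]⟩

theorem psec_zero {k : Fin 3} {i : I} {s : SignType} (hs : s ≠ 0) {x : Xs I}
    (h : x (k, i) = 0) : (psec k i s hs).1 x = 0 := if_pos h

theorem psec_pos {k : Fin 3} {i : I} {s : SignType} (hs : s ≠ 0) {x : Xs I}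
    (h : x (k, i) = s) : (psec k i s hs).1 x = pp k := by
  show (if x (k, i) = 0 then (0 : M2) else if x (k, i) = s then pp k else pm k) = pp k
  rw [if_neg (by rw [h]; exact hs), if_pos h]

theorem psec_neg {k : Fin 3} {i : I} {s : SignType} (hs : s ≠ 0) {x : Xs I}
    (h : x (k, i) ≠ 0) (h' : x (k, i) ≠ s) : (psec k i s hs).1 x = pm k := by
  show (if x (k, i) = 0 then (0 : M2) else if x (k, i) = s then pp k else pm k) = pm k
  rw [if_neg h, if_neg h']

theorem psec_idem (k : Fin 3) (i : I) (s : SignType) (hs : s ≠ 0) :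
    psec k i s hs * psec k i s hs = psec k i s hs := by
  apply Subtype.ext
  funext x
  show (psec k i s hs).1 x * (psec k i s hs).1 x = (psec k i s hs).1 x
  by_cases h : x (k, i) = 0
  · rw [psec_zero hs h, mul_zero]
  · by_cases h' : x (k, i) = s
    · rw [psec_pos hs h', pp_idem]
    · rw [psec_neg hs h h', pm_idem]

theorem rkq_cl {x : Xs I} {q : M2} (h : Adm x q) {f : Rg I} (hf : f * f = f) :
    ((rkq x q (cl hf) : ℕ) : ℂ) = (f.1 x * q).trace := by
  have := rkq_cm h (s1_idem hf)
  show ((rkq x q (cm (s1_idem hf)) : ℕ) : ℂ) = _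
  rw [this]
  simp [s1]

theorem rkq_res {x : Xs I} {q : M2} (h : Adm x q) {U : Set (Xs I)} (hU : U ∈ BB I) (hx : x ∈ U)
    (v : VV (Rg I)) : rkq x q (res U v) = rkq x q v := by
  obtain ⟨n, e, he, rfl⟩ := exists_cm v
  have h1 := rkq_cm h he
  rw [res_cm hU]
  have h2 := rkq_cm h (map_idem (cutH U hU) he)
  have h3 : ∑ i, (((e.map (cutH U hU)) i i).1 x * q).trace = ∑ i, ((e i i).1 x * q).trace :=
    Finset.sum_congr rfl fun i _ => by rw [Matrix.map_apply, cutH_pos hU _ hx]
  rw [h3, ← h1] at h2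
  exact_mod_cast h2

theorem rkq_res' {x : Xs I} {q : M2} (h : Adm x q) {U : Set (Xs I)} (hU : U ∈ BB I) (hx : x ∉ U)
    (v : VV (Rg I)) : rkq x q (res U v) = 0 := by
  obtain ⟨n, e, he, rfl⟩ := exists_cm v
  rw [res_cm hU]
  have h2 := rkq_cm h (map_idem (cutH U hU) he)
  have h3 : ∑ i, (((e.map (cutH U hU)) i i).1 x * q).trace = 0 :=
    Finset.sum_eq_zero fun i _ => by rw [Matrix.map_apply, cutH_neg hU _ hx, zero_mul,
      Matrix.trace_zero]
  rw [h3] at h2
  exact_mod_cast h2

theorem rkq_dep (q : M2) (v : VV (Rg I)) : ∃ F : Finset (Fin 3 × I), ∀ x y : Xs I,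
    Adm x q → Adm y q → (∀ p ∈ F, x p = y p) → rkq x q v = rkq y q v := by
  obtain ⟨n, e, he, rfl⟩ := exists_cm v
  obtain ⟨F, hF⟩ := dep_of_lc (lc_sum e q)
  refine ⟨F, fun x y hx hy h => ?_⟩
  have h1 := rkq_cm hx he
  have h2 := rkq_cm hy he
  have h3 := hF x y h
  rw [h3, ← h2] at h1
  exact_mod_cast h1

theorem tr_one : ((1 : M2)).trace = 2 := by
  rw [Matrix.trace_fin_two]; simp; norm_num

/-- the pattern of the ring -/
noncomputable def patR (I : Type) : Pat I (VV (Rg I)) where
  r x := rkq x 1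
  a k x := rkq x (pp k)
  res := res
  u := cl (p := (1 : Rg I)) (one_mul 1)
  al k i := cl (psec_idem k i 1 (by decide))
  be k i := cl (psec_idem k i (-1) (by decide))
  inj v w h1 h2 := by
    apply (sheafy I).inj
    intro x
    exact le_antisymm (evv_le (h1 x).le (fun k hk => (h2 k x hk).le) fun k hk => (h2 k _ hk).le)
      (evv_le (h1 x).ge (fun k hk => (h2 k x hk).ge) fun k hk => (h2 k _ hk).ge)
  le v w h1 h2 := (sheafy I).le fun x => evv_le (h1 x) (fun k hk => h2 k x hk) fun k hk => h2 k _ hk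
  dep v := by
    obtain ⟨F, hF⟩ := rkq_dep 1 v
    exact ⟨F, fun x y h => hF x y (adm_one x) (adm_one y) h⟩
  depa k v := by
    obtain ⟨F, hF⟩ := rkq_dep (pp k) v
    exact ⟨F, fun x y hx hy h => hF x y (adm_pp hx) (adm_pp hy) h⟩
  flip k x v := rk_flip k x v
  split k x v h := by
    rw [rk_add_pm h, rk_flp h]
  r_u x := by
    have := rkq_cl (adm_one x) (f := (1 : Rg I)) (one_mul 1)
    have h2 : (((1 : Rg I)).1 x * 1).trace = 2 := by rw [mul_one]; exact tr_one
    rw [h2] at this
    exact_mod_cast this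
  a_u k x h := by
    have := rkq_cl (adm_pp h) (f := (1 : Rg I)) (one_mul 1)
    have h2 : (((1 : Rg I)).1 x * pp k).trace = 1 := by
      rw [show ((1 : Rg I)).1 x = 1 from rfl, one_mul, pp_trace]
    rw [h2] at this
    exact_mod_cast this
  r_res U hU x v hx := rkq_res (adm_one x) hU hx v
  r_res' U hU x v hx := rkq_res' (adm_one x) hU hx v
  a_res U hU k x v h hx := rkq_res (adm_pp h) hU hx v
  a_res' U hU k x v h hx := rkq_res' (adm_pp h) hU hx v
  r_al k i x h := by
    have := rkq_cl (adm_one x) (psec_idem k i 1 (by decide))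
    have h2 : ((psec k i 1 (by decide)).1 x * 1).trace = 1 := by
      rw [mul_one]
      by_cases h' : x (k, i) = 1
      · rw [psec_pos _ h', pp_trace]
      · rw [psec_neg _ h h', pm_trace]
    rw [h2] at this
    exact_mod_cast this
  r_al' k i x h := by
    have := rkq_cl (adm_one x) (psec_idem k i 1 (by decide))
    rw [psec_zero _ h, zero_mul, Matrix.trace_zero] at this
    exact_mod_cast this
  r_be k i x h := by
    have := rkq_cl (adm_one x) (psec_idem k i (-1) (by decide))
    have h2 : ((psec k i (-1) (by decide)).1 x * 1).trace = 1 := by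
      rw [mul_one]
      by_cases h' : x (k, i) = -1
      · rw [psec_pos _ h', pp_trace]
      · rw [psec_neg _ h h', pm_trace]
    rw [h2] at this
    exact_mod_cast this
  r_be' k i x h := by
    have := rkq_cl (adm_one x) (psec_idem k i (-1) (by decide))
    rw [psec_zero _ h, zero_mul, Matrix.trace_zero] at this
    exact_mod_cast this
  a_al k i x h h' := by
    have := rkq_cl (adm_pp h) (psec_idem k i 1 (by decide))
    rw [psec_pos _ h', pp_idem, pp_trace] at this
    exact_mod_cast this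
  a_al' k i x h h' := by
    have := rkq_cl (adm_pp h) (psec_idem k i 1 (by decide))
    rw [psec_neg _ (by rw [h']; decide) (by rw [h']; decide), pm_pp, Matrix.trace_zero] at this
    exact_mod_cast this
  a_be k i x h h' := by
    have := rkq_cl (adm_pp h) (psec_idem k i (-1) (by decide))
    rw [psec_pos _ h', pp_idem, pp_trace] at this
    exact_mod_cast this
  a_be' k i x h h' := by
    have := rkq_cl (adm_pp h) (psec_idem k i (-1) (by decide))
    rw [psec_neg _ (by rw [h']; decide) (by rw [h']; decide), pm_pp, Matrix.trace_zero] at this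
    exact_mod_cast this

end

end Pool.Agent.H413.NK
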