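import Pool.Agent.H413.NK.MatD
import Pool.Agent.H413.NK.Pat
import Pool.Agent.H413.G.R_seed8.H494R3.NK.EqZ
import Pool.Agent.H413.G.R_seed8.H399R6.NKProj
import Pool.Agent.H413.G.R_seed8.H719R4.NK.Sum
import Pool.Agent.H413.G.R_seed8.H853R3.NK.TaskSplit

set_option autoImplicit false

/-!
Central projections of a corner of a C*-algebra of real rank zero with the given pattern.
-/

namespace Pool.Agent.H413.NK

open Pool.Agent.Y78.NK Pool.Agent.H494R3.NK

universe u

section ring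
variable {R : Type u} [NonUnitalRing R]

/-- the class of an idempotent -/
noncomputable def kl (p : R) : VV R := open Classical in if h : p * p = p then cl h else 0

theorem kl_eq {p : R} (h : p * p = p) : kl p = cl h := by
  unfold kl
  rw [dif_pos h]

theorem kl_zero {p : R} (h : p * p = p) : kl p = 0 ↔ p = 0 := by
  rw [kl_eq h]
  exact Pool.Agent.H494R3.NK.eqZ_zero R p h

theorem kl_add {e f : R} (he : e * e = e) (hf : f * f = f) (h1 : e * f = 0) (h2 : f * e = 0) :
    kl (e + f) = kl e + kl f := by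
  have hef : (e + f) * (e + f) = e + f := by
    rw [add_mul, mul_add, mul_add, he, hf, h1, h2, add_zero, zero_add]
  rw [kl_eq he, kl_eq hf, kl_eq hef]
  exact Pool.Agent.H719R4.NK.taskSum R e f he hf hef h1 h2

theorem kl_equiv {p q s t : R} (hp : p * p = p) (hq : q * q = q) (h1 : s * t = p)
    (h2 : t * s = q) : kl p = kl q := by
  rw [kl_eq hp, kl_eq hq]
  refine VV.mk_eq.2 ⟨s1 s, s1 t, ?_, ?_⟩
  · rw [Pool.Agent.H719R4.NK.s1_mul, h1]
  · rw [Pool.Agent.H719R4.NK.s1_mul, h2]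

theorem kl_eq_iff {p q : R} (hp : p * p = p) (hq : q * q = q) (h : kl p = kl q) :
    ∃ s t : R, s * t = p ∧ t * s = q ∧ p * s = s ∧ s * q = s ∧ q * t = t ∧ t * p = t := by
  rw [kl_eq hp, kl_eq hq] at h
  exact (Pool.Agent.H494R3.NK.eqZ_eq R p q hp hq).1 h

theorem kl_dom {f q y z : R} (hf : f * f = f) (hq : q * q = q) (h : f = y * q * z) :
    LeA (kl f) (kl q) := by
  rw [kl_eq hf, kl_eq hq]
  obtain ⟨w, hw⟩ := Pool.Agent.H36R3.NK.taskDom R q hq 1 1 (s1 f) (s1_idem hf) (s1 y) (s1 z) (by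
    ext1 i j
    rw [Matrix.mul_apply, Fin.sum_univ_one, Matrix.mul_diagonal]
    exact h)
  exact ⟨w, by rw [← one_nsmul (cl hq)]; exact hw⟩

theorem kl_sub {f q : R} (hf : f * f = f) (hq : q * q = q) (h : q * f = f) :
    LeA (kl f) (kl q) :=
  kl_dom hf hq (y := f) (z := f) (by rw [mul_assoc, h, hf])

theorem kl_sub' {f q : R} (hf : f * f = f) (hq : q * q = q) (h : f * q = f) :
    LeA (kl f) (kl q) :=
  kl_dom hf hq (y := f) (z := f) (by rw [h, hf])

theorem kl_split {p : R} (hp : p * p = p) {x : VV R} (h : LeA x (kl p)) :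
    ∃ e : R, e * e = e ∧ p * e = e ∧ e * p = e ∧ kl e = x := by
  obtain ⟨y, hy⟩ := h
  rw [kl_eq hp] at hy
  obtain ⟨e, f, he, hf, hef, h1, h2, h3, h4⟩ :=
    Pool.Agent.H853R3.NK.Split.taskSplit R p hp x y hy.symm
  refine ⟨e, he, ?_, ?_, by rw [kl_eq he, h3]⟩
  · rw [← hef, add_mul, he, h2, add_zero]
  · rw [← hef, mul_add, he, h1, add_zero]

end ring

section pat
variable {I : Type} {M : Type u} [AddCommMonoid M] (P : Pat I M)

theorem Pat.a_le {k : Fin 3} {x : Xs I} (h : Tsub x k) (v : M) : P.a k x v ≤ P.r x v := by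
  rw [P.split k x v h]
  exact Nat.le_add_right _ _

theorem Pat.zero {v : M} (h : ∀ x, P.r x v = 0) : v = 0 := by
  apply P.inj
  · intro x
    rw [h, map_zero]
  · intro k x hx
    rw [map_zero]
    have := P.a_le hx v
    rw [h] at this
    exact Nat.le_zero.1 this

theorem Pat.r_mono {v w : M} (h : LeA v w) (x : Xs I) : P.r x v ≤ P.r x w := by
  obtain ⟨c, rfl⟩ := h
  rw [map_add]
  exact Nat.le_add_right _ _

theorem Pat.a_mono {v w : M} (h : LeA v w) (k : Fin 3) (x : Xs I) : P.a k x v ≤ P.a k x w := by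
  obtain ⟨c, rfl⟩ := h
  rw [map_add]
  exact Nat.le_add_right _ _

theorem Pat.res_le {U : Set (Xs I)} (hU : U ∈ BB I) (v : M) : LeA (P.res U v) v := by
  apply P.le
  · intro x
    by_cases hx : x ∈ U
    · rw [P.r_res U hU x v hx]
    · rw [P.r_res' U hU x v hx]; exact Nat.zero_le _
  · intro k x h
    by_cases hx : x ∈ U
    · rw [P.a_res U hU k x v h hx]
    · rw [P.a_res' U hU k x v h hx]; exact Nat.zero_le _

include P in
theorem Pat.cancel {v w c : M} (h : v + c = w + c) : v = w := by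
  apply P.inj
  · intro x
    have := congrArg (P.r x) h
    rw [map_add, map_add] at this
    omega
  · intro k x _
    have := congrArg (P.a k x) h
    rw [map_add, map_add] at this
    omega

end pat

section alg
variable {I : Type} {A : Type u} [NonUnitalCStarAlgebra A] (P : Pat I (VV A))

/-- the rank at a point -/
noncomputable def rr (x : Xs I) (p : A) : ℕ := P.r x (kl p)

theorem rr_zero_imp {p : A} (hp : p * p = p) (h : ∀ x, rr P x p = 0) : p = 0 :=
  (kl_zero hp).1 (P.zero h)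

theorem rr_add {e f : A} (he : e * e = e) (hf : f * f = f) (h1 : e * f = 0) (h2 : f * e = 0)
    (x : Xs I) : rr P x (e + f) = rr P x e + rr P x f := by
  unfold rr
  rw [kl_add he hf h1 h2, map_add]

theorem rr_le {e f : A} (h : LeA (kl e) (kl f)) (x : Xs I) : rr P x e ≤ rr P x f := P.r_mono h x

theorem orth0 (hA : RealRankZero A) {e f : A} (he : e * e = e) (hf : f * f = f)
    (h : ∀ x, rr P x e = 0 ∨ rr P x f = 0) (z : A) : e * z * f = 0 := by
  have key : ∀ ε : ℝ, 0 < ε → ‖e * z * f‖ ≤ ε := by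
    intro ε hε
    obtain ⟨g, y, hgg, hgs, hgy, hn⟩ := hp hA (e * z * f) ε hε
    have h1 : LeA (kl g) (kl e) := kl_sub hgg he (by
      rw [hgy, ← mul_assoc, ← mul_assoc, ← mul_assoc, he])
    have h2 : LeA (kl g) (kl f) := kl_dom hgg hf hgy
    have hg : g = 0 := rr_zero_imp P hgg fun x => by
      have k1 := rr_le P h1 x
      have k2 := rr_le P h2 x
      rcases h x with h | h <;> omega
    rwa [hg, zero_mul, sub_zero] at hn
  rw [← norm_le_zero_iff]
  exact le_of_forall_pos_le_add fun ε hε => by rw [zero_add]; exact key ε hε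

theorem exists_sub {p₀ : A} (hp : p₀ * p₀ = p₀) (hs : star p₀ = p₀) {v : VV A}
    (h : LeA v (kl p₀)) : ∃ p : A, p * p = p ∧ star p = p ∧ p₀ * p = p ∧ p * p₀ = p ∧
      kl p = v := by
  obtain ⟨e, he, h1, h2, h3⟩ := kl_split hp h
  obtain ⟨p, hpp, hps, h4, h5⟩ := Pool.Agent.H399R6.NKProj.taskProj A e he
  have h6 : p₀ * p = p := by rw [← h5, ← mul_assoc, h1]
  refine ⟨p, hpp, hps, h6, ?_, ?_⟩
  · have := congrArg star h6
    rwa [star_mul, hs, hps] at this
  · rw [← h3]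
    exact kl_equiv hpp he h5 h4

/-- a corner with its central projections -/
structure Loc where
  E : A
  EE : E * E = E
  Es : star E = E
  N : Set (Xs I)
  NB : N ∈ BB I
  kE : kl E = P.res N P.u
  c : Set (Xs I) → A
  cc : ∀ U ∈ BB I, c U * c U = c U
  cs : ∀ U ∈ BB I, star (c U) = c U
  Ec : ∀ U ∈ BB I, E * c U = c U
  cE : ∀ U ∈ BB I, c U * E = c U
  kc : ∀ U ∈ BB I, kl (c U) = P.res U (kl E)
  F : Finset (Fin 3 × I)
  FN : ∀ x : Xs I, (∀ p ∈ F, x p = 0) → x ∈ N

end alg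

theorem zero_set_mem {I : Type} (F : Finset (Fin 3 × I)) :
    {x : Xs I | ∀ p ∈ F, x p = 0} ∈ BB I := by
  refine ⟨?_, fun k x => ?_⟩
  · have : {x : Xs I | ∀ p ∈ F, x p = 0} = ⋂ p ∈ F, {x | x p = 0} := by
      ext x; simp
    rw [this]
    apply Set.Finite.isClopen_biInter F.finite_toSet
    intro p _
    have h : IsClopen ({0} : Set SignType) := isClopen_discrete _
    exact h.preimage (continuous_apply p)
  · constructor
    · intro h p hp
      have := h p hp
      exact (flp_zero_iff k p.1 x p.2).1 this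
    · intro h p hp
      exact (flp_zero_iff k p.1 x p.2).2 (h p hp)

theorem exists_loc {I : Type} {A : Type u} [NonUnitalCStarAlgebra A] (hA : RealRankZero A)
    (P : Pat I (VV A)) : Nonempty (Loc P) := by
  classical
  obtain ⟨f, hff, hfs, m, hm⟩ := exists_dom hA P.u
  obtain ⟨F₁, hF₁⟩ := P.dep (kl f)
  choose F₂ hF₂ using fun k => P.depa k (kl f)
  obtain ⟨F, hF⟩ : ∃ F : Finset (Fin 3 × I), F = F₁ ∪ Finset.univ.biUnion F₂ := ⟨_, rfl⟩
  have hT : ∀ k, Tsub (0 : Xs I) k := fun k l _ i => rfl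
  have h0 : ∀ k, 1 ≤ P.a k 0 (kl f) := by
    intro k
    have h1 := P.r_mono hm 0
    rw [map_nsmul, P.r_u] at h1
    have h2 := P.split k 0 (cl hff) (hT k)
    have h3 : flp k (0 : Xs I) = 0 := flp_self fun i => rfl
    rw [h3] at h2
    rw [kl_eq hff]
    by_contra hcon
    have h4 : P.a k 0 (cl hff) = 0 := by omega
    rw [h4] at h2
    rw [h2] at h1
    simp at h1
  have hle : LeA (P.res {x : Xs I | ∀ p ∈ F, x p = 0} P.u) (kl f) := by
    have haa : ∀ x ∈ {x : Xs I | ∀ p ∈ F, x p = 0}, ∀ k, Tsub x k → 1 ≤ P.a k x (kl f) := by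
      intro x hx k hk
      rw [hF₂ k x 0 hk (hT k) (fun p hp => by
        rw [hx p (by rw [hF]; exact Finset.mem_union_right _ (Finset.mem_biUnion.2
          ⟨k, Finset.mem_univ k, hp⟩))]; rfl)]
      exact h0 k
    apply P.le
    · intro x
      by_cases hx : x ∈ {x : Xs I | ∀ p ∈ F, x p = 0}
      · rw [P.r_res _ (zero_set_mem F) x _ hx, P.r_u]
        rw [hF₁ x 0 (fun p hp => by
          rw [hx p (by rw [hF]; exact Finset.mem_union_left _ hp)]; rfl)]
        have h2 := P.split 0 0 (kl f) (hT 0)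
        have h3 : flp 0 (0 : Xs I) = 0 := flp_self fun i => rfl
        rw [h3] at h2
        have := h0 0
        omega
      · rw [P.r_res' _ (zero_set_mem F) x _ hx]; exact Nat.zero_le _
    · intro k x hk
      by_cases hx : x ∈ {x : Xs I | ∀ p ∈ F, x p = 0}
      · rw [P.a_res _ (zero_set_mem F) k x _ hk hx, P.a_u k x hk]
        exact haa x hx k hk
      · rw [P.a_res' _ (zero_set_mem F) k x _ hk hx]; exact Nat.zero_le _
  obtain ⟨E, hEE, hEs, -, -, hkE⟩ := exists_sub hff hfs hle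
  have hex : ∀ U : Set (Xs I), ∃ c : A, U ∈ BB I → (c * c = c ∧ star c = c ∧ E * c = c ∧
      c * E = c ∧ kl c = P.res U (kl E)) := by
    intro U
    by_cases hU : U ∈ BB I
    · obtain ⟨c, h⟩ := exists_sub hEE hEs (P.res_le hU (kl E))
      exact ⟨c, fun _ => h⟩
    · exact ⟨0, fun h => absurd h hU⟩
  choose c hc using hex
  exact ⟨⟨E, hEE, hEs, {x : Xs I | ∀ p ∈ F, x p = 0}, zero_set_mem F, hkE, c,
    fun U hU => (hc U hU).1, fun U hU => (hc U hU).2.1,
    fun U hU => (hc U hU).2.2.1, fun U hU => (hc U hU).2.2.2.1,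
    fun U hU => (hc U hU).2.2.2.2, F, fun x hx => hx⟩⟩

namespace Loc

variable {I : Type} {A : Type u} [NonUnitalCStarAlgebra A] {P : Pat I (VV A)} (L : Loc P)

/-- membership in the corner -/
def mem (z : A) : Prop := L.E * z = z ∧ z * L.E = z

theorem mem_c {U : Set (Xs I)} (hU : U ∈ BB I) : L.mem (L.c U) := ⟨L.Ec U hU, L.cE U hU⟩

theorem mem_E : L.mem L.E := ⟨L.EE, L.EE⟩

theorem mem_mul {y z : A} (hy : L.mem y) (hz : L.mem z) : L.mem (y * z) :=
  ⟨by rw [← mul_assoc, hy.1], by rw [mul_assoc, hz.2]⟩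

theorem mem_add {y z : A} (hy : L.mem y) (hz : L.mem z) : L.mem (y + z) :=
  ⟨by rw [mul_add, hy.1, hz.1], by rw [add_mul, hy.2, hz.2]⟩

theorem mem_sub {y z : A} (hy : L.mem y) (hz : L.mem z) : L.mem (y - z) :=
  ⟨by rw [mul_sub, hy.1, hz.1], by rw [sub_mul, hy.2, hz.2]⟩

theorem mem_smul {z : A} (k : ℂ) (hz : L.mem z) : L.mem (k • z) :=
  ⟨by rw [mul_smul_comm, hz.1], by rw [smul_mul_assoc, hz.2]⟩

theorem rr_E {x : Xs I} (hx : x ∈ L.N) : rr P x L.E = 2 := by
  unfold rr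
  rw [L.kE, P.r_res _ L.NB x _ hx, P.r_u]

theorem rr_c {U : Set (Xs I)} (hU : U ∈ BB I) {x : Xs I} (hx : x ∈ U) :
    rr P x (L.c U) = rr P x L.E := by
  unfold rr
  rw [L.kc U hU, P.r_res _ hU x _ hx]

theorem rr_c' {U : Set (Xs I)} (hU : U ∈ BB I) {x : Xs I} (hx : x ∉ U) :
    rr P x (L.c U) = 0 := by
  unfold rr
  rw [L.kc U hU, P.r_res' _ hU x _ hx]

theorem compl_idem {p : A} (hp : p * p = p) (h : L.mem p) :
    (L.E - p) * (L.E - p) = L.E - p := by
  rw [mul_sub, sub_mul, sub_mul, L.EE, h.1, h.2, hp, sub_self, sub_zero]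

theorem rr_compl {p : A} (hp : p * p = p) (h : L.mem p) (x : Xs I) :
    rr P x p + rr P x (L.E - p) = rr P x L.E := by
  rw [← rr_add P hp (L.compl_idem hp h) (by rw [mul_sub, h.2, hp, sub_self])
    (by rw [sub_mul, h.1, hp, sub_self])]
  congr 1
  abel

theorem cen (hA : RealRankZero A) {U : Set (Xs I)} (hU : U ∈ BB I) {z : A} (hz : L.mem z) :
    L.c U * z = z * L.c U := by
  have hc := L.mem_c hU
  have h1 : ∀ x, rr P x (L.c U) = 0 ∨ rr P x (L.E - L.c U) = 0 := by
    intro x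
    by_cases hx : x ∈ U
    · right
      have k1 := L.rr_compl (L.cc U hU) hc x
      have k2 := L.rr_c hU hx
      omega
    · exact Or.inl (L.rr_c' hU hx)
  have e1 := orth0 P hA (L.cc U hU) (L.compl_idem (L.cc U hU) hc) h1 z
  have e2 := orth0 P hA (L.compl_idem (L.cc U hU) hc) (L.cc U hU) (fun x => (h1 x).symm) z
  have e3 : L.c U * z = L.c U * z * L.c U := by
    rw [mul_sub, mul_assoc, hz.2, sub_eq_zero] at e1
    exact e1
  have e4 : z * L.c U = L.c U * z * L.c U := by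
    rw [sub_mul, sub_mul, hz.1, sub_eq_zero] at e2
    exact e2
  rw [e3, e4]

theorem c_mul_idem (hA : RealRankZero A) {U : Set (Xs I)} (hU : U ∈ BB I) {f : A} (hf : f * f = f)
    (hfm : L.mem f) : (f * L.c U) * (f * L.c U) = f * L.c U := by
  calc (f * L.c U) * (f * L.c U) = f * (L.c U * f) * L.c U := by simp only [mul_assoc]
    _ = (f * f) * (L.c U * L.c U) := by rw [L.cen hA hU hfm]; simp only [mul_assoc]
    _ = _ := by rw [hf, L.cc U hU]

/-- support -/
theorem c_sup (hA : RealRankZero A) {U : Set (Xs I)} (hU : U ∈ BB I) {f : A} (hf : f * f = f)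
    (hfm : L.mem f) (h : ∀ x, x ∉ U → rr P x f = 0) : f * L.c U = f := by
  have hc := L.mem_c hU
  have hcen := L.cen hA hU hfm
  have hi : (f * (L.E - L.c U)) * (f * (L.E - L.c U)) = f * (L.E - L.c U) := by
    have e1 : (L.E - L.c U) * f = f * (L.E - L.c U) := by
      rw [sub_mul, mul_sub, hfm.1, hfm.2, hcen]
    calc (f * (L.E - L.c U)) * (f * (L.E - L.c U)) =
        f * ((L.E - L.c U) * f) * (L.E - L.c U) := by simp only [mul_assoc]
      _ = (f * f) * ((L.E - L.c U) * (L.E - L.c U)) := by rw [e1]; simp only [mul_assoc]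
      _ = _ := by rw [hf, L.compl_idem (L.cc U hU) hc]
  have h0 : f * (L.E - L.c U) = 0 := by
    apply rr_zero_imp P hi
    intro x
    by_cases hx : x ∈ U
    · have k1 := L.rr_compl (L.cc U hU) hc x
      have k2 := L.rr_c hU hx
      have k3 := rr_le P (kl_sub' hi (L.compl_idem (L.cc U hU) hc) (by
        rw [mul_assoc, L.compl_idem (L.cc U hU) hc])) x
      omega
    · have k3 := rr_le P (kl_sub hi hf (by rw [← mul_assoc, hf])) x
      rw [h x hx] at k3
      omega
  rw [mul_sub, hfm.2, sub_eq_zero] at h0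
  exact h0.symm

theorem c_inter (hA : RealRankZero A) {U W : Set (Xs I)} (hU : U ∈ BB I) (hW : W ∈ BB I) :
    L.c U * L.c W = L.c (U ∩ W) := by
  have hUW := (BB_balg I).inter U hU W hW
  have hi := L.c_mul_idem hA hW (L.cc U hU) (L.mem_c hU)
  have hm := L.mem_mul (L.mem_c hU) (L.mem_c hW)
  have h1 := L.c_sup hA hUW hi hm (by
    intro x hx
    by_cases hxU : x ∈ U
    · have k := rr_le P (kl_sub' hi (L.cc W hW) (by rw [mul_assoc, L.cc W hW])) x
      rw [L.rr_c' hW (fun h => hx ⟨hxU, h⟩)] at k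
      omega
    · have k := rr_le P (kl_sub hi (L.cc U hU) (by rw [← mul_assoc, L.cc U hU])) x
      rw [L.rr_c' hU hxU] at k
      omega)
  have h2 := L.c_sup hA hU (L.cc _ hUW) (L.mem_c hUW) (fun x hx => L.rr_c' hUW fun h => hx h.1)
  have h3 := L.c_sup hA hW (L.cc _ hUW) (L.mem_c hUW) (fun x hx => L.rr_c' hUW fun h => hx h.2)
  calc L.c U * L.c W = L.c U * L.c W * L.c (U ∩ W) := h1.symm
    _ = L.c (U ∩ W) * (L.c U * L.c W) := (L.cen hA hUW hm).symm
    _ = L.c (U ∩ W) := by rw [← mul_assoc, h2, h3]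

theorem c_univ (hA : RealRankZero A) : L.c Set.univ = L.E := by
  have h := L.c_sup hA (BB_balg I).univ L.EE L.mem_E (fun x hx => absurd (Set.mem_univ x) hx)
  rw [L.Ec _ (BB_balg I).univ] at h
  exact h

theorem c_empty : L.c ∅ = 0 :=
  rr_zero_imp P (L.cc _ (BB_balg I).empty) fun x => L.rr_c' (BB_balg I).empty (Set.notMem_empty x)

theorem c_compl (hA : RealRankZero A) {U : Set (Xs I)} (hU : U ∈ BB I) :
    L.c Uᶜ = L.E - L.c U := by
  have hU' := (BB_balg I).compl U hU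
  have hc := L.mem_c hU
  have h1 := L.c_sup hA hU' (L.compl_idem (L.cc U hU) hc) (L.mem_sub L.mem_E hc) (by
    intro x hx
    have hx' : x ∈ U := by
      by_contra h
      exact hx h
    have k1 := L.rr_compl (L.cc U hU) hc x
    have k2 := L.rr_c hU hx'
    omega)
  rw [sub_mul, L.Ec _ hU', L.c_inter hA hU hU', Set.inter_compl_self, L.c_empty, sub_zero] at h1
  exact h1

theorem rr_cut (hA : RealRankZero A) {U : Set (Xs I)} (hU : U ∈ BB I) {f : A} (hf : f * f = f)
    (hfm : L.mem f) {x : Xs I} (hx : x ∈ U) : rr P x (f * L.c U) = rr P x f := by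
  have hU' := (BB_balg I).compl U hU
  have h1 := L.c_mul_idem hA hU hf hfm
  have h2 := L.c_mul_idem hA hU' hf hfm
  have h3 : f = f * L.c U + f * L.c Uᶜ := by
    rw [L.c_compl hA hU, mul_sub, hfm.2]; abel
  have e0 : L.c U * L.c Uᶜ = 0 := by
    rw [L.c_inter hA hU hU', Set.inter_compl_self, L.c_empty]
  have e0' : L.c Uᶜ * L.c U = 0 := by
    rw [L.c_inter hA hU' hU, Set.compl_inter_self, L.c_empty]
  have h4 : rr P x f = rr P x (f * L.c U) + rr P x (f * L.c Uᶜ) := by
    rw [← rr_add P h1 h2, ← h3]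
    · calc f * L.c U * (f * L.c Uᶜ) = f * (L.c U * f) * L.c Uᶜ := by simp only [mul_assoc]
        _ = f * f * (L.c U * L.c Uᶜ) := by rw [L.cen hA hU hfm]; simp only [mul_assoc]
        _ = 0 := by rw [e0, mul_zero]
    · calc f * L.c Uᶜ * (f * L.c U) = f * (L.c Uᶜ * f) * L.c U := by simp only [mul_assoc]
        _ = f * f * (L.c Uᶜ * L.c U) := by rw [L.cen hA hU' hfm]; simp only [mul_assoc]
        _ = 0 := by rw [e0', mul_zero]
  have h5 := rr_le P (kl_sub' h2 (L.cc _ hU') (by rw [mul_assoc, L.cc _ hU'])) x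
  rw [L.rr_c' hU' (fun h => h hx)] at h5
  omega

theorem rr_cut' {U : Set (Xs I)} (hU : U ∈ BB I) {f : A}
    (hi : (f * L.c U) * (f * L.c U) = f * L.c U) {x : Xs I} (hx : x ∉ U) :
    rr P x (f * L.c U) = 0 := by
  have h5 := rr_le P (kl_sub' hi (L.cc _ hU) (by rw [mul_assoc, L.cc _ hU])) x
  rw [L.rr_c' hU hx] at h5
  omega

theorem norm_c {U : Set (Xs I)} (hU : U ∈ BB I) : ‖L.c U‖ ≤ 1 := proj_norm (L.cc U hU) (L.cs U hU)

theorem norm_mul_c {U : Set (Xs I)} (hU : U ∈ BB I) (z : A) : ‖z * L.c U‖ ≤ ‖z‖ := by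
  calc ‖z * L.c U‖ ≤ ‖z‖ * ‖L.c U‖ := norm_mul_le _ _
    _ ≤ ‖z‖ * 1 := by gcongr; exact L.norm_c hU
    _ = ‖z‖ := mul_one _

end Loc

end Pool.Agent.H413.NK
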