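import Pool.Agent.H413.G.R_seed8.Y78.NK.Inv

set_option autoImplicit false

/-!
Normal forms of idempotent matrices over subrings of the two by two matrices.
-/

namespace Pool.Agent.H413.NK

open Pool.Agent.Y78.NK

/-- idempotent matrices over a field split through a space of coordinates -/
theorem field_split {K : Type} [Field K] {ι : Type} [Fintype ι] [DecidableEq ι]
    (E : Matrix ι ι K) (hE : E * E = E) :
    ∃ (m : ℕ) (C : Matrix ι (Fin m) K) (D : Matrix (Fin m) ι K), C * D = E ∧ D * C = 1 := by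
  let W := LinearMap.range (Matrix.toLin' E)
  let b := Module.finBasis K W
  have hf : ∀ v, Matrix.toLin' E v ∈ W := fun v => LinearMap.mem_range_self _ v
  let q : (ι → K) →ₗ[K] W := (Matrix.toLin' E).codRestrict W hf
  refine ⟨Module.finrank K W, LinearMap.toMatrix b (Pi.basisFun K ι) W.subtype,
    LinearMap.toMatrix (Pi.basisFun K ι) b q, ?_, ?_⟩
  · rw [← LinearMap.toMatrix_comp (Pi.basisFun K ι) b (Pi.basisFun K ι)]
    have : W.subtype ∘ₗ q = Matrix.toLin' E := by
      ext v i
      rfl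
    rw [this]
    exact LinearMap.toMatrix'_toLin' E
  · rw [← LinearMap.toMatrix_comp b (Pi.basisFun K ι) b]
    have : q ∘ₗ W.subtype = LinearMap.id := by
      ext1 ⟨w, hw⟩
      apply Subtype.ext
      obtain ⟨v, rfl⟩ := hw
      show Matrix.toLin' E (Matrix.toLin' E v) = Matrix.toLin' E v
      rw [← LinearMap.comp_apply, ← Matrix.toLin'_mul, hE]
    rw [this, LinearMap.toMatrix_id]

/-- all entries lie in `B` -/
def InB (B : Subring M2) {ι κ : Type} (X : Matrix ι κ M2) : Prop := ∀ i j, X i j ∈ B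

theorem InB.mul {B : Subring M2} {ι κ μ : Type} [Fintype κ] {X : Matrix ι κ M2}
    {Y : Matrix κ μ M2} (hX : InB B X) (hY : InB B Y) : InB B (X * Y) := by
  intro i j
  rw [Matrix.mul_apply]
  exact Subring.sum_mem _ fun k _ => B.mul_mem (hX i k) (hY k j)

theorem InB.diag {B : Subring M2} {ι : Type} [DecidableEq ι] {p : M2} (hp : p ∈ B) :
    InB B (Matrix.diagonal fun _ : ι => p) := by
  intro i j
  rw [Matrix.diagonal_apply]
  split_ifs
  · exact hp
  · exact B.zero_mem

/-- normal form -/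
theorem nf (B : Subring M2) (K : Subfield ℂ) (p : M2) (hpB : p ∈ B) (hpp : p * p = p) (hp0 : p ≠ 0)
    (hK : ∀ c ∈ K, c • p ∈ B) (hpK : ∀ a ∈ B, ∃ c ∈ K, p * a * p = c • p)
    {ι κ : Type} [Fintype ι] [Fintype κ] [DecidableEq κ] (e : Matrix ι ι M2) (heB : InB B e)
    (hee : e * e = e) (X : Matrix ι κ M2) (Y : Matrix κ ι M2) (hX : InB B X) (hY : InB B Y)
    (P : Matrix κ κ M2) (hP : P = Matrix.diagonal fun _ => p) (he : e = X * P * Y) :
    ∃ (m : ℕ) (U : Matrix ι (Fin m) M2) (V : Matrix (Fin m) ι M2), InB B U ∧ InB B V ∧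
      U * V = e ∧ V * U = Matrix.diagonal fun _ => p := by
  classical
  have hPP : P * P = P := by rw [hP, Matrix.diagonal_mul_diagonal]; simp [hpp]
  have hPB : InB B P := hP ▸ InB.diag hpB
  obtain ⟨X', hX'⟩ : ∃ X', X' = e * X * P := ⟨_, rfl⟩
  obtain ⟨Y', hY'⟩ : ∃ Y', Y' = P * Y * e := ⟨_, rfl⟩
  have hXB : InB B X' := hX' ▸ (heB.mul hX).mul hPB
  have hYB : InB B Y' := hY' ▸ (hPB.mul hY).mul heB
  have h1 : X' * Y' = e := by
    rw [hX', hY']
    calc e * X * P * (P * Y * e) = e * (X * (P * P) * Y) * e := by simp only [Matrix.mul_assoc]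
      _ = e := by rw [hPP, ← he, hee, hee]
  have hent : ∀ a b, ∃ c ∈ K, (Y' * X') a b = c • p := by
    intro a b
    have h2 : Y' * X' = P * (Y * e * (e * X)) * P := by
      rw [hX', hY']
      simp only [Matrix.mul_assoc]
    have h3 : (Y' * X') a b = p * (Y * e * (e * X)) a b * p := by
      rw [h2, hP, Matrix.mul_diagonal, Matrix.diagonal_mul]
    rw [h3]
    exact hpK _ (((hY.mul heB).mul (heB.mul hX)) a b)
  choose c hcK hc using hent
  -- matrix over the field
  obtain ⟨E, hE⟩ : ∃ E : Matrix κ κ K, E = Matrix.of fun a b => (⟨c a b, hcK a b⟩ : K) := ⟨_, rfl⟩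
  -- scalar matrices
  have hsm : ∀ {μ ν : Type} (F : Matrix μ ν K), InB B (Matrix.of fun a b => ((F a b : ℂ) • p)) :=
    fun F a b => hK _ (F a b).2
  have hmul : ∀ {μ ν ξ : Type} [Fintype ν] (F : Matrix μ ν K) (G : Matrix ν ξ K),
      (Matrix.of fun a b => ((F a b : ℂ) • p)) * (Matrix.of fun a b => ((G a b : ℂ) • p)) =
        Matrix.of fun a b => (((F * G) a b : K) : ℂ) • p := by
    intro μ ν ξ _ F G
    ext1 a b
    rw [Matrix.mul_apply]
    simp only [Matrix.of_apply]
    rw [Matrix.mul_apply]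
    have : ((∑ j, F a j * G j b : K) : ℂ) = ∑ j, (F a j : ℂ) * (G j b : ℂ) := by
      rw [← Subfield.coe_subtype, map_sum]
      simp
    rw [this, Finset.sum_smul]
    refine Finset.sum_congr rfl fun j _ => ?_
    rw [smul_mul_smul_comm, hpp]
  have hYX : Y' * X' = Matrix.of fun a b => ((E a b : ℂ) • p) := by
    ext1 a b
    rw [hc, hE]
    rfl
  have hinj : ∀ {μ ν : Type} (F G : Matrix μ ν K),
      (Matrix.of fun a b => ((F a b : ℂ) • p)) = (Matrix.of fun a b => ((G a b : ℂ) • p)) →
        F = G := by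
    intro μ ν F G h
    ext1 a b
    have := congrFun (congrFun h a) b
    simp only [Matrix.of_apply] at this
    exact Subtype.ext (smul_left_injective ℂ hp0 this)
  have hEE : E * E = E := by
    apply hinj
    rw [← hmul, ← hYX]
    calc Y' * X' * (Y' * X') = Y' * (X' * Y') * X' := by simp only [Matrix.mul_assoc]
      _ = Y' * X' := by
        rw [h1, hY', Matrix.mul_assoc (P * Y), hee]
  obtain ⟨m, C, D, hCD, hDC⟩ := field_split E hEE
  refine ⟨m, X' * (Matrix.of fun a b => ((C a b : ℂ) • p)),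
    (Matrix.of fun a b => ((D a b : ℂ) • p)) * Y', hXB.mul (hsm C), (hsm D).mul hYB, ?_, ?_⟩
  · calc X' * (Matrix.of fun a b => ((C a b : ℂ) • p)) *
          ((Matrix.of fun a b => ((D a b : ℂ) • p)) * Y') =
        X' * ((Matrix.of fun a b => ((C a b : ℂ) • p)) *
          (Matrix.of fun a b => ((D a b : ℂ) • p))) * Y' := by simp only [Matrix.mul_assoc]
      _ = X' * (Y' * X') * Y' := by rw [hmul, hCD, hYX]
      _ = (X' * Y') * (X' * Y') := by simp only [Matrix.mul_assoc]
      _ = e := by rw [h1, hee]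
  · calc (Matrix.of fun a b => ((D a b : ℂ) • p)) * Y' *
          (X' * (Matrix.of fun a b => ((C a b : ℂ) • p))) =
        (Matrix.of fun a b => ((D a b : ℂ) • p)) * (Y' * X') *
          (Matrix.of fun a b => ((C a b : ℂ) • p)) := by simp only [Matrix.mul_assoc]
      _ = Matrix.of fun a b => (((D * E * C : Matrix (Fin m) (Fin m) K) a b : ℂ) • p) := by
          rw [hYX, hmul, hmul]
      _ = Matrix.of fun a b => (((1 : Matrix (Fin m) (Fin m) K) a b : ℂ) • p) := by
          have : D * E * C = 1 := by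
            rw [← hCD, ← Matrix.mul_assoc, hDC, Matrix.one_mul, hDC]
          rw [this]
      _ = Matrix.diagonal fun _ => p := by
          ext1 a b
          rw [Matrix.of_apply, Matrix.diagonal_apply, Matrix.one_apply]
          split_ifs
          · simp
          · simp

end Pool.Agent.H413.NK
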