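import Pool.Agent.H413.NK.Cliff
import Pool.Agent.H413.NK.Vmap
import Pool.Agent.H413.NK.Stalk

set_option autoImplicit false

/-!
The ring of all locally constant equivariant functions with values in the two by two matrices.
-/

namespace Pool.Agent.H413.NK

open Pool.Agent.Y78.NK Pool.Agent.H494R3.NK

/-- three families of signs -/
abbrev Xs (I : Type) : Type := Fin 3 × I → SignType

section
variable {I : Type}

/-- the `k`-th flip -/
def flp (k : Fin 3) (x : Xs I) : Xs I := fun a => if a.1 = k then -x a else x a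

theorem flp_same (k : Fin 3) (x : Xs I) (i : I) : flp k x (k, i) = -x (k, i) := by
  simp [flp]

theorem flp_ne {k l : Fin 3} (h : l ≠ k) (x : Xs I) (i : I) : flp k x (l, i) = x (l, i) := by
  simp [flp, h]

theorem flp_flp (k : Fin 3) (x : Xs I) : flp k (flp k x) = x := by
  funext a
  by_cases h : a.1 = k <;> simp [flp, h]

theorem flp_zero_iff (k l : Fin 3) (x : Xs I) (i : I) : flp k x (l, i) = 0 ↔ x (l, i) = 0 := by
  by_cases h : l = k
  · subst h
    rw [flp_same]
    generalize x (l, i) = s
    revert s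
    decide
  · rw [flp_ne h]

theorem flp_self {k : Fin 3} {x : Xs I} (h : ∀ i, x (k, i) = 0) : flp k x = x := by
  funext a
  by_cases ha : a.1 = k
  · have : x a = 0 := by
      have := h a.2
      rwa [← ha] at this
    simp [flp, ha, this]
  · simp [flp, ha]

theorem flp_cont (k : Fin 3) : Continuous (flp k : Xs I → Xs I) := by
  refine continuous_pi fun a => ?_
  by_cases h : a.1 = k
  · have : (fun x : Xs I => flp k x a) = (fun s : SignType => -s) ∘ (fun x : Xs I => x a) := by
      funext x; simp [flp, h]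
    rw [this]
    exact (continuous_of_discreteTopology).comp (continuous_apply a)
  · have : (fun x : Xs I => flp k x a) = (fun x : Xs I => x a) := by
      funext x; simp [flp, h]
    rw [this]
    exact continuous_apply a

end

/-- The ring. -/
noncomputable def Rg (I : Type) : Subring (Xs I → M2) where
  carrier := {f | IsLocallyConstant f ∧ ∀ k x, f (flp k x) = gam k (f x)}
  mul_mem' := by
    rintro f g ⟨hf, hf'⟩ ⟨hg, hg'⟩
    refine ⟨hf.mul hg, fun k x => ?_⟩
    show f (flp k x) * g (flp k x) = gam k (f x * g x)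
    rw [hf', hg', map_mul]
  one_mem' := ⟨IsLocallyConstant.const 1, fun k x => (map_one _).symm⟩
  add_mem' := by
    rintro f g ⟨hf, hf'⟩ ⟨hg, hg'⟩
    refine ⟨hf.add hg, fun k x => ?_⟩
    show f (flp k x) + g (flp k x) = gam k (f x + g x)
    rw [hf', hg', map_add]
  zero_mem' := ⟨IsLocallyConstant.const 0, fun k x => (map_zero _).symm⟩
  neg_mem' := by
    rintro f ⟨hf, hf'⟩
    refine ⟨hf.neg, fun k x => ?_⟩
    show -f (flp k x) = gam k (-f x)
    rw [hf', map_neg]

section
variable {I : Type}

theorem Rg_flp (f : Rg I) (k : Fin 3) (x : Xs I) : f.1 (flp k x) = gam k (f.1 x) := f.2.2 k x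

/-! ### regularity -/

/-- a pointwise quasi-inverse -/
noncomputable def pinv (a : M2) : M2 :=
  open Classical in if a.det ≠ 0 then a⁻¹ else ((star a * a).trace)⁻¹ • star a

theorem pinv_spec (a : M2) : a * pinv a * a = a := by
  unfold pinv
  split_ifs with h
  · rw [Matrix.mul_nonsing_inv a (isUnit_iff_ne_zero.2 h), one_mul]
  · push Not at h
    have key : a * star a * a = (star a * a).trace • a := by
      rw [Matrix.det_fin_two] at h
      rw [Matrix.trace_fin_two]
      have h' := congrArg (starRingEnd ℂ) h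
      simp only [map_sub, map_mul, map_zero] at h'
      apply m2_ext <;>
        simp only [mul00, mul01, mul10, mul11, Matrix.smul_apply, smul_eq_mul, Matrix.star_apply,
          Complex.star_def]
      · linear_combination (-(starRingEnd ℂ) (a 1 1)) * h
      · linear_combination ((starRingEnd ℂ) (a 1 0)) * h
      · linear_combination ((starRingEnd ℂ) (a 0 1)) * h
      · linear_combination (-(starRingEnd ℂ) (a 0 0)) * h
    rw [mul_smul_comm, smul_mul_assoc, key, smul_smul]
    by_cases ht : (star a * a).trace = 0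
    · have ha : a = 0 := by
        rw [Matrix.trace_fin_two, mul00, mul11] at ht
        simp only [Matrix.star_apply, Complex.star_def] at ht
        have h1 := congrArg Complex.re ht
        simp only [Complex.add_re, Complex.mul_re, Complex.conj_re, Complex.conj_im,
          Complex.zero_re] at h1
        have q00 : (a 0 0).re = 0 ∧ (a 0 0).im = 0 := by constructor <;> nlinarith [sq_nonneg (a 0 0).re, sq_nonneg (a 0 0).im, sq_nonneg (a 1 0).re, sq_nonneg (a 1 0).im, sq_nonneg (a 0 1).re, sq_nonneg (a 0 1).im, sq_nonneg (a 1 1).re, sq_nonneg (a 1 1).im]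
        have q01 : (a 0 1).re = 0 ∧ (a 0 1).im = 0 := by constructor <;> nlinarith [sq_nonneg (a 0 0).re, sq_nonneg (a 0 0).im, sq_nonneg (a 1 0).re, sq_nonneg (a 1 0).im, sq_nonneg (a 0 1).re, sq_nonneg (a 0 1).im, sq_nonneg (a 1 1).re, sq_nonneg (a 1 1).im]
        have q10 : (a 1 0).re = 0 ∧ (a 1 0).im = 0 := by constructor <;> nlinarith [sq_nonneg (a 0 0).re, sq_nonneg (a 0 0).im, sq_nonneg (a 1 0).re, sq_nonneg (a 1 0).im, sq_nonneg (a 0 1).re, sq_nonneg (a 0 1).im, sq_nonneg (a 1 1).re, sq_nonneg (a 1 1).im]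
        have q11 : (a 1 1).re = 0 ∧ (a 1 1).im = 0 := by constructor <;> nlinarith [sq_nonneg (a 0 0).re, sq_nonneg (a 0 0).im, sq_nonneg (a 1 0).re, sq_nonneg (a 1 0).im, sq_nonneg (a 0 1).re, sq_nonneg (a 0 1).im, sq_nonneg (a 1 1).re, sq_nonneg (a 1 1).im]
        apply m2_ext
        · exact Complex.ext q00.1 q00.2
        · exact Complex.ext q01.1 q01.2
        · exact Complex.ext q10.1 q10.2
        · exact Complex.ext q11.1 q11.2
      rw [ha]; simp
    · rw [inv_mul_cancel₀ ht, one_smul]

theorem gam_pinv (k : Fin 3) (a : M2) : pinv (gam k a) = gam k (pinv a) := by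
  unfold pinv
  rw [gam_det]
  by_cases h : a.det = 0
  · rw [if_neg (by simp [h]), if_neg (by simp [h]), gam_smul, gam_star, ← gam_star k a, ← map_mul,
      gam_trace, star_inv₀]
  · rw [if_pos (by simpa using h), if_pos h]
    have h1 : gam k a * gam k a⁻¹ = 1 := by
      rw [← map_mul, Matrix.mul_nonsing_inv a (isUnit_iff_ne_zero.2 h), map_one]
    exact Matrix.inv_eq_right_inv h1

theorem Rg_regular (f : Rg I) : ∃ g : Rg I, f * g * f = f := by
  refine ⟨⟨fun x => pinv (f.1 x), f.2.1.comp pinv, fun k x => ?_⟩, ?_⟩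
  · show pinv (f.1 (flp k x)) = gam k (pinv (f.1 x))
    rw [Rg_flp, gam_pinv]
  · apply Subtype.ext
    funext x
    exact pinv_spec (f.1 x)

/-! ### stalks -/

/-- the subring of possible values at a point -/
noncomputable def Fx (x : Xs I) : Subring M2 where
  carrier := {a | ∀ k, (∀ i, x (k, i) = 0) → gam k a = a}
  mul_mem' := by
    intro a b ha hb k hk
    rw [map_mul, ha k hk, hb k hk]
  one_mem' := fun k _ => map_one _
  add_mem' := by
    intro a b ha hb k hk
    rw [map_add, ha k hk, hb k hk]
  zero_mem' := fun k _ => map_zero _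
  neg_mem' := by
    intro a ha k hk
    rw [map_neg, ha k hk]

theorem mem_Fx {x : Xs I} {a : M2} : a ∈ Fx x ↔ ∀ k, (∀ i, x (k, i) = 0) → gam k a = a := Iff.rfl

theorem val_mem (f : Rg I) (x : Xs I) : f.1 x ∈ Fx x := by
  intro k hk
  rw [← Rg_flp, flp_self hk]

/-- partial sign action -/
noncomputable def act (k : Fin 3) (s : SignType) (a : M2) : M2 := if s = -1 then gam k a else a

theorem act_gam (k l : Fin 3) (s : SignType) (a : M2) : act k s (gam l a) = gam l (act k s a) := by
  unfold act
  split_ifs
  · exact gam_comm k l a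
  · rfl

theorem act_neg (k : Fin 3) (s : SignType) (hs : s ≠ 0) (a : M2) :
    act k (-s) a = gam k (act k s a) := by
  cases s with
  | zero => exact absurd rfl hs
  | neg =>
    have h1 : (-SignType.neg : SignType) ≠ -1 := by decide
    have h2 : (SignType.neg : SignType) = -1 := by decide
    unfold act
    rw [if_neg h1, if_pos h2, gam_gam]
  | pos =>
    have h1 : (-SignType.pos : SignType) = -1 := by decide
    have h2 : (SignType.pos : SignType) ≠ -1 := by decide
    unfold act
    rw [if_pos h1, if_neg h2]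

/-- the sign recording the position of `y` with respect to `x` for the `k`-th family -/
noncomputable def sg (x : Xs I) (k : Fin 3) (y : Xs I) : SignType :=
  open Classical in if h : ∃ i, x (k, i) ≠ 0 then x (k, h.choose) * y (k, h.choose) else 1

theorem sg_lc (x : Xs I) (k : Fin 3) : IsLocallyConstant (sg x k) := by
  unfold sg
  by_cases h : ∃ i, x (k, i) ≠ 0
  · simp only [dif_pos h]
    have h1 : IsLocallyConstant (fun y : Xs I => y (k, h.choose)) :=
      (IsLocallyConstant.iff_continuous _).2 (continuous_apply _)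
    exact h1.comp (fun s => x (k, h.choose) * s)
  · simp only [dif_neg h]
    exact IsLocallyConstant.const 1

theorem sg_self (x : Xs I) (k : Fin 3) : sg x k x = 1 := by
  unfold sg
  split_ifs with h
  · have := h.choose_spec
    revert this
    generalize x (k, h.choose) = s
    revert s
    decide
  · rfl

theorem sg_flp_ne (x : Xs I) {k l : Fin 3} (h : l ≠ k) (y : Xs I) :
    sg x l (flp k y) = sg x l y := by
  unfold sg
  split_ifs with h'
  · rw [flp_ne h]
  · rfl

theorem sg_flp (x : Xs I) (k : Fin 3) (h : ∃ i, x (k, i) ≠ 0) (y : Xs I) :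
    sg x k (flp k y) = -sg x k y := by
  unfold sg
  rw [dif_pos h, dif_pos h, flp_same]
  generalize x (k, h.choose) = s
  generalize y (k, h.choose) = t
  revert s t
  decide

theorem sg_of_not (x : Xs I) (k : Fin 3) (h : ¬ ∃ i, x (k, i) ≠ 0) (y : Xs I) :
    sg x k y = 1 := by
  unfold sg
  rw [dif_neg h]

/-- the section through `a` as a function of three signs -/
noncomputable def sct (a : M2) (s t u : SignType) : M2 :=
  if s = 0 ∨ t = 0 ∨ u = 0 then 0 else act 0 s (act 1 t (act 2 u a))

theorem act_act (k l : Fin 3) (s t : SignType) (a : M2) :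
    act k s (act l t a) = act l t (act k s a) := by
  unfold act
  split_ifs
  · exact gam_comm k l a
  · rfl
  · rfl
  · rfl

theorem sign_neg_zero (s : SignType) : (-s = 0) ↔ (s = 0) := by
  revert s; decide

theorem exists_lift (x : Xs I) (a : M2) (ha : a ∈ Fx x) : ∃ f : Rg I, f.1 x = a := by
  refine ⟨⟨fun y => sct a (sg x 0 y) (sg x 1 y) (sg x 2 y), ?_, ?_⟩, ?_⟩
  · have h0 : IsLocallyConstant (fun y : Xs I => ((sg x 0 y, sg x 1 y), sg x 2 y)) :=
      ((sg_lc x 0).prodMk (sg_lc x 1)).prodMk (sg_lc x 2)
    exact h0.comp (fun p => sct a p.1.1 p.1.2 p.2)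
  · intro k y
    show sct a (sg x 0 (flp k y)) (sg x 1 (flp k y)) (sg x 2 (flp k y)) =
      gam k (sct a (sg x 0 y) (sg x 1 y) (sg x 2 y))
    by_cases h : ∃ i, x (k, i) ≠ 0
    · have h1 := sg_flp x k h y
      fin_cases k
      · have h1 : sg x 0 (flp 0 y) = - sg x 0 y := h1
        show sct a (sg x 0 (flp 0 y)) (sg x 1 (flp 0 y)) (sg x 2 (flp 0 y)) =
          gam 0 (sct a (sg x 0 y) (sg x 1 y) (sg x 2 y))
        rw [h1, sg_flp_ne x (by decide), sg_flp_ne x (by decide)]
        unfold sct
        simp only [sign_neg_zero]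
        split_ifs with h2
        · rw [map_zero]
        · push Not at h2
          rw [act_neg 0 _ h2.1]
      · have h1 : sg x 1 (flp 1 y) = - sg x 1 y := h1
        show sct a (sg x 0 (flp 1 y)) (sg x 1 (flp 1 y)) (sg x 2 (flp 1 y)) =
          gam 1 (sct a (sg x 0 y) (sg x 1 y) (sg x 2 y))
        rw [h1, sg_flp_ne x (by decide), sg_flp_ne x (by decide)]
        unfold sct
        simp only [sign_neg_zero]
        split_ifs with h2
        · rw [map_zero]
        · push Not at h2
          rw [act_neg 1 _ h2.2.1, act_gam]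
      · have h1 : sg x 2 (flp 2 y) = - sg x 2 y := h1
        show sct a (sg x 0 (flp 2 y)) (sg x 1 (flp 2 y)) (sg x 2 (flp 2 y)) =
          gam 2 (sct a (sg x 0 y) (sg x 1 y) (sg x 2 y))
        rw [h1, sg_flp_ne x (by decide), sg_flp_ne x (by decide)]
        unfold sct
        simp only [sign_neg_zero]
        split_ifs with h2
        · rw [map_zero]
        · push Not at h2
          rw [act_neg 2 _ h2.2.2, act_gam, act_gam]
    · have h2 : ∀ l, sg x l (flp k y) = sg x l y := by
        intro l
        by_cases hl : l = k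
        · subst hl
          rw [sg_of_not x l h, sg_of_not x l h]
        · exact sg_flp_ne x hl y
      have h3 : gam k a = a := ha k (by
        intro i
        by_contra hi
        exact h ⟨i, hi⟩)
      rw [h2, h2, h2]
      unfold sct
      split_ifs
      · rw [map_zero]
      · rw [← act_gam, ← act_gam, ← act_gam, h3]
  · show sct a (sg x 0 x) (sg x 1 x) (sg x 2 x) = a
    rw [sg_self, sg_self, sg_self]
    unfold sct act
    simp only [one_ne_zero, or_self, if_false]
    have : (1 : SignType) ≠ -1 := by decide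
    rw [if_neg this, if_neg this, if_neg this]

/-! ### invariant clopen sets -/

/-- the invariant clopen sets -/
def BB (I : Type) : Set (Set (Xs I)) := {U | IsClopen U ∧ ∀ k x, flp k x ∈ U ↔ x ∈ U}

theorem BB_balg (I : Type) : BAlg (Xs I) (BB I) where
  clopen U hU := hU.1
  univ := ⟨isClopen_univ, fun _ _ => Iff.rfl⟩
  inter := by
    rintro U ⟨hU, hU'⟩ W ⟨hW, hW'⟩
    exact ⟨hU.inter hW, fun k x => and_congr (hU' k x) (hW' k x)⟩
  compl := by
    rintro U ⟨hU, hU'⟩
    exact ⟨hU.compl, fun k x => not_congr (hU' k x)⟩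

theorem gam_inj (k : Fin 3) : Function.Injective (gam k) := by
  intro a b h
  have := congrArg (gam k) h
  rwa [gam_gam, gam_gam] at this

theorem eq_mem_BB (f g : Rg I) : {x | f.1 x = g.1 x} ∈ BB I := by
  refine ⟨?_, fun k x => ?_⟩
  · have h : IsLocallyConstant (fun x => (f.1 x, g.1 x)) := f.2.1.prodMk g.2.1
    exact ⟨⟨h {p : M2 × M2 | p.1 = p.2}ᶜ⟩, h {p : M2 × M2 | p.1 = p.2}⟩
  · show f.1 (flp k x) = g.1 (flp k x) ↔ f.1 x = g.1 x
    rw [Rg_flp, Rg_flp]
    exact (gam_inj k).eq_iff

end

end Pool.Agent.H413.NK
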