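import Pool.Agent.H413.NK.Rg

set_option autoImplicit false

/-!
The monoid `V` of the ring of locally constant equivariant functions.
-/

namespace Pool.Agent.H413.NK

open Pool.Agent.Y78.NK Pool.Agent.H494R3.NK

section
variable {I : Type}

/-- evaluation followed by multiplication by an idempotent commuting with all values -/
noncomputable def evx (x : Xs I) (q : M2) (hq : q * q = q) (hc : ∀ a ∈ Fx x, q * a = a * q) :
    Rg I →ₙ+* M2 where
  toFun f := f.1 x * q
  map_mul' f g := by
    show f.1 x * g.1 x * q = f.1 x * q * (g.1 x * q)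
    have h := hc _ (val_mem g x)
    rw [mul_assoc (f.1 x) q, ← mul_assoc q, h, mul_assoc, mul_assoc, hq]
  map_zero' := by
    show (0 : M2) * q = 0
    rw [zero_mul]
  map_add' f g := by
    show (f.1 x + g.1 x) * q = f.1 x * q + g.1 x * q
    rw [add_mul]

/-- admissible idempotents -/
def Adm (x : Xs I) (q : M2) : Prop := q * q = q ∧ ∀ a ∈ Fx x, q * a = a * q

/-- the rank cut by an idempotent -/
noncomputable def rkq (x : Xs I) (q : M2) : VV (Rg I) →+ ℕ :=
  open Classical in if h : Adm x q then rkH (evx x q h.1 h.2) else 0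

theorem rkq_cm {x : Xs I} {q : M2} (h : Adm x q) {n : ℕ} {e : Matrix (Fin n) (Fin n) (Rg I)}
    (he : e * e = e) : ((rkq x q (cm he) : ℕ) : ℂ) = ∑ i, ((e i i).1 x * q).trace := by
  unfold rkq
  rw [dif_pos h, rkH_cm]
  rfl

/-- the scalars at a point -/
def Kx (x : Xs I) : Subfield ℂ where
  carrier := {c | (∃ m : Fin 3, ∀ i, x (m, i) = 0) → star c = c}
  mul_mem' := by
    intro a b ha hb h
    rw [star_mul, ha h, hb h, mul_comm]
  one_mem' := fun _ => star_one _
  add_mem' := by
    intro a b ha hb h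
    rw [star_add, ha h, hb h]
  zero_mem' := fun _ => star_zero _
  neg_mem' := by
    intro a ha h
    rw [star_neg, ha h]
  inv_mem' := by
    intro a ha h
    rw [star_inv₀, ha h]

theorem trace_mem_Kx {x : Xs I} {a : M2} (ha : a ∈ Fx x) : a.trace ∈ Kx x := by
  rintro ⟨m, hm⟩
  rw [← gam_trace m, ha m hm]

theorem smul_mem_Fx {x : Xs I} {a : M2} (ha : a ∈ Fx x) {r : ℂ} (hr : r ∈ Kx x) :
    r • a ∈ Fx x := by
  intro m hm
  rw [gam_smul, ha m hm, hr ⟨m, hm⟩]

/-- the point has a nonzero sign in the `k`-th family -/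
def Tn (x : Xs I) (k : Fin 3) : Prop := ∃ i, x (k, i) ≠ 0

theorem not_Tn {x : Xs I} {k : Fin 3} (h : ¬ Tn x k) (i : I) : x (k, i) = 0 := by
  by_contra hi
  exact h ⟨i, hi⟩

theorem ne_of_Tn {x : Xs I} {k m : Fin 3} (h : Tn x k) (hm : ∀ i, x (m, i) = 0) : m ≠ k := by
  rintro rfl
  obtain ⟨i, hi⟩ := h
  exact hi (hm i)

theorem pp_mem {x : Xs I} {k : Fin 3} (h : Tn x k) : pp k ∈ Fx x := fun _ hm =>
  gam_pp_ne (ne_of_Tn h hm)

theorem pm_mem {x : Xs I} {k : Fin 3} (h : Tn x k) : pm k ∈ Fx x := fun _ hm =>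
  gam_pm_ne (ne_of_Tn h hm)

theorem sig_mem {x : Xs I} {k : Fin 3} (h : Tn x k) : sig k ∈ Fx x := fun _ hm =>
  gam_sig_ne (ne_of_Tn h hm)

theorem cut_two {x : Xs I} {k l : Fin 3} (hkl : k ≠ l) (hk : Tn x k) (hl : Tn x l) :
    Cut (Fx x) (Kx x) 1 (pp k) 1 where
  cB := (Fx x).one_mem
  cc := one_mul 1
  cen := fun a _ => by rw [one_mul, mul_one]
  pB := pp_mem hk
  pp := pp_idem k
  p0 := pp_ne k
  hK := fun r hr => smul_mem_Fx (pp_mem hk) hr
  hpK := fun a ha => ⟨(a * pp k).trace, trace_mem_Kx ((Fx x).mul_mem ha (pp_mem hk)),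
    pp_corner k a⟩
  qc := fun a _ => by rw [one_mul, mul_one]
  tr := by rw [mul_one, pp_trace]
  qcc := one_mul 1
  full := ⟨1, (Fx x).one_mem, 1, (Fx x).one_mem, sig l, sig_mem hl, sig l, sig_mem hl, by
    rw [sig_pp hkl, one_mul, mul_one, pm_eq]; abel⟩

/-- at most the `k`-th family has a nonzero sign -/
def Tsub (x : Xs I) (k : Fin 3) : Prop := ∀ l, l ≠ k → ∀ i, x (l, i) = 0

theorem pp_comm {x : Xs I} {k : Fin 3} (h : Tsub x k) (a : M2) (ha : a ∈ Fx x) :
    pp k * a = a * pp k := comm_pp_of_fixed a fun l hl => ha l (h l hl)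

theorem pm_comm {x : Xs I} {k : Fin 3} (h : Tsub x k) (a : M2) (ha : a ∈ Fx x) :
    pm k * a = a * pm k := by
  rw [pm_eq, sub_mul, mul_sub, pp_comm h a ha, one_mul, mul_one]

theorem adm_pp {x : Xs I} {k : Fin 3} (h : Tsub x k) : Adm x (pp k) := ⟨pp_idem k, pp_comm h⟩

theorem adm_pm {x : Xs I} {k : Fin 3} (h : Tsub x k) : Adm x (pm k) := ⟨pm_idem k, pm_comm h⟩

theorem adm_one (x : Xs I) : Adm x 1 := ⟨one_mul 1, fun a _ => by rw [one_mul, mul_one]⟩

theorem adm_zero (x : Xs I) : Adm x 0 := ⟨zero_mul 0, fun a _ => by rw [zero_mul, mul_zero]⟩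

theorem cut_pp {x : Xs I} {k : Fin 3} (hk : Tn x k) (h : Tsub x k) :
    Cut (Fx x) (Kx x) (pp k) (pp k) (pp k) where
  cB := pp_mem hk
  cc := pp_idem k
  cen := pp_comm h
  pB := pp_mem hk
  pp := pp_idem k
  p0 := pp_ne k
  hK := fun r hr => smul_mem_Fx (pp_mem hk) hr
  hpK := fun a ha => ⟨(a * pp k).trace, trace_mem_Kx ((Fx x).mul_mem ha (pp_mem hk)),
    pp_corner k a⟩
  qc := pp_comm h
  tr := by rw [pp_idem, pp_trace]
  qcc := pp_idem k
  full := ⟨1, (Fx x).one_mem, 1, (Fx x).one_mem, 0, (Fx x).zero_mem, 0, (Fx x).zero_mem, by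
    rw [one_mul, mul_one, mul_zero, add_zero]⟩

theorem cut_pm {x : Xs I} {k : Fin 3} (hk : Tn x k) (h : Tsub x k) :
    Cut (Fx x) (Kx x) (pm k) (pm k) (pm k) where
  cB := pm_mem hk
  cc := pm_idem k
  cen := pm_comm h
  pB := pm_mem hk
  pp := pm_idem k
  p0 := pm_ne k
  hK := fun r hr => smul_mem_Fx (pm_mem hk) hr
  hpK := fun a ha => ⟨(a * pm k).trace, trace_mem_Kx ((Fx x).mul_mem ha (pm_mem hk)),
    pm_corner k a⟩
  qc := pm_comm h
  tr := by rw [pm_idem, pm_trace]
  qcc := pm_idem k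
  full := ⟨1, (Fx x).one_mem, 1, (Fx x).one_mem, 0, (Fx x).zero_mem, 0, (Fx x).zero_mem, by
    rw [one_mul, mul_one, mul_zero, add_zero]⟩

theorem scalar_of_all {a : M2} (h : ∀ l, gam l a = a) : a = a 0 0 • (1 : M2) ∧
    star (a 0 0) = a 0 0 := by
  have h0 := comm_of_fixed (k := 0) a fun l _ => h l
  have h2 := comm_of_fixed (k := 2) a fun l _ => h l
  have e01 := congrFun (congrFun h2 0) 1
  have e10 := congrFun (congrFun h2 1) 0
  have e11 := congrFun (congrFun h0 0) 1
  rw [mul01, mul01] at e01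
  rw [mul10, mul10] at e10
  rw [mul01, mul01] at e11
  simp [sig] at e01 e10 e11
  have z01 : a 0 1 = 0 := by linear_combination (1 / 2 : ℂ) * e01
  have z10 : a 1 0 = 0 := by linear_combination (-1 / 2 : ℂ) * e10
  refine ⟨?_, ?_⟩
  · apply m2_ext <;> simp [z01, z10, e11]
  · have h1 := congrFun (congrFun (h 1) 0) 0
    rw [gam_apply] at h1
    simpa [gamFun] using h1

theorem cut_none {x : Xs I} (h : ∀ k, ¬ Tn x k) : Cut (Fx x) (Kx x) 1 1 (pp 0) where
  cB := (Fx x).one_mem
  cc := one_mul 1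
  cen := fun a _ => by rw [one_mul, mul_one]
  pB := (Fx x).one_mem
  pp := one_mul 1
  p0 := one_ne_zero
  hK := fun r hr => smul_mem_Fx (Fx x).one_mem hr
  hpK := fun a ha => by
    obtain ⟨h1, h2⟩ := scalar_of_all (a := a) fun l => ha l (not_Tn (h l))
    refine ⟨a 0 0, fun _ => h2, ?_⟩
    rw [one_mul, mul_one]
    exact h1
  qc := pp_comm fun l _ => not_Tn (h l)
  tr := by rw [one_mul, pp_trace]
  qcc := one_mul _
  full := ⟨1, (Fx x).one_mem, 1, (Fx x).one_mem, 0, (Fx x).zero_mem, 0, (Fx x).zero_mem, by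
    rw [one_mul, mul_one, mul_zero, add_zero]⟩

/-- two families have nonzero signs -/
def Two (x : Xs I) : Prop := ∃ k l, k ≠ l ∧ Tn x k ∧ Tn x l

/-- the index of a family with a nonzero sign -/
noncomputable def kk (x : Xs I) : Fin 3 := open Classical in if h : ∃ k, Tn x k then h.choose else 0

theorem kk_spec {x : Xs I} (h : ∃ k, Tn x k) : Tn x (kk x) := by
  unfold kk
  rw [dif_pos h]
  exact h.choose_spec

theorem kk_sub {x : Xs I} (h : ¬ Two x) : Tsub x (kk x) := by
  intro l hl i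
  by_contra hi
  exact h ⟨l, kk x, hl, ⟨i, hi⟩, kk_spec ⟨l, i, hi⟩⟩

/-- the first cutting idempotent -/
noncomputable def qa (x : Xs I) : M2 := open Classical in if Two x then 1 else
  if ∃ k, Tn x k then pp (kk x) else pp 0

/-- the second cutting idempotent -/
noncomputable def qb (x : Xs I) : M2 := open Classical in if Two x then 0 else
  if ∃ k, Tn x k then pm (kk x) else 0

theorem adm_qa (x : Xs I) : Adm x (qa x) := by
  unfold qa
  split_ifs with h h'
  · exact adm_one x
  · exact adm_pp (kk_sub h)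
  · exact adm_pp fun l _ => not_Tn fun hl => h' ⟨l, hl⟩

theorem adm_qb (x : Xs I) : Adm x (qb x) := by
  unfold qb
  split_ifs with h h'
  · exact adm_zero x
  · exact adm_pm (kk_sub h)
  · exact adm_zero x

theorem diag_one_mul {ι : Type} [Fintype ι] [DecidableEq ι] (e : Matrix ι ι M2) :
    Matrix.diagonal (fun _ => (1 : M2)) * e = e := by
  rw [Matrix.diagonal_one, Matrix.one_mul]

theorem pp_pm (k : Fin 3) : pp k * pm k = 0 := by
  rw [pm_eq, mul_sub, pp_idem, mul_one, sub_self]

theorem pm_pp (k : Fin 3) : pm k * pp k = 0 := by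
  rw [pm_eq, sub_mul, pp_idem, one_mul, sub_self]

theorem eqvB_of_rk (x : Xs I) {m n : ℕ} {e : Matrix (Fin m) (Fin m) M2}
    {f : Matrix (Fin n) (Fin n) M2} (heB : InB (Fx x) e) (hee : e * e = e) (hfB : InB (Fx x) f)
    (hff : f * f = f) (h1 : ∑ i, (e i i * qa x).trace = ∑ i, (f i i * qa x).trace)
    (h2 : ∑ i, (e i i * qb x).trace = ∑ i, (f i i * qb x).trace) : EqvB (Fx x) e f := by
  by_cases h : Two x
  · have hq : qa x = 1 := by unfold qa; rw [if_pos h]
    rw [hq] at h1
    obtain ⟨k, l, hkl, hk, hl⟩ := h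
    have := EqvB.of_cut (cut_two hkl hk hl) heB hee hfB hff h1
    rwa [diag_one_mul, diag_one_mul] at this
  · by_cases h' : ∃ k, Tn x k
    · have hq : qa x = pp (kk x) := by unfold qa; rw [if_neg h, if_pos h']
      have hq' : qb x = pm (kk x) := by unfold qb; rw [if_neg h, if_pos h']
      rw [hq] at h1
      rw [hq'] at h2
      have hs := kk_sub h
      have hk := kk_spec h'
      exact EqvB.join (pp_mem hk) (pm_mem hk) (by rw [pm_eq]; abel) (pp_pm _) (pm_pp _)
        (pp_comm hs) (pm_comm hs) (EqvB.of_cut (cut_pp hk hs) heB hee hfB hff h1)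
        (EqvB.of_cut (cut_pm hk hs) heB hee hfB hff h2)
    · have hq : qa x = pp 0 := by unfold qa; rw [if_neg h, if_neg h']
      rw [hq] at h1
      have := EqvB.of_cut (cut_none fun k hk => h' ⟨k, hk⟩) heB hee hfB hff h1
      rwa [diag_one_mul, diag_one_mul] at this

/-! ### restriction maps -/

/-- the indicator function of an invariant clopen set -/
noncomputable def ind (U : Set (Xs I)) (hU : U ∈ BB I) : Rg I :=
  ⟨fun x => open Classical in if x ∈ U then 1 else 0, by
    refine ⟨?_, fun k x => ?_⟩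
    · classical
      have h : IsLocallyConstant (fun x => x ∈ U) := by
        rw [IsLocallyConstant.iff_eventually_eq]
        intro x
        by_cases hx : x ∈ U
        · filter_upwards [hU.1.isOpen.mem_nhds hx] with y hy
          exact propext ⟨fun _ => hx, fun _ => hy⟩
        · filter_upwards [hU.1.compl.isOpen.mem_nhds hx] with y hy
          exact propext ⟨fun h => absurd h hy, fun h => absurd h hx⟩
      exact h.comp (fun P : Prop => if P then (1 : M2) else 0)
    · have := hU.2 k x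
      classical
      show (if flp k x ∈ U then (1 : M2) else 0) = gam k (if x ∈ U then (1 : M2) else 0)
      by_cases hx : x ∈ U
      · rw [if_pos (this.2 hx), if_pos hx, map_one]
      · rw [if_neg (fun h => hx (this.1 h)), if_neg hx, map_zero]⟩

theorem ind_pos {U : Set (Xs I)} (hU : U ∈ BB I) {x : Xs I} (hx : x ∈ U) :
    (ind U hU).1 x = 1 := if_pos hx

theorem ind_neg {U : Set (Xs I)} (hU : U ∈ BB I) {x : Xs I} (hx : x ∉ U) :
    (ind U hU).1 x = 0 := if_neg hx

/-- multiplication by an indicator function -/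
noncomputable def cutH (U : Set (Xs I)) (hU : U ∈ BB I) : Rg I →ₙ+* Rg I where
  toFun f := ind U hU * f
  map_mul' f g := by
    apply Subtype.ext
    funext x
    show (ind U hU).1 x * (f.1 x * g.1 x) = (ind U hU).1 x * f.1 x * ((ind U hU).1 x * g.1 x)
    by_cases hx : x ∈ U
    · rw [ind_pos hU hx]; simp
    · rw [ind_neg hU hx]; simp
  map_zero' := mul_zero _
  map_add' f g := mul_add _ _ _

theorem cutH_pos {U : Set (Xs I)} (hU : U ∈ BB I) (f : Rg I) {x : Xs I} (hx : x ∈ U) :
    (cutH U hU f).1 x = f.1 x := by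
  show (ind U hU).1 x * f.1 x = f.1 x
  rw [ind_pos hU hx, one_mul]

theorem cutH_neg {U : Set (Xs I)} (hU : U ∈ BB I) (f : Rg I) {x : Xs I} (hx : x ∉ U) :
    (cutH U hU f).1 x = 0 := by
  show (ind U hU).1 x * f.1 x = 0
  rw [ind_neg hU hx, zero_mul]

/-- the restriction map -/
noncomputable def res (U : Set (Xs I)) : VV (Rg I) →+ VV (Rg I) :=
  open Classical in if hU : U ∈ BB I then VVmap (cutH U hU) else 0

theorem res_cm {U : Set (Xs I)} (hU : U ∈ BB I) {n : ℕ} {e : Matrix (Fin n) (Fin n) (Rg I)}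
    (he : e * e = e) : res U (cm he) = cm (map_idem (cutH U hU) he) := by
  unfold res
  rw [dif_pos hU]
  rfl

/-- the evaluation in the simplicial monoid -/
noncomputable def evv (x : Xs I) : VV (Rg I) →+ ℕ × ℕ := (rkq x (qa x)).prod (rkq x (qb x))

theorem biInter_mem {X : Type} [TopologicalSpace X] {B : Set (Set X)} (h : BAlg X B) {ι : Type}
    [Fintype ι] (U : ι → Set X) (hU : ∀ i, U i ∈ B) : (⋂ i, U i) ∈ B := by
  classical
  have key : ∀ s : Finset ι, (⋂ i ∈ s, U i) ∈ B := by
    intro s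
    induction s using Finset.induction_on with
    | empty => simpa using h.univ
    | insert a s ha ih =>
      rw [Finset.set_biInter_insert]
      exact h.inter _ (hU a) _ ih
  simpa using key Finset.univ

theorem eqM_mem_BB {m n : ℕ} (e f : Matrix (Fin m) (Fin n) (Rg I)) :
    {x | ∀ i j, (e i j).1 x = (f i j).1 x} ∈ BB I := by
  have : {x | ∀ i j, (e i j).1 x = (f i j).1 x} =
      ⋂ p : Fin m × Fin n, {x | (e p.1 p.2).1 x = (f p.1 p.2).1 x} := by
    ext x
    simp only [Set.mem_iInter]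
    exact ⟨fun h p => h p.1 p.2, fun h i j => h (i, j)⟩
  rw [this]
  exact biInter_mem (BB_balg I) _ fun p => eq_mem_BB _ _

/-- evaluation as a homomorphism -/
noncomputable def ev0 (x : Xs I) : Rg I →ₙ+* M2 where
  toFun f := f.1 x
  map_mul' _ _ := rfl
  map_zero' := rfl
  map_add' _ _ := rfl

theorem exists_idem_lift (x : Xs I) (p : M2) (hp : p ∈ Fx x) (hpp : p * p = p) :
    ∃ f : Rg I, f * f = f ∧ f.1 x = p := by
  obtain ⟨g, hg⟩ := exists_lift x p hp
  have hU := eq_mem_BB (g * g) g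
  refine ⟨cutH _ hU g, ?_, ?_⟩
  · rw [← map_mul]
    apply Subtype.ext
    funext y
    by_cases hy : y ∈ {x | (g * g).1 x = g.1 x}
    · rw [cutH_pos hU _ hy, cutH_pos hU _ hy]
      exact hy
    · rw [cutH_neg hU _ hy, cutH_neg hU _ hy]
  · rw [cutH_pos hU, hg]
    show g.1 x * g.1 x = g.1 x
    rw [hg, hpp]

theorem rkq_lift (x : Xs I) (p : M2) (hp : p ∈ Fx x) (hpp : p * p = p) :
    ∃ w : VV (Rg I), ∀ q, Adm x q → ((rkq x q w : ℕ) : ℂ) = (p * q).trace := by
  obtain ⟨f, hff, hf⟩ := exists_idem_lift x p hp hpp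
  refine ⟨cm (s1_idem hff), fun q hq => ?_⟩
  rw [rkq_cm hq]
  simp [s1, hf]

theorem sheafy (I : Type) : Sheafy (Xs I) (BB I) (VV (Rg I)) res evv where
  balg := BB_balg I
  res_univ := by
    intro v
    obtain ⟨n, e, he, rfl⟩ := exists_cm v
    have hU : (Set.univ : Set (Xs I)) ∈ BB I := (BB_balg I).univ
    rw [res_cm hU]
    apply cm_congr
    ext1 i j
    apply Subtype.ext
    funext x
    exact cutH_pos hU _ (Set.mem_univ x)
  res_empty := by
    intro v
    obtain ⟨n, e, he, rfl⟩ := exists_cm v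
    have hU : (∅ : Set (Xs I)) ∈ BB I := (BB_balg I).empty
    rw [res_cm hU]
    have h0 : e.map (cutH ∅ hU) = 0 := by
      ext1 i j
      apply Subtype.ext
      funext x
      exact cutH_neg hU _ (Set.notMem_empty x)
    have h1 : (0 : Matrix (Fin n) (Fin n) (Rg I)) * 0 = 0 := by rw [Matrix.zero_mul]
    rw [← cm_zero h1]
    exact cm_congr _ _ h0
  res_res := by
    intro U hU W hW v
    obtain ⟨n, e, he, rfl⟩ := exists_cm v
    have hUW := (BB_balg I).inter U hU W hW
    rw [res_cm hW, res_cm hU, res_cm hUW]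
    apply cm_congr
    ext1 i j
    apply Subtype.ext
    funext x
    show (cutH U hU (cutH W hW (e i j))).1 x = (cutH (U ∩ W) hUW (e i j)).1 x
    by_cases h1 : x ∈ U
    · rw [cutH_pos hU _ h1]
      by_cases h2 : x ∈ W
      · rw [cutH_pos hW _ h2, cutH_pos hUW _ ⟨h1, h2⟩]
      · rw [cutH_neg hW _ h2, cutH_neg hUW _ fun h => h2 h.2]
    · rw [cutH_neg hU _ h1, cutH_neg hUW _ fun h => h1 h.1]
  res_compl := by
    intro U hU v
    obtain ⟨n, e, he, rfl⟩ := exists_cm v
    have hU' := (BB_balg I).compl U hU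
    rw [res_cm hU, res_cm hU']
    have hz : ∀ a b : Rg I, cutH U hU a * cutH Uᶜ hU' b = 0 := by
      intro a b
      apply Subtype.ext
      funext x
      show (cutH U hU a).1 x * (cutH Uᶜ hU' b).1 x = 0
      by_cases hx : x ∈ U
      · rw [cutH_neg hU' b (fun h => h hx), mul_zero]
      · rw [cutH_neg hU a hx, zero_mul]
    have hz' : ∀ a b : Rg I, cutH Uᶜ hU' a * cutH U hU b = 0 := by
      intro a b
      apply Subtype.ext
      funext x
      show (cutH Uᶜ hU' a).1 x * (cutH U hU b).1 x = 0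
      by_cases hx : x ∈ U
      · rw [cutH_neg hU' a (fun h => h hx), zero_mul]
      · rw [cutH_neg hU b hx, mul_zero]
    have h1 : e.map (cutH U hU) * e.map (cutH Uᶜ hU') = 0 := by
      ext1 i j
      rw [Matrix.mul_apply]
      exact Finset.sum_eq_zero fun k _ => hz _ _
    have h2 : e.map (cutH Uᶜ hU') * e.map (cutH U hU) = 0 := by
      ext1 i j
      rw [Matrix.mul_apply]
      exact Finset.sum_eq_zero fun k _ => hz' _ _
    rw [cm_orth (map_idem _ he) (map_idem _ he) h1 h2]
    apply cm_congr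
    ext1 i j
    apply Subtype.ext
    funext x
    show (cutH U hU (e i j)).1 x + (cutH Uᶜ hU' (e i j)).1 x = (e i j).1 x
    by_cases hx : x ∈ U
    · rw [cutH_pos hU _ hx, cutH_neg hU' _ (fun h => h hx), add_zero]
    · rw [cutH_neg hU _ hx, cutH_pos hU' _ hx, zero_add]
  loc := by
    intro x v w h
    obtain ⟨m, e, he, rfl⟩ := exists_cm v
    obtain ⟨n, f, hf, rfl⟩ := exists_cm w
    have ha : rkq x (qa x) (cm he) = rkq x (qa x) (cm hf) := congrArg Prod.fst h
    have hb : rkq x (qb x) (cm he) = rkq x (qb x) (cm hf) := congrArg Prod.snd h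
    have ha' : ((rkq x (qa x) (cm he) : ℕ) : ℂ) = ((rkq x (qa x) (cm hf) : ℕ) : ℂ) := by rw [ha]
    have hb' : ((rkq x (qb x) (cm he) : ℕ) : ℂ) = ((rkq x (qb x) (cm hf) : ℕ) : ℂ) := by rw [hb]
    rw [rkq_cm (adm_qa x), rkq_cm (adm_qa x)] at ha'
    rw [rkq_cm (adm_qb x), rkq_cm (adm_qb x)] at hb'
    obtain ⟨X, Y, hX, hY, hXY, hYX⟩ := eqvB_of_rk x (e := e.map (ev0 x)) (f := f.map (ev0 x))
      (fun i j => val_mem (e i j) x) (map_idem _ he) (fun i j => val_mem (f i j) x)
      (map_idem _ hf) ha' hb'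
    choose Xl hXl using fun i j => exists_lift x (X i j) (hX i j)
    choose Yl hYl using fun i j => exists_lift x (Y i j) (hY i j)
    have hU1 := eqM_mem_BB (Matrix.of Xl * Matrix.of Yl) e
    have hU2 := eqM_mem_BB (Matrix.of Yl * Matrix.of Xl) f
    have hU := (BB_balg I).inter _ hU1 _ hU2
    have hmap : (Matrix.of Xl).map (ev0 x) = X := by
      ext1 i j; exact hXl i j
    have hmap' : (Matrix.of Yl).map (ev0 x) = Y := by
      ext1 i j; exact hYl i j
    refine ⟨_, hU, ⟨?_, ?_⟩, ?_⟩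
    · intro i j
      have : (Matrix.of Xl * Matrix.of Yl).map (ev0 x) = e.map (ev0 x) := by
        rw [Matrix.map_mul, hmap, hmap', hXY]
      exact congrFun (congrFun this i) j
    · intro i j
      have : (Matrix.of Yl * Matrix.of Xl).map (ev0 x) = f.map (ev0 x) := by
        rw [Matrix.map_mul, hmap, hmap', hYX]
      exact congrFun (congrFun this i) j
    · rw [res_cm hU, res_cm hU, cm_eq]
      refine ⟨(Matrix.of Xl).map (cutH _ hU), (Matrix.of Yl).map (cutH _ hU), ?_, ?_⟩
      · rw [← Matrix.map_mul]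
        ext1 i j
        apply Subtype.ext
        funext y
        show (cutH _ hU ((Matrix.of Xl * Matrix.of Yl) i j)).1 y = (cutH _ hU (e i j)).1 y
        by_cases hy : y ∈ {x | ∀ i j, ((Matrix.of Xl * Matrix.of Yl) i j).1 x = (e i j).1 x} ∩
            {x | ∀ i j, ((Matrix.of Yl * Matrix.of Xl) i j).1 x = (f i j).1 x}
        · rw [cutH_pos hU _ hy, cutH_pos hU _ hy]
          exact hy.1 i j
        · rw [cutH_neg hU _ hy, cutH_neg hU _ hy]
      · rw [← Matrix.map_mul]
        ext1 i j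
        apply Subtype.ext
        funext y
        show (cutH _ hU ((Matrix.of Yl * Matrix.of Xl) i j)).1 y = (cutH _ hU (f i j)).1 y
        by_cases hy : y ∈ {x | ∀ i j, ((Matrix.of Xl * Matrix.of Yl) i j).1 x = (e i j).1 x} ∩
            {x | ∀ i j, ((Matrix.of Yl * Matrix.of Xl) i j).1 x = (f i j).1 x}
        · rw [cutH_pos hU _ hy, cutH_pos hU _ hy]
          exact hy.2 i j
        · rw [cutH_neg hU _ hy, cutH_neg hU _ hy]
  lift := by
    intro x v t ht
    have key : (∃ w, evv x w = (1, 0)) ∧ ((∀ v, (evv x v).2 = 0) ∨ ∃ w, evv x w = (0, 1)) := by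
      have hz : ∀ w : VV (Rg I), rkq x 0 w = 0 := by
        intro w
        obtain ⟨n, e, he, rfl⟩ := exists_cm w
        have h1 := rkq_cm (adm_zero x) he
        simp only [mul_zero, Matrix.trace_zero, Finset.sum_const_zero] at h1
        exact_mod_cast h1
      by_cases h : Two x
      · have hq : qa x = 1 := by unfold qa; rw [if_pos h]
        have hq' : qb x = 0 := by unfold qb; rw [if_pos h]
        obtain ⟨k, l, hkl, hk, hl⟩ := h
        obtain ⟨w, hw⟩ := rkq_lift x (pp k) (pp_mem hk) (pp_idem k)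
        have h1 := hw 1 (adm_one x)
        rw [mul_one, pp_trace] at h1
        have h2 : rkq x 1 w = 1 := by exact_mod_cast h1
        refine ⟨⟨w, ?_⟩, Or.inl fun v => ?_⟩
        · show (rkq x (qa x) w, rkq x (qb x) w) = (1, 0)
          rw [hq, hq', h2, hz]
        · show rkq x (qb x) v = 0
          rw [hq', hz]
      · by_cases h' : ∃ k, Tn x k
        · have hq : qa x = pp (kk x) := by unfold qa; rw [if_neg h, if_pos h']
          have hq' : qb x = pm (kk x) := by unfold qb; rw [if_neg h, if_pos h']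
          have hs := kk_sub h
          have hk := kk_spec h'
          obtain ⟨w, hw⟩ := rkq_lift x (pp (kk x)) (pp_mem hk) (pp_idem _)
          obtain ⟨w', hw'⟩ := rkq_lift x (pm (kk x)) (pm_mem hk) (pm_idem _)
          have h1 := hw _ (adm_pp hs)
          have h2 := hw _ (adm_pm hs)
          have h3 := hw' _ (adm_pp hs)
          have h4 := hw' _ (adm_pm hs)
          rw [pp_idem, pp_trace] at h1
          rw [pp_pm, Matrix.trace_zero] at h2
          rw [pm_pp, Matrix.trace_zero] at h3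
          rw [pm_idem, pm_trace] at h4
          have k1 : rkq x (pp (kk x)) w = 1 := by exact_mod_cast h1
          have k2 : rkq x (pm (kk x)) w = 0 := by exact_mod_cast h2
          have k3 : rkq x (pp (kk x)) w' = 0 := by exact_mod_cast h3
          have k4 : rkq x (pm (kk x)) w' = 1 := by exact_mod_cast h4
          refine ⟨⟨w, ?_⟩, Or.inr ⟨w', ?_⟩⟩
          · show (rkq x (qa x) w, rkq x (qb x) w) = (1, 0)
            rw [hq, hq', k1, k2]
          · show (rkq x (qa x) w', rkq x (qb x) w') = (0, 1)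
            rw [hq, hq', k3, k4]
        · have hq : qa x = pp 0 := by unfold qa; rw [if_neg h, if_neg h']
          have hq' : qb x = 0 := by unfold qb; rw [if_neg h, if_neg h']
          obtain ⟨w, hw⟩ := rkq_lift x 1 (Fx x).one_mem (one_mul 1)
          have h1 := hw (pp 0) (adm_pp fun l _ => not_Tn fun hl => h' ⟨l, hl⟩)
          rw [one_mul, pp_trace] at h1
          have h2 : rkq x (pp 0) w = 1 := by exact_mod_cast h1
          refine ⟨⟨w, ?_⟩, Or.inl fun v => ?_⟩
          · show (rkq x (qa x) w, rkq x (qb x) w) = (1, 0)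
            rw [hq, hq', h2, hz]
          · show rkq x (qb x) v = 0
            rw [hq', hz]
    obtain ⟨⟨w, hw⟩, h2⟩ := key
    rcases h2 with h2 | ⟨w', hw'⟩
    · refine ⟨t.1 • w, ?_⟩
      rw [map_nsmul, hw]
      have : t.2 = 0 := by
        have := ht.2
        rw [h2 v] at this
        exact Nat.le_zero.1 this
      apply Prod.ext
      · simp
      · simp [this]
    · refine ⟨t.1 • w + t.2 • w', ?_⟩
      rw [map_add, map_nsmul, map_nsmul, hw, hw']
      apply Prod.ext <;> simp

end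

end Pool.Agent.H413.NK
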